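import Pool.Agent.H429R2.GP.TL
import Pool.Agent.H370R2.DirGood

/-!
Bounds for Dirichlet L-functions, uniform in the conductor.
-/

open Complex Filter Topology Set Metric MeasureTheory

namespace H429.GP

open H370.DL

variable {q : ℕ} [NeZero q] {χ : DirichletCharacter ℂ q}

theorem eq_one_of_prim (hχ : χ.IsPrimitive) (h : χ = 1) : q = 1 := by
  rw [h, DirichletCharacter.IsPrimitive, DirichletCharacter.conductor_one] at hχ
  exact hχ.symm

/-- the L-function without its possible pole -/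
theorem exists_reg (hχ : χ.IsPrimitive) : ∃ h : ℂ → ℂ, ∃ e : ℂ, (e = 0 ∨ e = 1) ∧
    DifferentiableOn ℂ h {s | 0 < s.re} ∧
    (∀ s : ℂ, 0 < s.re → s ≠ 1 →
      DirichletCharacter.LFunction χ s = h s + e * (1 / (s - 1))) ∧
    (∀ s : ℂ, 0 < s.re → ‖h s‖ ≤ 1 + ‖s‖ * ((q + 1) / s.re)) := by
  rcases eq_or_ne χ 1 with h1 | h1
  · have hq : q = 1 := eq_one_of_prim hχ h1
    subst hq
    have hA : ∀ u : ℝ, ‖((Int.fract u : ℝ) : ℂ)‖ ≤ 1 := by
      intro u
      rw [Complex.norm_real, Real.norm_eq_abs, Int.abs_fract]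
      exact (Int.fract_lt_one u).le
    have hm : Measurable (fun u : ℝ => ((Int.fract u : ℝ) : ℂ)) :=
      measurable_ofReal.comp measurable_fract
    refine ⟨fun s => 1 - s * ∫ u in Ioi (1 : ℝ), ((Int.fract u : ℝ) : ℂ) * (u : ℂ) ^ (-s - 1), 1,
      Or.inr rfl, ?_, ?_, ?_⟩
    · exact (differentiableOn_const 1).sub (differentiableOn_id.mul (J_diff zero_le_one hm hA))
    · intro s hs hs1
      rw [DirichletCharacter.LFunction_modOne_eq, ZU.J_a1.zf_one s hs hs1]
      ring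
    · intro s hs
      refine (norm_sub_le _ _).trans ?_
      rw [norm_one, norm_mul]
      have h4 := J_bound hA hs
      have h5 : (1 : ℝ) / s.re ≤ (((1 : ℕ) : ℝ) + 1) / s.re := by
        apply div_le_div_of_nonneg_right _ hs.le
        norm_num
      have := mul_le_mul_of_nonneg_left (h4.trans h5) (norm_nonneg s)
      linarith
  · refine ⟨DirichletCharacter.LFunction χ, 0, Or.inl rfl, ?_, ?_, ?_⟩
    · exact (DirichletCharacter.differentiable_LFunction h1).differentiableOn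
    · intro s _ _
      ring
    · intro s hs
      have hA : ∀ u : ℝ, ‖∑ k ∈ Finset.Icc 1 ⌊u⌋₊, χ (k : ZMod q)‖ ≤ (q + 1 : ℝ) :=
        fun u => norm_sum_Icc_le h1 _
      rw [L_integral h1 hs, norm_mul]
      have h4 := J_bound hA hs
      have := mul_le_mul_of_nonneg_left h4 (norm_nonneg s)
      linarith

theorem one_le_q (q : ℕ) [NeZero q] : (1 : ℝ) ≤ q := by exact_mod_cast NeZero.one_le

theorem growth (hχ : χ.IsPrimitive) {η : ℝ} (hη : 0 < η) {s : ℂ} (h1 : 1 / 4 ≤ s.re)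
    (h2 : s.re ≤ 1 - η) :
    ‖DirichletCharacter.LFunction χ s‖ ≤ (9 + 1 / η) * (q * (1 + |s.im|)) := by
  obtain ⟨h, e, he, -, hL, hb⟩ := exists_reg hχ
  have hs : 0 < s.re := by linarith
  have hs1 : s ≠ 1 := by
    intro h
    rw [h] at h2
    simp at h2
    linarith
  have hq := one_le_q q
  rw [hL s hs hs1]
  have h3 := hb s hs
  have h4 : ‖s‖ ≤ 1 + |s.im| := by
    refine (norm_le_abs_re_add_abs_im s).trans ?_
    rw [abs_of_pos hs]
    linarith
  have h5 : ((q : ℝ) + 1) / s.re ≤ 8 * q := by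
    rw [div_le_iff₀ hs]
    nlinarith
  have h6 : ‖s‖ * ((q + 1) / s.re) ≤ (1 + |s.im|) * (8 * q) :=
    mul_le_mul h4 h5 (by positivity) (by positivity)
  have h7 : ‖e * (1 / (s - 1))‖ ≤ 1 / η := by
    rcases he with he | he
    · rw [he, zero_mul, norm_zero]; positivity
    · rw [he, one_mul, norm_div, norm_one]
      apply one_div_le_one_div_of_le hη
      have := abs_re_le_norm (s - 1)
      rw [sub_re, one_re, abs_sub_comm, abs_of_nonneg (by linarith)] at this
      linarith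
  have h8 : 1 ≤ (q : ℝ) * (1 + |s.im|) := by
    nlinarith [abs_nonneg s.im]
  have h9 : 0 < 1 / η := by positivity
  calc _ ≤ ‖h s‖ + ‖e * (1 / (s - 1))‖ := norm_add_le _ _
    _ ≤ (1 + (1 + |s.im|) * (8 * q)) + 1 / η := add_le_add (h3.trans (by linarith)) h7
    _ ≤ _ := by nlinarith

theorem norm_L_right {η : ℝ} (hη : 0 < η) {s : ℂ} (hs : s.re = 1 + η) :
    ‖DirichletCharacter.LFunction χ s‖ ≤ ∑' n : ℕ, 1 / (n : ℝ) ^ (1 + η) := by
  have hre : 1 < s.re := by linarith
  rw [DirichletCharacter.LFunction_eq_LSeries χ hre]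
  unfold LSeries
  have hsum : Summable (fun n : ℕ => 1 / (n : ℝ) ^ (1 + η)) :=
    Real.summable_one_div_nat_rpow.mpr (by linarith)
  refine tsum_of_norm_bounded hsum.hasSum fun n => ?_
  rcases eq_or_ne n 0 with rfl | hn
  · simp
    positivity
  · rw [LSeries.term_of_ne_zero hn, norm_div, norm_natCast_cpow_of_pos (Nat.pos_of_ne_zero hn), hs]
    gcongr
    exact DirichletCharacter.norm_le_one χ _

/-- convexity bound close to the line `Re s = 1` -/
theorem convexity {η : ℝ} (hη : 0 < η) (hη4 : η ≤ 1 / 4) : ∃ C : ℝ, 0 < C ∧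
    ∀ (q : ℕ) [NeZero q] (χ : DirichletCharacter ℂ q), χ.IsPrimitive → ∀ t : ℝ,
      ‖DirichletCharacter.LFunction χ ⟨1 - η, t⟩‖ ≤ C * (q * (1 + |t|)) ^ (4 * η) := by
  set Z : ℝ := ∑' n : ℕ, 1 / (n : ℝ) ^ (1 + η) with hZ
  have hZ0 : 0 ≤ Z := tsum_nonneg fun n => by positivity
  refine ⟨Real.exp 1 * (32 + (Z + 1 / η)) + 1 / η, by positivity, ?_⟩
  intro q _ χ hχ t
  obtain ⟨h, e, he, hd, hL, hb⟩ := exists_reg hχ
  have hq := one_le_q q
  set P : ℝ := q * (1 + |t|) with hP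
  have hP1 : 1 ≤ P := by rw [hP]; nlinarith [abs_nonneg t]
  have hP0 : 0 < P := by linarith
  have hgr : ∀ z : ℂ, 1 / 4 ≤ z.re → z.re ≤ 1 + η → ‖h z‖ ≤ (16 * q) * (1 + |z.im|) := by
    intro z h1 h2
    have hz : 0 < z.re := by linarith
    have h3 := hb z hz
    have h4 : ‖z‖ ≤ 5 / 4 + |z.im| := by
      refine (norm_le_abs_re_add_abs_im z).trans ?_
      rw [abs_of_pos hz]
      linarith
    have h5 : ((q : ℝ) + 1) / z.re ≤ 8 * q := by
      rw [div_le_iff₀ hz]
      nlinarith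
    have h6 : ‖z‖ * ((q + 1) / z.re) ≤ (5 / 4 + |z.im|) * (8 * q) :=
      mul_le_mul h4 h5 (by positivity) (by positivity)
    nlinarith [abs_nonneg z.im]
  have hright : ∀ y : ℝ, ‖h ⟨1 + η, y⟩‖ ≤ (Z + 1 / η) * Real.exp ((y - t) ^ 2) := by
    intro y
    have hs0 : (0 : ℝ) < (⟨1 + η, y⟩ : ℂ).re := by simp; linarith
    have hne : (⟨1 + η, y⟩ : ℂ) ≠ 1 := by
      intro h
      have := congrArg re h
      simp at this
      linarith
    have h1 := hL ⟨1 + η, y⟩ hs0 hne
    have h2 : h ⟨1 + η, y⟩ = DirichletCharacter.LFunction χ ⟨1 + η, y⟩ -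
        e * (1 / ((⟨1 + η, y⟩ : ℂ) - 1)) := by rw [h1]; ring
    rw [h2]
    have h3 := norm_L_right (χ := χ) hη (s := ⟨1 + η, y⟩) rfl
    have h7 : ‖e * (1 / ((⟨1 + η, y⟩ : ℂ) - 1))‖ ≤ 1 / η := by
      rcases he with he | he
      · rw [he, zero_mul, norm_zero]; positivity
      · rw [he, one_mul, norm_div, norm_one]
        apply one_div_le_one_div_of_le hη
        have := abs_re_le_norm ((⟨1 + η, y⟩ : ℂ) - 1)
        simp only [sub_re, one_re, add_sub_cancel_left] at this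
        rwa [abs_of_pos hη] at this
    calc _ ≤ Z + 1 / η := (norm_sub_le _ _).trans (add_le_add h3 h7)
      _ = (Z + 1 / η) * 1 := by ring
      _ ≤ _ := by
        apply mul_le_mul_of_nonneg_left _ (by positivity)
        exact Real.one_le_exp (sq_nonneg _)
  have hleft : ∀ y : ℝ, ‖h ⟨1 / 4, y⟩‖ ≤ (32 * P) * Real.exp ((y - t) ^ 2) := by
    intro y
    have h1 := hgr ⟨1 / 4, y⟩ (by norm_num) (by simp; linarith)
    refine h1.trans ?_
    have h2 : 1 + |y| ≤ (1 + |t|) * (1 + |y - t|) := by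
      have : |y| ≤ |t| + |y - t| := by
        calc |y| = |t + (y - t)| := by ring_nf
          _ ≤ _ := abs_add_le _ _
      nlinarith [abs_nonneg t, abs_nonneg (y - t)]
    have h3 := one_add_le_gauss |y - t|
    rw [sq_abs] at h3
    calc (16 * (q : ℝ)) * (1 + |y|) ≤ (16 * q) * ((1 + |t|) * (2 * Real.exp ((y - t) ^ 2))) := by
          gcongr
          exact h2.trans (by gcongr)
      _ = _ := by rw [hP]; ring
  have hdc : DiffContOnCl ℂ h {z | (1 / 4 : ℝ) < z.re ∧ z.re < 1 + η} := by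
    have hcl : closure {z : ℂ | (1 / 4 : ℝ) < z.re ∧ z.re < 1 + η} ⊆ {z | 0 < z.re} := by
      have h5 : {z : ℂ | (1 / 4 : ℝ) < z.re ∧ z.re < 1 + η} = re ⁻¹' (Ioo (1 / 4) (1 + η)) := rfl
      rw [h5, closure_preimage_re, closure_Ioo (by linarith)]
      intro z hz
      have : (1 / 4 : ℝ) ≤ z.re := hz.1
      change 0 < z.re
      linarith
    exact (hd.mono hcl).diffContOnCl
  have htl := three_lines (a := 1 / 4) (b := 1 + η) (σ0 := 1 - η) (t0 := t)
    (lam := 2 * Real.log P) (by linarith) (by linarith) (by linarith) hdc hgr hleft hright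
  have he1 : Real.exp ((1 + η - 1 / 4) ^ 2) ≤ Real.exp 1 := by
    apply Real.exp_le_exp.mpr
    nlinarith
  have hm1 : 32 * P * Real.exp (2 * Real.log P * (1 / 4 - (1 - η))) ≤
      32 * P ^ (4 * η) := by
    have h1 : Real.exp (2 * Real.log P * (1 / 4 - (1 - η))) =
        P ^ (2 * (1 / 4 - (1 - η))) := by
      rw [Real.rpow_def_of_pos hP0]; congr 1; ring
    rw [h1]
    have h2 : P * P ^ (2 * (1 / 4 - (1 - η))) = P ^ (1 + 2 * (1 / 4 - (1 - η))) := by
      rw [Real.rpow_add hP0, Real.rpow_one]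
    rw [mul_assoc, h2]
    apply mul_le_mul_of_nonneg_left _ (by norm_num)
    exact Real.rpow_le_rpow_of_exponent_le hP1 (by linarith)
  have hm2 : (Z + 1 / η) * Real.exp (2 * Real.log P * (1 + η - (1 - η))) =
      (Z + 1 / η) * P ^ (4 * η) := by
    rw [Real.rpow_def_of_pos hP0]; congr 2; ring
  have hPη : 1 ≤ P ^ (4 * η) := Real.one_le_rpow hP1 (by positivity)
  have hmain : ‖h ⟨1 - η, t⟩‖ ≤ Real.exp 1 * (32 + (Z + 1 / η)) * P ^ (4 * η) := by
    refine htl.trans ?_
    rw [mul_assoc (Real.exp 1)]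
    apply mul_le_mul he1 _ (by positivity) (by positivity)
    apply max_le
    · refine hm1.trans ?_
      have : 0 ≤ (Z + 1 / η) * P ^ (4 * η) := by positivity
      linarith
    · rw [hm2]
      have : 0 ≤ 32 * P ^ (4 * η) := by positivity
      linarith
  have hs0 : (0 : ℝ) < (⟨1 - η, t⟩ : ℂ).re := by simp; linarith
  have hne : (⟨1 - η, t⟩ : ℂ) ≠ 1 := by
    intro h
    have := congrArg re h
    simp at this
    linarith
  rw [hL ⟨1 - η, t⟩ hs0 hne]
  have h7 : ‖e * (1 / ((⟨1 - η, t⟩ : ℂ) - 1))‖ ≤ 1 / η := by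
    rcases he with he | he
    · rw [he, zero_mul, norm_zero]; positivity
    · rw [he, one_mul, norm_div, norm_one]
      apply one_div_le_one_div_of_le hη
      have := abs_re_le_norm ((⟨1 - η, t⟩ : ℂ) - 1)
      simp only [sub_re, one_re] at this
      rw [abs_sub_comm, abs_of_nonneg (by linarith)] at this
      linarith
  calc _ ≤ ‖h ⟨1 - η, t⟩‖ + ‖e * (1 / ((⟨1 - η, t⟩ : ℂ) - 1))‖ := norm_add_le _ _
    _ ≤ Real.exp 1 * (32 + (Z + 1 / η)) * P ^ (4 * η) + 1 / η * P ^ (4 * η) := by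
      apply add_le_add hmain
      refine h7.trans ?_
      have : 0 ≤ 1 / η := by positivity
      nlinarith
    _ = _ := by ring

end H429.GP
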