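import Pool.Agent.H429R2.GP.Dir

/-!
The factor of the functional equation.
-/

open Complex Filter Topology Set Metric MeasureTheory

namespace H429.GP

open H370.DL

variable {q : ℕ} [NeZero q] {χ : DirichletCharacter ℂ q}

theorem analyticAt_Gammaℝ_of_pos {s : ℂ} (hs : 0 < s.re) : AnalyticAt ℂ Gammaℝ s := by
  have h1 : AnalyticAt ℂ (fun s ↦ (Gammaℝ s)⁻¹) s := by
    rw [analyticAt_iff_eventually_differentiableAt]
    exact Filter.Eventually.of_forall fun z => differentiable_Gammaℝ_inv z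
  have h2 := h1.inv (inv_ne_zero (Gammaℝ_ne_zero_of_re_pos hs))
  simpa [Pi.inv_def] using h2

theorem aa_re : (aa χ).re = 0 ∨ (aa χ).re = 1 := by
  unfold aa
  split_ifs <;> simp

theorem aa_re_nonneg : 0 ≤ (aa χ).re := by
  rcases aa_re (χ := χ) with h | h <;> rw [h] <;> norm_num

theorem aa_re_le : (aa χ).re ≤ 1 := by
  rcases aa_re (χ := χ) with h | h <;> rw [h] <;> norm_num

theorem aa_conj : (starRingEnd ℂ) (aa χ) = aa χ := by
  unfold aa
  split_ifs <;> simp

theorem analyticAt_XX' {s : ℂ} (h0 : 0 < s.re) (h1 : s.re < 1) : AnalyticAt ℂ (XX χ) s := by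
  have ha := aa_re_nonneg (χ := χ)
  have h1 : AnalyticAt ℂ (fun z : ℂ => Gammaℝ (z + aa χ)) s :=
    AnalyticAt.fun_comp (f := fun z : ℂ => z + aa χ) (g := Gammaℝ)
      (analyticAt_Gammaℝ_of_pos (by rw [add_re]; linarith)) (by fun_prop)
  have h2 : AnalyticAt ℂ (fun z : ℂ => Gammaℝ (1 - z + aa χ)) s :=
    AnalyticAt.fun_comp (f := fun z : ℂ => 1 - z + aa χ) (g := Gammaℝ)
      (analyticAt_Gammaℝ_of_pos (by rw [add_re, sub_re, one_re]; linarith)) (by fun_prop)
  have h3 : AnalyticAt ℂ (fun z : ℂ => (q : ℂ) ^ (1 / 2 - z)) s := by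
    rw [analyticAt_iff_eventually_differentiableAt]
    refine Filter.Eventually.of_forall fun z => ?_
    exact DifferentiableAt.const_cpow (by fun_prop) (Or.inl natCast_q_ne)
  exact ((h3.mul analyticAt_const).mul h2).div h1
    (Gammaℝ_ne_zero_of_re_pos (by rw [add_re]; linarith))

theorem Gammaℝ_conj (s : ℂ) : Gammaℝ ((starRingEnd ℂ) s) = (starRingEnd ℂ) (Gammaℝ s) := by
  have h2 : (starRingEnd ℂ) (2 : ℂ) = 2 := by
    have := conj_natCast 2
    simpa using this
  rw [Gammaℝ_def, Gammaℝ_def, map_mul, ← Gamma_conj]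
  congr 1
  · have h := cpow_conj (Real.pi : ℂ) (-s / 2)
      (by rw [arg_ofReal_of_nonneg Real.pi_pos.le]; exact Real.pi_pos.ne)
    rw [conj_ofReal] at h
    rw [← h]
    congr 1
    rw [map_div₀, map_neg, h2]
  · congr 1
    rw [map_div₀, h2]

theorem norm_rootNumber (hχ : χ.IsPrimitive) : ‖DirichletCharacter.rootNumber χ‖ = 1 := by
  set s : ℂ := 2 + I with hs
  have him : s.im ≠ 0 := by simp [hs]
  set s' : ℂ := 1 - (starRingEnd ℂ) s with hs'
  have him' : s'.im ≠ 0 := by simp [hs', hs]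
  have h1 := func_eq hχ him
  have h2 := func_eq hχ him'
  have hne : DirichletCharacter.LFunction χ s ≠ 0 := L_nzr (by simp [hs]) him
  have h3 : H370.DL.refl (DirichletCharacter.LFunction χ) s =
      (starRingEnd ℂ) (DirichletCharacter.LFunction χ s') := rfl
  have h4 : H370.DL.refl (DirichletCharacter.LFunction χ) s' =
      (starRingEnd ℂ) (DirichletCharacter.LFunction χ s) := by
    unfold H370.DL.refl
    rw [hs', one_sub_conj_invol]
  rw [h4] at h2
  rw [h3, h2, map_mul, Complex.conj_conj, ← mul_assoc] at h1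
  have h5 : XX χ s * (starRingEnd ℂ) (XX χ s') = 1 := by
    have h6 := mul_right_cancel₀ hne (h1.symm.trans (one_mul _).symm)
    exact h6
  have hg1 : Gammaℝ (s + aa χ) ≠ 0 := Gammaℝ_ne_zero_of_im (by simpa [aa_im] using him)
  have hg2 : Gammaℝ (1 - s + aa χ) ≠ 0 := Gammaℝ_ne_zero_of_im (by simpa [aa_im] using him)
  have e1 : (starRingEnd ℂ) (Gammaℝ (1 - s' + aa χ)) = Gammaℝ (s + aa χ) := by
    rw [← Gammaℝ_conj]
    congr 1
    simp only [hs', map_add, map_sub, map_one, Complex.conj_conj, aa_conj]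
    ring
  have e2 : (starRingEnd ℂ) (Gammaℝ (s' + aa χ)) = Gammaℝ (1 - s + aa χ) := by
    rw [← Gammaℝ_conj]
    congr 1
    simp only [hs', map_add, map_sub, map_one, Complex.conj_conj, aa_conj]
  have e3 : (starRingEnd ℂ) ((q : ℂ) ^ (1 / 2 - s')) = (q : ℂ) ^ (-(1 / 2 - s)) := by
    have h := cpow_conj (q : ℂ) (1 / 2 - s') (by rw [natCast_arg]; exact Real.pi_pos.ne)
    rw [conj_natCast] at h
    rw [← h]
    congr 1
    simp only [hs', map_sub, map_one, Complex.conj_conj, map_div₀]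
    have : (starRingEnd ℂ) 2 = 2 := by
      have := conj_natCast 2
      simpa using this
    rw [this]
    ring
  unfold XX at h5
  rw [map_div₀, map_mul, map_mul, e1, e2, e3, cpow_neg] at h5
  have hq : (q : ℂ) ^ (1 / 2 - s) ≠ 0 := by
    rw [Ne, cpow_eq_zero_iff]
    exact fun h => natCast_q_ne h.1
  have h7 : DirichletCharacter.rootNumber χ * (starRingEnd ℂ) (DirichletCharacter.rootNumber χ)
      = 1 := by
    rw [← h5]
    generalize (q : ℂ) ^ (1 / 2 - s) = w at hq ⊢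
    field_simp
  rw [mul_conj, normSq_eq_norm_sq] at h7
  have h8 : ‖DirichletCharacter.rootNumber χ‖ ^ 2 = 1 := by exact_mod_cast h7
  have h9 := norm_nonneg (DirichletCharacter.rootNumber χ)
  nlinarith

theorem norm_XX_line (hχ : χ.IsPrimitive) (y : ℝ) : ‖XX χ ⟨1 / 2, y⟩‖ = 1 := by
  unfold XX
  rw [norm_div, norm_mul, norm_mul, norm_rootNumber hχ, mul_one]
  have h1 : (1 : ℂ) - ⟨1 / 2, y⟩ + aa χ = (starRingEnd ℂ) (⟨1 / 2, y⟩ + aa χ) := by
    rw [map_add, aa_conj]
    congr 1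
    apply Complex.ext <;> simp
    norm_num
  rw [h1, Gammaℝ_conj, RCLike.norm_conj]
  have h2 : ‖(q : ℂ) ^ ((1 : ℂ) / 2 - ⟨1 / 2, y⟩)‖ = 1 := by
    rw [norm_natCast_cpow_of_pos (NeZero.pos q)]
    have : ((1 : ℂ) / 2 - ⟨1 / 2, y⟩).re = 0 := by
      simp
    rw [this, Real.rpow_zero]
  rw [h2, one_mul, div_self]
  rw [norm_ne_zero_iff]
  apply Gammaℝ_ne_zero_of_re_pos
  have := aa_re_nonneg (χ := χ)
  rw [add_re]
  simp
  linarith

/-- functional equation on the critical line -/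
theorem func_line (hχ : χ.IsPrimitive) (y : ℝ) :
    DirichletCharacter.LFunction χ ⟨1 / 2, y⟩ =
      XX χ ⟨1 / 2, y⟩ * (starRingEnd ℂ) (DirichletCharacter.LFunction χ ⟨1 / 2, y⟩) := by
  have hoff : ∀ y : ℝ, y ≠ 0 → DirichletCharacter.LFunction χ ⟨1 / 2, y⟩ =
      XX χ ⟨1 / 2, y⟩ * (starRingEnd ℂ) (DirichletCharacter.LFunction χ ⟨1 / 2, y⟩) := by
    intro y hy
    have h := func_eq hχ (s := ⟨1 / 2, y⟩) hy
    have h2 : (1 : ℂ) - (starRingEnd ℂ) ⟨1 / 2, y⟩ = ⟨1 / 2, y⟩ := by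
      apply Complex.ext <;> simp
      norm_num
    rw [H370.DL.refl, h2] at h
    exact h
  rcases eq_or_ne y 0 with hy | hy
  · -- by continuity
    have hc : Continuous (fun y : ℝ => (⟨1 / 2, y⟩ : ℂ)) := by
      have : (fun y : ℝ => (⟨1 / 2, y⟩ : ℂ)) = fun y : ℝ => (1 / 2 : ℂ) + y * I := by
        funext y
        apply Complex.ext <;> simp
      rw [this]
      fun_prop
    have hne : ∀ y : ℝ, (⟨1 / 2, y⟩ : ℂ) ≠ 1 := by
      intro y h
      have := congrArg re h
      norm_num at this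
    have hcL : Continuous (fun y : ℝ => DirichletCharacter.LFunction χ ⟨1 / 2, y⟩) := by
      rw [continuous_iff_continuousAt]
      intro y
      exact ContinuousAt.comp (g := DirichletCharacter.LFunction χ)
        (f := fun y : ℝ => (⟨1 / 2, y⟩ : ℂ)) (analyticAt_L (hne y)).continuousAt hc.continuousAt
    have hcX : Continuous (fun y : ℝ => XX χ ⟨1 / 2, y⟩) := by
      rw [continuous_iff_continuousAt]
      intro y
      exact ContinuousAt.comp (g := XX χ)
        (f := fun y : ℝ => (⟨1 / 2, y⟩ : ℂ))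
        (analyticAt_XX' (by norm_num) (by norm_num)).continuousAt hc.continuousAt
    have hcl : IsClosed {y : ℝ | DirichletCharacter.LFunction χ ⟨1 / 2, y⟩ =
      XX χ ⟨1 / 2, y⟩ * (starRingEnd ℂ) (DirichletCharacter.LFunction χ ⟨1 / 2, y⟩)} :=
      isClosed_eq hcL (hcX.mul (continuous_conj.comp hcL))
    have hd : Dense ({0}ᶜ : Set ℝ) := dense_compl_singleton 0
    have hsub : ({0}ᶜ : Set ℝ) ⊆ {y : ℝ | DirichletCharacter.LFunction χ ⟨1 / 2, y⟩ =
      XX χ ⟨1 / 2, y⟩ * (starRingEnd ℂ) (DirichletCharacter.LFunction χ ⟨1 / 2, y⟩)} :=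
      fun y hy => hoff y hy
    have := closure_minimal hsub hcl
    rw [hd.closure_eq] at this
    exact this (mem_univ y)
  · exact hoff y hy

end H429.GP
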