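import Pool.Agent.H429R2.GP.Core

/-!
A two-constants estimate for functions with positive real part, and the local bound.
-/

open Complex Filter Topology Set Metric

namespace H429.GP

theorem two_const {F : ℂ → ℂ} {x0 a y0 K d : ℝ} (ha : 0 < a) (ha' : a ≤ 1 / 2) (hK : 0 < K)
    (hd : 0 < d) (hda : d < a)
    (hF : DiffContOnCl ℂ F (Ioo x0 (x0 + a) ×ℂ Ioo (y0 - 1) (y0 + 1)))
    (hre : ∀ z ∈ Icc x0 (x0 + a) ×ℂ Icc (y0 - 1) (y0 + 1), 0 ≤ (F z).re)
    (hright : ∀ z ∈ Icc x0 (x0 + a) ×ℂ Icc (y0 - 1) (y0 + 1), z.re = x0 + a →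
      ‖F z‖ ≤ 3 * K ∧ K ≤ (F z).re) :
    ‖F (⟨x0 + d, y0⟩ : ℂ)‖ ≤ 2 * K * (1 + 11 * a / d) := by
  set R : Set ℂ := Ioo x0 (x0 + a) ×ℂ Ioo (y0 - 1) (y0 + 1) with hR
  have hcl : closure R = Icc x0 (x0 + a) ×ℂ Icc (y0 - 1) (y0 + 1) := by
    rw [hR, closure_reProdIm, closure_Ioo (by linarith), closure_Ioo (by linarith)]
  have hfrR : frontier R ⊆ closure R := frontier_subset_closure
  have hbd : Bornology.IsBounded R := by
    rw [hR]
    exact (isBounded_Ioo _ _).reProdIm (isBounded_Ioo _ _)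
  set κ : ℝ := 3 / 8 * Real.log (4 / 3) with hκ
  have hlog : 1 / 4 ≤ Real.log (4 / 3) := by
    have := Real.one_sub_inv_le_log_of_pos (by norm_num : (0 : ℝ) < 4 / 3)
    norm_num at this ⊢
    linarith
  have hκ1 : 1 / 11 ≤ κ := by rw [hκ]; linarith
  set E : ℂ → ℂ := fun z => (z - (⟨x0, y0⟩ : ℂ)) / a + 4 / 3 * (z - (⟨x0, y0⟩ : ℂ)) ^ 2 with hE
  have hEre : ∀ z : ℂ, (E z).re = (z.re - x0) / a +
      4 / 3 * ((z.re - x0) ^ 2 - (z.im - y0) ^ 2) := by
    intro z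
    simp only [hE, add_re]
    congr 1
    · rw [div_ofReal_re]
      simp
    · have : (4 / 3 : ℂ) = ((4 / 3 : ℝ) : ℂ) := by push_cast; rfl
      rw [this, re_ofReal_mul, sq, mul_re]
      simp only [sub_re, sub_im]
      ring
  have hne : ∀ z ∈ closure R, F z + K ≠ 0 := by
    intro z hz h
    rw [hcl] at hz
    have h1 := hre z hz
    have h2 := congrArg re h
    simp at h2
    linarith
  set G : ℂ → ℂ := fun z => (F z - K) * (F z + K)⁻¹ with hG
  have hGd : DiffContOnCl ℂ G R :=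
    (hF.sub diffContOnCl_const).smul ((hF.add diffContOnCl_const).inv hne)
  set H : ℂ → ℂ := fun z => G z * cexp (κ * E z) with hH
  have hEd : Differentiable ℂ E := by
    rw [hE]; fun_prop
  have hHd : DiffContOnCl ℂ H R := by
    have h1 : Differentiable ℂ (fun z => cexp (κ * E z)) := by fun_prop
    exact hGd.smul h1.diffContOnCl
  have hGnorm : ∀ z ∈ closure R, ‖G z‖ ≤ 1 := by
    intro z hz
    have h1 := hne z hz
    rw [hcl] at hz
    have h2 := hre z hz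
    simp only [hG]
    rw [norm_mul, norm_inv, ← div_eq_mul_inv, div_le_one (norm_pos_iff.mpr h1)]
    rw [← sq_le_sq₀ (norm_nonneg _) (norm_nonneg _), ← normSq_eq_norm_sq, ← normSq_eq_norm_sq,
      normSq_apply, normSq_apply]
    simp only [sub_re, add_re, ofReal_re, sub_im, add_im, ofReal_im]
    nlinarith [mul_nonneg h2 hK.le]
  have hGright : ∀ z ∈ closure R, z.re = x0 + a → ‖G z‖ ^ 2 ≤ 3 / 4 := by
    intro z hz hzr
    have h1 := hne z hz
    rw [hcl] at hz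
    obtain ⟨h3, h4⟩ := hright z hz hzr
    simp only [hG]
    rw [norm_mul, norm_inv, ← div_eq_mul_inv, div_pow, div_le_iff₀ (by positivity)]
    have h5 : ‖F z‖ ^ 2 ≤ (3 * K) ^ 2 := by gcongr
    rw [← normSq_eq_norm_sq, normSq_apply] at h5
    rw [← normSq_eq_norm_sq, ← normSq_eq_norm_sq, normSq_apply, normSq_apply]
    simp only [sub_re, add_re, ofReal_re, sub_im, add_im, ofReal_im]
    have h6 : K * K ≤ (F z).re * K := mul_le_mul_of_nonneg_right h4 hK.le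
    have h7 : (F z).re ≤ 3 * K := ((abs_le.mp (abs_re_le_norm (F z))).2).trans h3
    have h8 : (F z).re * K ≤ 3 * K * K := mul_le_mul_of_nonneg_right h7 hK.le
    nlinarith
  have hHfr : ∀ z ∈ frontier R, ‖H z‖ ≤ 1 := by
    intro z hz
    have hzc := hfrR hz
    have hzc' := hzc
    rw [hcl, mem_reProdIm] at hzc'
    obtain ⟨⟨hx1, hx2⟩, ⟨hy1, hy2⟩⟩ := hzc'
    have hnr : z ∉ R := by
      have hRo : IsOpen R := isOpen_Ioo.reProdIm isOpen_Ioo
      rw [hRo.frontier_eq] at hz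
      exact hz.2
    have hHn : ‖H z‖ = ‖G z‖ * Real.exp (κ * (E z).re) := by
      simp only [hH]
      rw [norm_mul, norm_exp, re_ofReal_mul]
    have hκ0 : 0 < κ := by linarith
    have hG1 := hGnorm z hzc
    by_cases hxr : z.re = x0 + a
    · have h1 := hGright z hzc hxr
      have h2 : (E z).re ≤ 4 / 3 := by
        rw [hEre, hxr]
        have : (x0 + a - x0) / a = 1 := by field_simp; ring
        rw [this]
        nlinarith [sq_nonneg (z.im - y0)]
      have h3 : Real.exp (κ * (E z).re) ≤ Real.exp (κ * (4 / 3)) :=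
        Real.exp_le_exp.mpr (mul_le_mul_of_nonneg_left h2 hκ0.le)
      have h4 : Real.exp (κ * (4 / 3)) ^ 2 = 4 / 3 := by
        rw [← Real.exp_nat_mul, hκ]
        have : ((2 : ℕ) : ℝ) * (3 / 8 * Real.log (4 / 3) * (4 / 3)) = Real.log (4 / 3) := by
          push_cast; ring
        rw [this, Real.exp_log (by norm_num)]
      rw [hHn]
      have h5 : ‖G z‖ * Real.exp (κ * (E z).re) ≤ ‖G z‖ * Real.exp (κ * (4 / 3)) :=
        mul_le_mul_of_nonneg_left h3 (norm_nonneg _)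
      have h6 : (‖G z‖ * Real.exp (κ * (4 / 3))) ^ 2 ≤ 1 := by
        rw [mul_pow, h4]
        nlinarith
      have h7 : ‖G z‖ * Real.exp (κ * (4 / 3)) ≤ 1 := by
        rw [← abs_of_nonneg (by positivity : 0 ≤ ‖G z‖ * Real.exp (κ * (4 / 3)))]
        exact abs_le_one_iff_mul_self_le_one.mpr (by rw [← sq]; exact h6)
      exact h5.trans h7
    · have h2 : (E z).re ≤ 0 := by
        rw [hEre]
        by_cases hxl : z.re = x0
        · rw [hxl]
          have : (x0 - x0) / a = 0 := by simp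
          rw [this]
          nlinarith [sq_nonneg (z.im - y0)]
        · have hx1' : x0 < z.re := lt_of_le_of_ne hx1 (Ne.symm hxl)
          have hx2' : z.re < x0 + a := lt_of_le_of_ne hx2 hxr
          have hy : ¬ (y0 - 1 < z.im ∧ z.im < y0 + 1) := by
            intro h
            exact hnr ⟨⟨hx1', hx2'⟩, h⟩
          have hy2 : (z.im - y0) ^ 2 = 1 := by
            rcases eq_or_lt_of_le hy1 with h | h
            · rw [← h]; ring
            · rcases eq_or_lt_of_le hy2 with h' | h'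
              · rw [h']; ring
              · exact absurd ⟨h, h'⟩ hy
          rw [hy2]
          have h3 : (z.re - x0) / a ≤ 1 := by
            rw [div_le_one ha]; linarith
          have h4 : (z.re - x0) ^ 2 ≤ 1 / 4 := by nlinarith
          linarith
      rw [hHn]
      have h3 : Real.exp (κ * (E z).re) ≤ 1 := by
        rw [Real.exp_le_one_iff]
        nlinarith
      calc _ ≤ (1 : ℝ) * 1 := mul_le_mul hG1 h3 (Real.exp_pos _).le zero_le_one
        _ = 1 := one_mul 1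
  set p : ℂ := ⟨x0 + d, y0⟩ with hp
  have hpR : p ∈ closure R := by
    rw [hcl, mem_reProdIm]
    exact ⟨⟨by simp [hp]; linarith, by simp [hp]; linarith⟩, ⟨by simp [hp], by simp [hp]⟩⟩
  have hHp := norm_le_of_forall_mem_frontier_norm_le hbd hHd hHfr hpR
  have hEp : d / a ≤ (E p).re := by
    rw [hEre]
    simp only [hp]
    have : (x0 + d - x0) / a = d / a := by ring_nf
    rw [this]
    nlinarith [sq_nonneg (x0 + d - x0)]
  set u : ℝ := κ * (d / a) with hu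
  have hu0 : 0 < u := by positivity
  have hGp : ‖G p‖ ≤ Real.exp (-u) := by
    have h1 : ‖H p‖ = ‖G p‖ * Real.exp (κ * (E p).re) := by
      simp only [hH]
      rw [norm_mul, norm_exp, re_ofReal_mul]
    rw [h1] at hHp
    have h2 : Real.exp u ≤ Real.exp (κ * (E p).re) :=
      Real.exp_le_exp.mpr (mul_le_mul_of_nonneg_left hEp (by linarith))
    have h3 : ‖G p‖ * Real.exp u ≤ 1 :=
      (mul_le_mul_of_nonneg_left h2 (norm_nonneg _)).trans hHp
    rw [Real.exp_neg, ← one_div, le_div_iff₀ (Real.exp_pos _)]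
    exact h3
  have hexp : Real.exp (-u) ≤ 1 / (1 + u) := by
    rw [Real.exp_neg, ← one_div]
    apply one_div_le_one_div_of_le (by linarith)
    linarith [Real.add_one_le_exp u]
  have hGp2 : ‖G p‖ ≤ 1 / (1 + u) := hGp.trans hexp
  have hFG : F p * (1 - G p) = K * (1 + G p) := by
    have h1 : G p * (F p + K) = F p - K := by
      simp only [hG]
      rw [mul_assoc, inv_mul_cancel₀ (hne p hpR), mul_one]
    linear_combination -h1
  have h1G : u / (1 + u) ≤ ‖1 - G p‖ := by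
    have h1 : ‖(1 : ℂ)‖ - ‖G p‖ ≤ ‖1 - G p‖ := norm_sub_norm_le _ _
    rw [norm_one] at h1
    have h2 : u / (1 + u) = 1 - 1 / (1 + u) := by field_simp; ring
    rw [h2]
    linarith
  have h2G : ‖1 + G p‖ ≤ 2 := by
    refine (norm_add_le _ _).trans ?_
    rw [norm_one]
    linarith [hGnorm p hpR]
  have h3 : ‖F p‖ * (u / (1 + u)) ≤ 2 * K := by
    calc ‖F p‖ * (u / (1 + u)) ≤ ‖F p‖ * ‖1 - G p‖ :=
          mul_le_mul_of_nonneg_left h1G (norm_nonneg _)
      _ = ‖(K : ℂ) * (1 + G p)‖ := by rw [← norm_mul, hFG]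
      _ = K * ‖1 + G p‖ := by rw [norm_mul, norm_real, Real.norm_eq_abs, abs_of_pos hK]
      _ ≤ K * 2 := mul_le_mul_of_nonneg_left h2G hK.le
      _ = _ := by ring
  have h4 : ‖F p‖ ≤ 2 * K * ((1 + u) / u) := by
    rw [← div_le_iff₀ (by positivity)]
    calc _ = ‖F p‖ * (u / (1 + u)) := by field_simp
      _ ≤ _ := h3
  refine h4.trans (mul_le_mul_of_nonneg_left ?_ (by positivity))
  have h5 : (1 + u) / u = 1 + a / (κ * d) := by
    rw [hu]; field_simp; ring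
  rw [h5]
  have h6 : a / (κ * d) ≤ 11 * a / d := by
    rw [div_le_div_iff₀ (by positivity) hd]
    have : 1 ≤ 11 * κ := by linarith
    nlinarith [mul_pos ha hd]
  linarith

/-- the local bound near the reflecting boundary -/
theorem local_bound {U A D : Set ℂ} (hU : IsOpen U) (hA : IsClosed A) (hAU : A ⊆ closure U)
    (hfr : frontier U ⊆ A ∪ D) {f g X : ℂ → ℂ}
    (hf : DiffContOnCl ℂ f U) (hg : DiffContOnCl ℂ g U) (hX : DiffContOnCl ℂ X U)
    (hX1 : ∀ z ∈ U, ‖X z‖ < 1) (hXA : ∀ z ∈ A, ‖X z‖ = 1)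
    (hfA : ∀ z ∈ A, f z = X z * (starRingEnd ℂ) (f z))
    (hgA : ∀ z ∈ A, 0 < (g z).re ∧ (g z).im = 0)
    {B F0 G0 c : ℝ} (hB : 0 ≤ B) (hF0 : 0 < F0) (hG0 : 0 ≤ G0) (hc : 0 < c)
    (hpos : ∀ z ∈ A, X z = 1 → 0 ≤ (f z).re + B * (g z).re)
    (hdecay : ∀ ε > 0, ∃ R : ℝ, ∀ z ∈ closure U, R ≤ ‖z‖ → ‖f z‖ ≤ ε ∧ ‖g z‖ ≤ ε)
    (hratio : ∀ ε > 0, ∃ R : ℝ, ∀ z ∈ A, R ≤ ‖z‖ → ‖f z‖ ≤ ε * (g z).re)
    (hD : ∀ z ∈ D, (∀ r : ℝ, 0 ≤ r → r ≤ 1 → c ≤ ‖1 - r * X z‖) ∧ ‖f z‖ ≤ F0 ∧ ‖g z‖ ≤ G0)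
    {b t0 δ : ℝ} (hb : b ≤ 1 / 2) (hδ : 0 < δ) (hδb : δ < b)
    (hrect : ∀ z : ℂ, δ / 2 ≤ z.re → z.re < b → |z.im - t0| ≤ 1 → z ∈ U)
    (hside : ∀ z : ℂ, z.re = b → |z.im - t0| ≤ 1 → z ∈ D ∧ z ∈ closure U ∧ ‖X z‖ < 1) :
    ‖f ⟨δ, t0⟩‖ ≤ 52 * ((F0 + 2 * B * G0) / c) / δ + B * ‖g ⟨δ, t0⟩‖ := by
  set K : ℝ := (F0 + 2 * B * G0) / c with hK
  have hK0 : 0 < K := by rw [hK]; positivity
  have hcore : ∀ z ∈ U, -K ≤ (Mr f g X B 1 z).re := fun z hz =>
    core hU hA hAU hfr hf hg hX hX1 hXA hfA hgA hB hF0.le hG0 hc hpos hdecay hratio hD hz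
  have hsideM : ∀ z : ℂ, z.re = b → |z.im - t0| ≤ 1 → ‖Mr f g X B 1 z‖ ≤ K := by
    intro z hz1 hz2
    obtain ⟨h1, h2, h3⟩ := hside z hz1 hz2
    have h4 := hD z h1
    refine (norm_Mr_le hB zero_le_one le_rfl h3.le hc (h4.1 1 zero_le_one le_rfl)).trans ?_
    rw [hK]
    gcongr
    · exact h4.2.1
    · exact h4.2.2
  set R : Set ℂ := Ioo (δ / 2) (δ / 2 + (b - δ / 2)) ×ℂ Ioo (t0 - 1) (t0 + 1) with hR
  have hcl : closure R = Icc (δ / 2) (δ / 2 + (b - δ / 2)) ×ℂ Icc (t0 - 1) (t0 + 1) := by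
    rw [hR, closure_reProdIm, closure_Ioo (by linarith), closure_Ioo (by linarith)]
  have hRU : R ⊆ U := by
    intro z hz
    rw [hR, mem_reProdIm] at hz
    obtain ⟨⟨h1, h2⟩, ⟨h3, h4⟩⟩ := hz
    exact hrect z h1.le (by linarith) (by rw [abs_le]; constructor <;> linarith)
  have hXcl : ∀ z ∈ closure R, ‖X z‖ < 1 := by
    intro z hz
    rw [hcl, mem_reProdIm] at hz
    obtain ⟨⟨h1, h2⟩, ⟨h3, h4⟩⟩ := hz
    have h5 : |z.im - t0| ≤ 1 := by rw [abs_le]; constructor <;> linarith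
    rcases lt_or_ge z.re b with h | h
    · exact hX1 z (hrect z h1 h h5)
    · exact (hside z (by linarith) h5).2.2
  have hne : ∀ z ∈ closure R, (1 : ℂ) - (1 : ℝ) * X z ≠ 0 := by
    intro z hz h
    have h1 : X z = 1 := by
      have := sub_eq_zero.mp h
      simpa using this.symm
    have := hXcl z hz
    rw [h1] at this
    simp at this
  have hfR := hf.mono hRU
  have hgR := hg.mono hRU
  have hXR := hX.mono hRU
  have hden : DiffContOnCl ℂ (fun w => (1 : ℂ) - (1 : ℝ) * X w) R :=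
    diffContOnCl_const.sub (hXR.const_smul ((1 : ℝ) : ℂ))
  have hdenInv : DiffContOnCl ℂ (fun w => ((1 : ℂ) - (1 : ℝ) * X w)⁻¹) R := hden.inv hne
  have hnum : DiffContOnCl ℂ (fun w => (1 : ℂ) + (1 : ℝ) * X w) R :=
    diffContOnCl_const.add (hXR.const_smul ((1 : ℝ) : ℂ))
  have hM : DiffContOnCl ℂ (Mr f g X B 1) R := by
    have h1 : DiffContOnCl ℂ (fun w => f w * ((1 : ℂ) - (1 : ℝ) * X w)⁻¹) R := hfR.smul hdenInv
    have h2 : DiffContOnCl ℂ (fun w => g w * ((1 : ℂ) + (1 : ℝ) * X w)) R := hgR.smul hnum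
    have h3 : DiffContOnCl ℂ
        (fun w => (g w * ((1 : ℂ) + (1 : ℝ) * X w)) * ((1 : ℂ) - (1 : ℝ) * X w)⁻¹) R :=
      h2.smul hdenInv
    have h4 := h1.add (h3.const_smul ((B / (1 + 1) : ℝ) : ℂ))
    have h5 : Mr f g X B 1 = (fun w => f w * ((1 : ℂ) - (1 : ℝ) * X w)⁻¹) +
        ((B / (1 + 1) : ℝ) : ℂ) • (fun w => (g w * ((1 : ℂ) + (1 : ℝ) * X w)) *
          ((1 : ℂ) - (1 : ℝ) * X w)⁻¹) := by
      funext w
      simp only [Mr, Pi.add_apply, Pi.smul_apply, smul_eq_mul, div_eq_mul_inv]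
    rw [h5]
    exact h4
  have hFd : DiffContOnCl ℂ (fun z => Mr f g X B 1 z + ((2 * K : ℝ) : ℂ)) R :=
    hM.add diffContOnCl_const
  have hreK : ∀ z ∈ Icc (δ / 2) (δ / 2 + (b - δ / 2)) ×ℂ Icc (t0 - 1) (t0 + 1),
      K ≤ (Mr f g X B 1 z + ((2 * K : ℝ) : ℂ)).re := by
    intro z hz
    rw [mem_reProdIm] at hz
    obtain ⟨⟨h1, h2⟩, ⟨h3, h4⟩⟩ := hz
    have h5 : |z.im - t0| ≤ 1 := by rw [abs_le]; constructor <;> linarith
    rw [add_re, ofReal_re]
    rcases lt_or_ge z.re b with h | h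
    · have := hcore z (hrect z h1 h h5)
      linarith
    · have h6 := hsideM z (by linarith) h5
      have h7 := (abs_le.mp (abs_re_le_norm (Mr f g X B 1 z))).1
      linarith
  have htc := two_const (F := fun z => Mr f g X B 1 z + ((2 * K : ℝ) : ℂ)) (x0 := δ / 2)
    (a := b - δ / 2) (y0 := t0) (K := K) (d := δ / 2) (by linarith) (by linarith) hK0
    (by linarith) (by linarith) hFd
    (fun z hz => (hK0.le).trans (hreK z hz))
    (by
      intro z hz hzr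
      refine ⟨?_, hreK z hz⟩
      rw [mem_reProdIm] at hz
      obtain ⟨⟨h1, h2⟩, ⟨h3, h4⟩⟩ := hz
      have h5 : |z.im - t0| ≤ 1 := by rw [abs_le]; constructor <;> linarith
      refine (norm_add_le _ _).trans ?_
      rw [norm_real, Real.norm_eq_abs, abs_of_pos (by linarith)]
      have := hsideM z (by linarith) h5
      linarith)
  have hp : (⟨δ / 2 + δ / 2, t0⟩ : ℂ) = ⟨δ, t0⟩ := by
    congr 1
    ring
  rw [hp] at htc
  set p : ℂ := ⟨δ, t0⟩ with hpdef
  have hpU : p ∈ U := hrect p (by simp [hpdef]; linarith) (by simpa [hpdef] using hδb)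
    (by simp [hpdef])
  have hMp : ‖Mr f g X B 1 p‖ ≤ 2 * K * (1 + 11 * (b - δ / 2) / (δ / 2)) + 2 * K := by
    have h1 : Mr f g X B 1 p = (Mr f g X B 1 p + ((2 * K : ℝ) : ℂ)) - ((2 * K : ℝ) : ℂ) := by ring
    rw [h1]
    refine (norm_sub_le _ _).trans (add_le_add htc ?_)
    rw [norm_real, Real.norm_eq_abs, abs_of_pos (by linarith)]
  have hMp2 : ‖Mr f g X B 1 p‖ ≤ 26 * K / δ := by
    refine hMp.trans ?_
    rw [le_div_iff₀ hδ]
    have h1 : (2 * K * (1 + 11 * (b - δ / 2) / (δ / 2)) + 2 * K) * δ =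
        4 * K * δ + 44 * K * (b - δ / 2) := by
      field_simp
      ring
    rw [h1]
    nlinarith
  have hX1p := hX1 p hpU
  have hne1 : (1 : ℂ) - X p ≠ 0 := by
    intro h
    have h1 : X p = 1 := (sub_eq_zero.mp h).symm
    rw [h1] at hX1p
    simp at hX1p
  have hfp : f p = (1 - X p) * Mr f g X B 1 p - ((B / 2 : ℝ) : ℂ) * (g p * (1 + X p)) := by
    unfold Mr
    push_cast
    have h2 : (1 : ℂ) - 1 * X p ≠ 0 := by rwa [one_mul]
    field_simp
    ring
  rw [hfp]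
  refine (norm_sub_le _ _).trans ?_
  have h1 : ‖(1 - X p) * Mr f g X B 1 p‖ ≤ 52 * K / δ := by
    rw [norm_mul]
    have h2 : ‖1 - X p‖ ≤ 2 := by
      refine (norm_sub_le _ _).trans ?_
      rw [norm_one]
      linarith
    calc _ ≤ 2 * (26 * K / δ) := mul_le_mul h2 hMp2 (norm_nonneg _) (by norm_num)
      _ = _ := by ring
  have h2 : ‖((B / 2 : ℝ) : ℂ) * (g p * (1 + X p))‖ ≤ B * ‖g p‖ := by
    rw [norm_mul, norm_mul, norm_real, Real.norm_eq_abs, abs_of_nonneg (by positivity)]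
    have h3 : ‖1 + X p‖ ≤ 2 := by
      refine (norm_add_le _ _).trans ?_
      rw [norm_one]
      linarith
    calc _ ≤ B / 2 * (‖g p‖ * 2) := by gcongr
      _ = _ := by ring
  linarith

end H429.GP
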