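import Pool.Agent.H429R2.GP.App

/-!
The bottom edges for characters of small conductor.
-/

open Complex Filter Topology Set Metric MeasureTheory

namespace H429.GP

open H370.DL

/-- lower bound for `|1 - r w² X|` on the horizontal edge at height `s * y1` -/
def BotOK (q : ℕ) [NeZero q] (χ : DirichletCharacter ℂ q) (ω : ℂ) (b s y1 c : ℝ) : Prop :=
  ∀ x y r : ℝ, 0 ≤ x → x ≤ b → s * y = y1 → 0 ≤ r → r ≤ 1 →
      c ≤ ‖1 - r * ((starRingEnd ℂ) ω ^ 2 * XX χ ⟨1 / 2 + x, y⟩)‖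

theorem continuous_mk (x : ℝ) : Continuous (fun y : ℝ => (⟨x, y⟩ : ℂ)) := by
  have : (fun y : ℝ => (⟨x, y⟩ : ℂ)) = fun y : ℝ => (x : ℂ) + y * I := by
    funext y
    apply Complex.ext <;> simp
  rw [this]
  fun_prop

theorem exists_height {q : ℕ} [NeZero q] {χ : DirichletCharacter ℂ q} {η : ℝ} (hη : 0 < η)
    (hη8 : η ≤ 1 / 8) {cX : ℝ} (hcX0 : 0 ≤ cX)
    (hcX : ∀ x y : ℝ, 0 ≤ x → x ≤ 1 / 2 - η →
      ‖XX χ ⟨1 / 2 + x, y⟩‖ ≤ Real.exp (-x * (Real.log (q * (1 + |y|)) - cX)))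
    {ω : ℂ} (hω : ‖ω‖ = 1) {s : ℝ} (hs : s = 1 ∨ s = -1) {Q : ℝ} (hQ : Real.exp (cX + 1) ≤ Q) :
    ∃ y1 : ℝ, Q ≤ y1 ∧ y1 ≤ Q + 1 ∧ XX χ ⟨1 / 2, s * y1⟩ ≠ ω ^ 2 := by
  by_contra hcon
  push Not at hcon
  have hQ0 : 0 < Q := lt_of_lt_of_le (Real.exp_pos _) hQ
  set Ω : Set ℂ := {z | 0 < z.re ∧ z.re < 1} with hΩ
  have hpre : IsPreconnected Ω := by
    have h1 : Convex ℝ Ω := by
      have h2 : Ω = {z : ℂ | 0 < z.re} ∩ {z : ℂ | z.re < 1} := rfl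
      rw [h2]
      exact (convex_halfSpace_re_gt 0).inter (convex_halfSpace_re_lt 1)
    exact h1.isPreconnected
  have han : AnalyticOnNhd ℂ (XX χ) Ω := fun z hz => analyticAt_XX' hz.1 hz.2
  have hs0 : s ≠ 0 := by rcases hs with h | h <;> rw [h] <;> norm_num
  set z1 : ℂ := ⟨1 / 2, s * (Q + 1 / 2)⟩ with hz1
  have hfreq : ∃ᶠ z in 𝓝[≠] z1, XX χ z = (fun _ => ω ^ 2) z := by
    have ht : Tendsto (fun n : ℕ => (⟨1 / 2, s * (Q + 1 / 2 + 1 / ((n : ℝ) + 2))⟩ : ℂ)) atTop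
        (𝓝[≠] z1) := by
      rw [tendsto_nhdsWithin_iff]
      constructor
      · have h1 : Tendsto (fun n : ℕ => s * (Q + 1 / 2 + 1 / ((n : ℝ) + 2))) atTop
            (𝓝 (s * (Q + 1 / 2 + 0))) := by
          apply Tendsto.const_mul
          apply Tendsto.const_add
          have h2 : Tendsto (fun n : ℕ => (n : ℝ) + 2) atTop atTop :=
            tendsto_atTop_add_const_right _ _ tendsto_natCast_atTop_atTop
          have h3 := h2.inv_tendsto_atTop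
          simp only [one_div]
          exact h3
        rw [add_zero] at h1
        exact ((continuous_mk (1 / 2)).tendsto _).comp h1
      · refine Filter.Eventually.of_forall fun n => ?_
        intro h
        have h2 := congrArg im (show (⟨1 / 2, s * (Q + 1 / 2 + 1 / ((n : ℝ) + 2))⟩ : ℂ) = z1 from h)
        simp only [hz1] at h2
        have h3 := mul_left_cancel₀ hs0 h2
        have h4 : 0 < 1 / ((n : ℝ) + 2) := by positivity
        linarith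
    apply ht.frequently
    apply Filter.Eventually.frequently
    refine Filter.Eventually.of_forall fun n => ?_
    apply hcon
    · have h4 : 0 < 1 / ((n : ℝ) + 2) := by positivity
      linarith
    · have h4 : 1 / ((n : ℝ) + 2) ≤ 1 / 2 := by
        apply one_div_le_one_div_of_le (by norm_num)
        have : (0 : ℝ) ≤ n := Nat.cast_nonneg n
        linarith
      linarith
  have heq := han.eqOn_of_preconnected_of_frequently_eq (g := fun _ => ω ^ 2)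
    (fun z _ => analyticAt_const) hpre (z₀ := z1) ⟨by norm_num [hz1], by norm_num [hz1]⟩ hfreq
  have h1 := heq (x := ⟨1 / 2 + 1 / 4, Q⟩) ⟨by norm_num, by norm_num⟩
  have h2 := hcX (1 / 4) Q (by norm_num) (by linarith)
  rw [h1, norm_pow, hω, one_pow] at h2
  have hq := one_le_q q
  have h3 : cX + 1 ≤ Real.log (q * (1 + |Q|)) := by
    rw [Real.le_log_iff_exp_le (by positivity)]
    rw [abs_of_pos hQ0]
    nlinarith
  have h4 : Real.exp (-(1 / 4) * (Real.log (q * (1 + |Q|)) - cX)) < 1 := by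
    rw [Real.exp_lt_one_iff]
    nlinarith
  linarith

theorem exists_bot {q : ℕ} [NeZero q] {χ : DirichletCharacter ℂ q} (hχ : χ.IsPrimitive)
    {η : ℝ} (hη : 0 < η)
    (hη8 : η ≤ 1 / 8) {cX : ℝ} (hcX0 : 0 ≤ cX)
    (hcX : ∀ x y : ℝ, 0 ≤ x → x ≤ 1 / 2 - η →
      ‖XX χ ⟨1 / 2 + x, y⟩‖ ≤ Real.exp (-x * (Real.log (q * (1 + |y|)) - cX)))
    {ω : ℂ} (hω : ‖ω‖ = 1) {s : ℝ} (hs : s = 1 ∨ s = -1) {Q : ℝ} (hQ : Real.exp (cX + 1) ≤ Q) :
    ∃ y1 : ℝ, Q ≤ y1 ∧ y1 ≤ Q + 1 ∧ ∃ c : ℝ, 0 < c ∧ BotOK q χ ω (1 / 2 - η) s y1 c := by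
  obtain ⟨y1, h1, h2, h3⟩ := exists_height hη hη8 hcX0 hcX hω hs hQ
  have hQ0 : 0 < Q := lt_of_lt_of_le (Real.exp_pos _) hQ
  refine ⟨y1, h1, h2, ?_⟩
  have hss : s * s = 1 := by rcases hs with h | h <;> rw [h] <;> norm_num
  have habs : |s * y1| = y1 := by
    rcases hs with h | h
    · rw [h, one_mul, abs_of_pos (by linarith)]
    · rw [h, neg_one_mul, abs_neg, abs_of_pos (by linarith)]
  have hq := one_le_q q
  have hlog : cX + 1 ≤ Real.log (q * (1 + |s * y1|)) := by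
    rw [Real.le_log_iff_exp_le (by positivity), habs]
    nlinarith
  have hXn : ∀ x : ℝ, 0 ≤ x → x ≤ 1 / 2 - η → ‖XX χ ⟨1 / 2 + x, s * y1⟩‖ ≤ Real.exp (-x) := by
    intro x hx0 hx1
    refine (hcX x (s * y1) hx0 hx1).trans ?_
    apply Real.exp_le_exp.mpr
    nlinarith
  set G : ℝ × ℝ → ℝ := fun v => ‖1 - (v.2 : ℂ) * ((starRingEnd ℂ) ω ^ 2 *
    XX χ ⟨1 / 2 + v.1, s * y1⟩)‖ with hG
  set K : Set (ℝ × ℝ) := Icc 0 (1 / 2 - η) ×ˢ Icc 0 1 with hK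
  have hKc : IsCompact K := isCompact_Icc.prod isCompact_Icc
  have hKne : K.Nonempty := ⟨(0, 0), ⟨left_mem_Icc.mpr (by linarith), left_mem_Icc.mpr zero_le_one⟩⟩
  have hGc : ContinuousOn G K := by
    have h4 : ContinuousOn (fun v : ℝ × ℝ => XX χ ⟨1 / 2 + v.1, s * y1⟩) K := by
      intro v hv
      have hv1 : 0 ≤ v.1 ∧ v.1 ≤ 1 / 2 - η := hv.1
      have hc : Continuous (fun v : ℝ × ℝ => (⟨1 / 2 + v.1, s * y1⟩ : ℂ)) := by
        have : (fun v : ℝ × ℝ => (⟨1 / 2 + v.1, s * y1⟩ : ℂ)) =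
            fun v : ℝ × ℝ => ((1 / 2 + v.1 : ℝ) : ℂ) + ((s * y1 : ℝ) : ℂ) * I := by
          funext v
          apply Complex.ext <;> simp
        rw [this]
        fun_prop
      exact (ContinuousAt.comp (g := XX χ) (f := fun v : ℝ × ℝ => (⟨1 / 2 + v.1, s * y1⟩ : ℂ))
        (analyticAt_XX' (by simp only; linarith) (by simp only; linarith)).continuousAt
        hc.continuousAt).continuousWithinAt
    have h5 : ContinuousOn (fun v : ℝ × ℝ => (v.2 : ℂ)) K := by fun_prop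
    exact (continuousOn_const.sub (h5.mul (continuousOn_const.mul h4))).norm
  obtain ⟨v0, hv0, hmin⟩ := hKc.exists_isMinOn hKne hGc
  refine ⟨G v0, ?_, ?_⟩
  · simp only [hG]
    rw [norm_pos_iff]
    intro h
    have hv1 : 0 ≤ v0.1 ∧ v0.1 ≤ 1 / 2 - η := hv0.1
    have hv2 : 0 ≤ v0.2 ∧ v0.2 ≤ 1 := hv0.2
    have h4 : (v0.2 : ℂ) * ((starRingEnd ℂ) ω ^ 2 * XX χ ⟨1 / 2 + v0.1, s * y1⟩) = 1 :=
      (sub_eq_zero.mp h).symm
    have h5 := congrArg norm h4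
    rw [norm_mul, norm_mul, norm_pow, RCLike.norm_conj, hω, one_pow, one_mul, norm_one, norm_real,
      Real.norm_eq_abs, abs_of_nonneg hv2.1] at h5
    have h6 := hXn v0.1 hv1.1 hv1.2
    have h7 : v0.1 = 0 := by
      by_contra hne
      have h8 : 0 < v0.1 := lt_of_le_of_ne hv1.1 (Ne.symm hne)
      have h9 : Real.exp (-v0.1) < 1 := by rw [Real.exp_lt_one_iff]; linarith
      nlinarith [norm_nonneg (XX χ ⟨1 / 2 + v0.1, s * y1⟩)]
    rw [h7, add_zero, norm_XX_line hχ, mul_one] at h5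
    rw [h7, add_zero, h5, ofReal_one, one_mul] at h4
    apply h3
    have h8 : ω * (starRingEnd ℂ) ω = 1 := by
      rw [mul_conj, normSq_eq_norm_sq, hω]; simp
    calc XX χ ⟨1 / 2, s * y1⟩ = (ω * (starRingEnd ℂ) ω) ^ 2 * XX χ ⟨1 / 2, s * y1⟩ := by
          rw [h8]; ring
      _ = ω ^ 2 * ((starRingEnd ℂ) ω ^ 2 * XX χ ⟨1 / 2, s * y1⟩) := by ring
      _ = ω ^ 2 := by rw [h4, mul_one]
  · intro x y r hx0 hx1 hy hr0 hr1
    have hy' : y = s * y1 := by rw [← hy, ← mul_assoc, hss, one_mul]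
    rw [hy']
    exact hmin (show (x, r) ∈ K from ⟨⟨hx0, hx1⟩, ⟨hr0, hr1⟩⟩)

theorem BotOK.mono {q : ℕ} [NeZero q] {χ : DirichletCharacter ℂ q} {ω : ℂ} {b s y1 c c' : ℝ}
    (h : BotOK q χ ω b s y1 c) (hc : c' ≤ c) : BotOK q χ ω b s y1 c' :=
  fun x y r h1 h2 h3 h4 h5 => hc.trans (h x y r h1 h2 h3 h4 h5)

/-- uniform version for all characters of small conductor -/
theorem exists_bot_unif {η : ℝ} (hη : 0 < η)
    (hη8 : η ≤ 1 / 8) {cX : ℝ} (hcX0 : 0 ≤ cX)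
    (hcX : ∀ (q : ℕ) [NeZero q] (χ : DirichletCharacter ℂ q), χ.IsPrimitive → ∀ x y : ℝ, 0 ≤ x →
      x ≤ 1 / 2 - η →
      ‖XX χ ⟨1 / 2 + x, y⟩‖ ≤ Real.exp (-x * (Real.log (q * (1 + |y|)) - cX)))
    {ω : ℂ} (hω : ‖ω‖ = 1) {Q : ℝ} (hQ : Real.exp (cX + 1) ≤ Q) (N : ℕ) :
    ∃ c : ℝ, 0 < c ∧ ∀ q : ℕ, q < N → ∀ [NeZero q] (χ : DirichletCharacter ℂ q), χ.IsPrimitive →
      ∀ s : ℝ, (s = 1 ∨ s = -1) → ∃ y1 : ℝ, Q ≤ y1 ∧ y1 ≤ Q + 1 ∧
        BotOK q χ ω (1 / 2 - η) s y1 c := by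
  induction N with
  | zero => exact ⟨1, one_pos, fun q hq => absurd hq (Nat.not_lt_zero q)⟩
  | succ N ih =>
    obtain ⟨c1, hc1, h1⟩ := ih
    rcases Nat.eq_zero_or_pos N with hN | hN
    · refine ⟨c1, hc1, fun q hq inst χ hχ s hs => ?_⟩
      exfalso
      have : q ≠ 0 := NeZero.ne q
      omega
    · have : NeZero N := ⟨hN.ne'⟩
      have h2 : ∀ χ : DirichletCharacter ℂ N, ∃ c : ℝ, 0 < c ∧ (χ.IsPrimitive →
          ∀ s : ℝ, (s = 1 ∨ s = -1) → ∃ y1 : ℝ, Q ≤ y1 ∧ y1 ≤ Q + 1 ∧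
          BotOK N χ ω (1 / 2 - η) s y1 c) := by
        intro χ
        by_cases hχ : χ.IsPrimitive
        · obtain ⟨y1, a1, a2, d1, hd1, e1⟩ :=
            exists_bot hχ hη hη8 hcX0 (hcX N χ hχ) hω (s := 1) (Or.inl rfl) hQ
          obtain ⟨y2, a3, a4, d2, hd2, e2⟩ :=
            exists_bot hχ hη hη8 hcX0 (hcX N χ hχ) hω (s := -1) (Or.inr rfl) hQ
          refine ⟨min d1 d2, lt_min hd1 hd2, fun _ s hs => ?_⟩
          rcases hs with h | h
          · rw [h]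
            exact ⟨y1, a1, a2, e1.mono (min_le_left _ _)⟩
          · rw [h]
            exact ⟨y2, a3, a4, e2.mono (min_le_right _ _)⟩
        · exact ⟨1, one_pos, fun h => absurd h hχ⟩
      choose cf hcf hcf2 using h2
      obtain ⟨χ0, hχ0⟩ := Finite.exists_min cf
      refine ⟨min c1 (cf χ0), lt_min hc1 (hcf χ0), fun q hq inst χ hχ s hs => ?_⟩
      rcases Nat.lt_or_ge q N with h | h
      · obtain ⟨y1, a1, a2, e1⟩ := h1 q h χ hχ s hs
        exact ⟨y1, a1, a2, e1.mono (min_le_left _ _)⟩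
      · have hqN : q = N := by omega
        subst hqN
        obtain ⟨y1, a1, a2, e1⟩ := hcf2 χ hχ s hs
        exact ⟨y1, a1, a2, e1.mono ((min_le_right _ _).trans (hχ0 χ))⟩

end H429.GP
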