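import Pool.Agent.H429R2.GP.Max

/-!
The positivity principle: if `f = X conj f` and `|X| = 1` on the reflecting part `A` of the
boundary, and `Re f + B g ≥ 0` at the points of `A` with `X = 1` only, then
`Re (f + (B/2) g (1 + X)) / (1 - X)` is bounded below inside.
-/

open Complex Filter Topology Set Metric

namespace H429.GP

/-- the approximating function -/
noncomputable def Mr (f g X : ℂ → ℂ) (B r : ℝ) (z : ℂ) : ℂ :=
  f z / (1 - r * X z) + (B / (1 + r) : ℝ) * (g z * (1 + r * X z) / (1 - r * X z))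

theorem norm_Mr_le {f g X : ℂ → ℂ} {B r c : ℝ} {z : ℂ} (hB : 0 ≤ B) (h0 : 0 ≤ r) (h1 : r ≤ 1)
    (hX : ‖X z‖ ≤ 1) (hc : 0 < c) (hcX : c ≤ ‖1 - r * X z‖) :
    ‖Mr f g X B r z‖ ≤ (‖f z‖ + 2 * B * ‖g z‖) / c := by
  unfold Mr
  have hn : 0 < ‖1 - r * X z‖ := lt_of_lt_of_le hc hcX
  have h2 : ‖f z / (1 - r * X z)‖ ≤ ‖f z‖ / c := by
    rw [norm_div]
    exact div_le_div_of_nonneg_left (norm_nonneg _) hc hcX
  have h3 : ‖1 + r * X z‖ ≤ 2 := by
    refine (norm_add_le _ _).trans ?_
    rw [norm_one, norm_mul, norm_real, Real.norm_eq_abs, abs_of_nonneg h0]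
    nlinarith [norm_nonneg (X z)]
  have h4 : ‖((B / (1 + r) : ℝ) : ℂ) * (g z * (1 + r * X z) / (1 - r * X z))‖ ≤
      2 * B * ‖g z‖ / c := by
    rw [norm_mul, norm_real, Real.norm_eq_abs, norm_div, norm_mul]
    have h5 : |B / (1 + r)| ≤ B := by
      rw [abs_of_nonneg (by positivity)]
      exact div_le_self hB (by linarith)
    have h6 : ‖g z‖ * ‖1 + r * X z‖ / ‖1 - r * X z‖ ≤ ‖g z‖ * 2 / c :=
      div_le_div₀ (by positivity) (mul_le_mul_of_nonneg_left h3 (norm_nonneg _)) hc hcX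
    calc _ ≤ B * (‖g z‖ * 2 / c) := mul_le_mul h5 h6 (by positivity) hB
      _ = _ := by ring
  calc _ ≤ _ := norm_add_le _ _
    _ ≤ ‖f z‖ / c + 2 * B * ‖g z‖ / c := add_le_add h2 h4
    _ = _ := by ring

theorem re_Mr {f g X : ℂ → ℂ} {B r : ℝ} {z : ℂ} (h0 : 0 ≤ r)
    (hX : ‖X z‖ = 1) (hf : f z = X z * (starRingEnd ℂ) (f z)) (hg : (g z).im = 0) :
    (Mr f g X B r z).re = (1 - r) * ((f z).re + B * (g z).re) / ‖1 - r * X z‖ ^ 2 := by
  unfold Mr
  have hg' : g z = ((g z).re : ℂ) := by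
    apply Complex.ext <;> simp [hg]
  rw [add_re, re_div_of_refl hX hf, re_ofReal_mul]
  rw [hg', re_herglotz hX, ofReal_re]
  have : (1 + r : ℝ) ≠ 0 := by positivity
  field_simp
  ring

/-- the positivity principle -/
theorem core {U A D : Set ℂ} (hU : IsOpen U) (hA : IsClosed A) (hAU : A ⊆ closure U)
    (hfr : frontier U ⊆ A ∪ D) {f g X : ℂ → ℂ}
    (hf : DiffContOnCl ℂ f U) (hg : DiffContOnCl ℂ g U) (hX : DiffContOnCl ℂ X U)
    (hX1 : ∀ z ∈ U, ‖X z‖ < 1) (hXA : ∀ z ∈ A, ‖X z‖ = 1)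
    (hfA : ∀ z ∈ A, f z = X z * (starRingEnd ℂ) (f z))
    (hgA : ∀ z ∈ A, 0 < (g z).re ∧ (g z).im = 0)
    {B F0 G0 c : ℝ} (hB : 0 ≤ B) (hF0 : 0 ≤ F0) (hG0 : 0 ≤ G0) (hc : 0 < c)
    (hpos : ∀ z ∈ A, X z = 1 → 0 ≤ (f z).re + B * (g z).re)
    (hdecay : ∀ ε > 0, ∃ R : ℝ, ∀ z ∈ closure U, R ≤ ‖z‖ → ‖f z‖ ≤ ε ∧ ‖g z‖ ≤ ε)
    (hratio : ∀ ε > 0, ∃ R : ℝ, ∀ z ∈ A, R ≤ ‖z‖ → ‖f z‖ ≤ ε * (g z).re)
    (hD : ∀ z ∈ D, (∀ r : ℝ, 0 ≤ r → r ≤ 1 → c ≤ ‖1 - r * X z‖) ∧ ‖f z‖ ≤ F0 ∧ ‖g z‖ ≤ G0)
    {z : ℂ} (hz : z ∈ U) :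
    -((F0 + 2 * B * G0) / c) ≤ (Mr f g X B 1 z).re := by
  have hXcl : ∀ z ∈ closure U, ‖X z‖ ≤ 1 := by
    intro w hw
    have h1 : ContinuousOn (fun z => ‖X z‖) (closure U) := hX.continuousOn.norm
    have h2 : closure U ⊆ {z | ‖X z‖ ≤ 1} ∪ (closure U)ᶜ := by
      intro y hy
      left
      have h3 := h1.image_closure (s := U) |>.trans (by exact subset_rfl)
      have h4 : ‖X y‖ ∈ closure ((fun z => ‖X z‖) '' U) := h3 ⟨y, hy, rfl⟩
      have h5 : closure ((fun z => ‖X z‖) '' U) ⊆ Iic 1 := by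
        apply closure_minimal _ isClosed_Iic
        rintro _ ⟨v, hv, rfl⟩
        exact (hX1 v hv).le
      exact h5 h4
    rcases h2 hw with h | h
    · exact h
    · exact absurd hw h
  -- for every `η > 0` and `r` close to 1
  have key : ∀ η : ℝ, 0 < η → ∀ᶠ r : ℝ in 𝓝[<] (1 : ℝ),
      -((F0 + 2 * (B + η) * G0) / c) - η ≤ (Mr f g X (B + η) r z).re := by
    intro η hη
    -- the set where the numerator is negative
    set S : Set ℂ := A ∩ {w | (f w).re + (B + η) * (g w).re ≤ 0} with hS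
    have hScl : IsClosed S := by
      have h1 : ContinuousOn (fun w => (f w).re + (B + η) * (g w).re) A := by
        have hf' : ContinuousOn f A := hf.continuousOn.mono hAU
        have hg' : ContinuousOn g A := hg.continuousOn.mono hAU
        exact (continuous_re.comp_continuousOn hf').add
          (continuousOn_const.mul (continuous_re.comp_continuousOn hg'))
      exact h1.preimage_isClosed_of_isClosed hA isClosed_Iic
    have hSbd : Bornology.IsBounded S := by
      obtain ⟨R, hR⟩ := hratio ((B + η) / 2) (by positivity)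
      refine (isBounded_ball (x := (0 : ℂ)) (r := R)).subset ?_
      intro w hw
      rw [mem_ball_zero_iff]
      by_contra hcon
      push Not at hcon
      have h1 := hR w hw.1 hcon
      have h2 := (hgA w hw.1).1
      have h3 : (f w).re + (B + η) * (g w).re ≤ 0 := hw.2
      have h4 : -‖f w‖ ≤ (f w).re := (abs_le.mp (abs_re_le_norm (f w))).1
      have h5 : 0 < (B + η) * (g w).re := by positivity
      linarith
    have hScpt : IsCompact S := Metric.isCompact_of_isClosed_isBounded hScl hSbd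
    have hSX : ∀ w ∈ S, X w ≠ 1 := by
      intro w hw h1
      have h2 := hpos w hw.1 h1
      have h3 : (f w).re + (B + η) * (g w).re ≤ 0 := hw.2
      have h4 := (hgA w hw.1).1
      nlinarith
    obtain ⟨κ, hκ, hκS⟩ : ∃ κ : ℝ, 0 < κ ∧ ∀ w ∈ S, κ ≤ ‖1 - X w‖ := by
      rcases S.eq_empty_or_nonempty with h | h
      · exact ⟨1, one_pos, by simp [h]⟩
      · have h1 : ContinuousOn (fun w => ‖1 - X w‖) S :=
          (continuousOn_const.sub ((hX.continuousOn.mono hAU).mono inter_subset_left)).norm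
        obtain ⟨w0, hw0, hmin⟩ := hScpt.exists_isMinOn h h1
        exact ⟨‖1 - X w0‖, norm_pos_iff.mpr (sub_ne_zero.mpr (hSX w0 hw0).symm),
          fun w hw => hmin hw⟩
    obtain ⟨F1, hF1, hF1S⟩ : ∃ F1 : ℝ, 0 < F1 ∧ ∀ w ∈ S,
        -F1 ≤ (f w).re + (B + η) * (g w).re := by
      have h1 : ContinuousOn (fun w => (f w).re + (B + η) * (g w).re) S := by
        have hf' : ContinuousOn f S := (hf.continuousOn.mono hAU).mono inter_subset_left
        have hg' : ContinuousOn g S := (hg.continuousOn.mono hAU).mono inter_subset_left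
        exact (continuous_re.comp_continuousOn hf').add
          (continuousOn_const.mul (continuous_re.comp_continuousOn hg'))
      obtain ⟨m, hm⟩ := (hScpt.image_of_continuousOn h1).bddBelow
      refine ⟨max 1 (-m), by positivity, fun w hw => ?_⟩
      have h2 := hm ⟨w, hw, rfl⟩
      have h3 := le_max_right (1 : ℝ) (-m)
      simp only at h2
      linarith
    have hr1 : ∀ᶠ r : ℝ in 𝓝[<] (1 : ℝ), 4 * (1 - r) * F1 / κ ^ 2 < η := by
      have h1 : Tendsto (fun r : ℝ => 4 * (1 - r) * F1 / κ ^ 2) (𝓝[<] 1) (𝓝 (4 * (1 - 1) * F1 / κ ^ 2)) := by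
        apply Tendsto.mono_left _ nhdsWithin_le_nhds
        apply Continuous.tendsto
        fun_prop
      have h2 : 4 * (1 - 1) * F1 / κ ^ 2 < η := by simpa using hη
      exact h1.eventually (gt_mem_nhds h2)
    have hr2 : ∀ᶠ r : ℝ in 𝓝[<] (1 : ℝ), 0 < r := by
      have : ∀ᶠ r : ℝ in 𝓝 (1 : ℝ), 0 < r := lt_mem_nhds one_pos
      exact this.filter_mono nhdsWithin_le_nhds
    filter_upwards [hr1, hr2, self_mem_nhdsWithin] with r hr1 hr0 hr1'
    have hrlt : r < 1 := hr1'
    have hB' : 0 ≤ B + η := by positivity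
    -- lower bound of the real part on the frontier
    set K : ℝ := (F0 + 2 * (B + η) * G0) / c with hK
    have hK0 : 0 ≤ K := by rw [hK]; positivity
    have hne : ∀ w ∈ closure U, (1 : ℂ) - r * X w ≠ 0 := by
      intro w hw h
      have h1 : ((r : ℂ) * X w) = 1 := (sub_eq_zero.mp h).symm
      have h2 := congrArg norm h1
      rw [norm_mul, norm_real, norm_one, Real.norm_eq_abs, abs_of_pos hr0] at h2
      nlinarith [hXcl w hw, norm_nonneg (X w)]
    have hden : DiffContOnCl ℂ (fun w => (1 : ℂ) - r * X w) U :=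
      diffContOnCl_const.sub (hX.const_smul (r : ℂ))
    have hdenInv : DiffContOnCl ℂ (fun w => ((1 : ℂ) - r * X w)⁻¹) U := hden.inv hne
    have hnum : DiffContOnCl ℂ (fun w => (1 : ℂ) + r * X w) U :=
      diffContOnCl_const.add (hX.const_smul (r : ℂ))
    have hM : DiffContOnCl ℂ (Mr f g X (B + η) r) U := by
      have h1 : DiffContOnCl ℂ (fun w => f w * ((1 : ℂ) - r * X w)⁻¹) U := hf.smul hdenInv
      have h2 : DiffContOnCl ℂ (fun w => g w * ((1 : ℂ) + r * X w)) U := hg.smul hnum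
      have h3 : DiffContOnCl ℂ (fun w => (g w * ((1 : ℂ) + r * X w)) * ((1 : ℂ) - r * X w)⁻¹) U :=
        h2.smul hdenInv
      have h4 := h1.add (h3.const_smul (((B + η) / (1 + r) : ℝ) : ℂ))
      have h5 : Mr f g X (B + η) r = (fun w => f w * ((1 : ℂ) - r * X w)⁻¹) +
          (((B + η) / (1 + r) : ℝ) : ℂ) • (fun w => (g w * ((1 : ℂ) + r * X w)) *
            ((1 : ℂ) - r * X w)⁻¹) := by
        funext w
        simp only [Mr, Pi.add_apply, Pi.smul_apply, smul_eq_mul, div_eq_mul_inv]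
      rw [h5]
      exact h4
    have hE : DiffContOnCl ℂ (fun w => cexp (-(Mr f g X (B + η) r w))) U :=
      ⟨(hM.1.neg).cexp, (hM.2.neg).cexp⟩
    have hbdry : ∀ w ∈ frontier U, -K - η ≤ (Mr f g X (B + η) r w).re := by
      intro w hw
      have hwcl := frontier_subset_closure hw
      rcases hfr hw with h | h
      · by_cases hwS : w ∈ S
        · rw [re_Mr hr0.le (hXA w h) (hfA w h) (hgA w h).2]
          have h1 := hF1S w hwS
          have h2 := hκS w hwS
          have h3 := norm_one_sub_ge (hXcl w hwcl) hr0.le hrlt.le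
          have h4 : κ / 2 ≤ ‖1 - r * X w‖ := by linarith
          have h5 : 0 < ‖1 - r * X w‖ := by linarith [half_pos hκ]
          have h6 : -η ≤ (1 - r) * ((f w).re + (B + η) * (g w).re) / ‖1 - r * X w‖ ^ 2 := by
            rw [le_div_iff₀ (by positivity)]
            have h7 : (κ / 2) ^ 2 ≤ ‖1 - r * X w‖ ^ 2 := by gcongr
            have h8 : 4 * (1 - r) * F1 < η * κ ^ 2 := by
              rw [div_lt_iff₀ (by positivity)] at hr1
              exact hr1
            have h9 : (1 - r) * (-F1) ≤ (1 - r) * ((f w).re + (B + η) * (g w).re) :=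
              mul_le_mul_of_nonneg_left h1 (by linarith)
            nlinarith
          linarith
        · rw [re_Mr hr0.le (hXA w h) (hfA w h) (hgA w h).2]
          have h1 : 0 < (f w).re + (B + η) * (g w).re := by
            by_contra hcon
            push Not at hcon
            exact hwS ⟨h, hcon⟩
          have h2 : 0 ≤ (1 - r) * ((f w).re + (B + η) * (g w).re) / ‖1 - r * X w‖ ^ 2 := by
            have : 0 ≤ 1 - r := by linarith
            positivity
          linarith
      · have h1 := hD w h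
        have h2 : ‖Mr f g X (B + η) r w‖ ≤ K := by
          refine (norm_Mr_le hB' hr0.le hrlt.le (hXcl w hwcl) hc (h1.1 r hr0.le hrlt.le)).trans ?_
          rw [hK]
          gcongr
          · exact h1.2.1
          · exact h1.2.2
        have h3 := (abs_le.mp (abs_re_le_norm (Mr f g X (B + η) r w))).1
        linarith
    -- decay at infinity
    obtain ⟨R, hR⟩ : ∃ R : ℝ, ∀ w ∈ closure U, R ≤ ‖w‖ → -K - η ≤ (Mr f g X (B + η) r w).re := by
      set e : ℝ := η * (1 - r) / (1 + 2 * (B + η)) with he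
      have he0 : 0 < e := by
        have : 0 < 1 - r := by linarith
        positivity
      obtain ⟨R, hR⟩ := hdecay e he0
      refine ⟨R, fun w hw hRw => ?_⟩
      obtain ⟨h1, h2⟩ := hR w hw hRw
      have h3 : 1 - r ≤ ‖1 - r * X w‖ := by
        have h3 : ‖(1 : ℂ)‖ - ‖(r : ℂ) * X w‖ ≤ ‖1 - r * X w‖ := norm_sub_norm_le _ _
        rw [norm_one, norm_mul, norm_real, Real.norm_eq_abs, abs_of_nonneg hr0.le] at h3
        nlinarith [hXcl w hw]
      have h4 := norm_Mr_le (f := f) (g := g) hB' hr0.le hrlt.le (hXcl w hw)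
        (by linarith : 0 < 1 - r) h3
      have h5 : (‖f w‖ + 2 * (B + η) * ‖g w‖) / (1 - r) ≤ η := by
        rw [div_le_iff₀ (by linarith)]
        calc _ ≤ e + 2 * (B + η) * e := by gcongr
          _ = e * (1 + 2 * (B + η)) := by ring
          _ = η * (1 - r) := by
            rw [he]
            field_simp
      have h6 := (abs_le.mp (abs_re_le_norm (Mr f g X (B + η) r w))).1
      linarith
    have hfin := max_decay hU hE (C := Real.exp (K + η)) (R0 := R)
      (by
        intro w hw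
        rw [norm_exp, neg_re]
        exact Real.exp_le_exp.mpr (by linarith [hbdry w hw]))
      (by
        intro w hw hRw
        rw [norm_exp, neg_re]
        exact Real.exp_le_exp.mpr (by linarith [hR w hw hRw]))
      (subset_closure hz)
    rw [norm_exp, neg_re, Real.exp_le_exp] at hfin
    linarith
  -- let `r → 1`
  have key2 : ∀ η : ℝ, 0 < η →
      -((F0 + 2 * (B + η) * G0) / c) - η ≤ (Mr f g X (B + η) 1 z).re := by
    intro η hη
    have hne : (1 : ℂ) - (1 : ℝ) * X z ≠ 0 := by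
      intro h
      have h1 : X z = 1 := by
        have := sub_eq_zero.mp h
        simpa using this.symm
      have := hX1 z hz
      rw [h1] at this
      simp at this
    have h1 : ContinuousAt (fun r : ℝ => (Mr f g X (B + η) r z).re) 1 := by
      unfold Mr
      have h2 : ContinuousAt (fun r : ℝ => f z / (1 - (r : ℂ) * X z)) 1 :=
        ContinuousAt.div (by fun_prop) (by fun_prop) hne
      have h3 : ContinuousAt (fun r : ℝ => g z * (1 + (r : ℂ) * X z) / (1 - (r : ℂ) * X z)) 1 :=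
        ContinuousAt.div (by fun_prop) (by fun_prop) hne
      have h4 : ContinuousAt (fun r : ℝ => (((B + η) / (1 + r) : ℝ) : ℂ)) 1 := by
        apply ContinuousAt.comp (g := fun x : ℝ => (x : ℂ)) continuous_ofReal.continuousAt
        exact ContinuousAt.div (by fun_prop) (by fun_prop) (by norm_num)
      exact continuous_re.continuousAt.comp (h2.add (h4.mul h3))
    exact ge_of_tendsto (h1.tendsto.mono_left nhdsWithin_le_nhds) (key η hη)
  -- let `η → 0`
  have h1 : Tendsto (fun η : ℝ => -((F0 + 2 * (B + η) * G0) / c) - η) (𝓝[>] 0)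
      (𝓝 (-((F0 + 2 * (B + 0) * G0) / c) - 0)) := by
    apply Tendsto.mono_left _ nhdsWithin_le_nhds
    apply Continuous.tendsto
    fun_prop
  have h2 : Tendsto (fun η : ℝ => (Mr f g X (B + η) 1 z).re) (𝓝[>] 0)
      (𝓝 (Mr f g X (B + 0) 1 z).re) := by
    apply Tendsto.mono_left _ nhdsWithin_le_nhds
    apply Continuous.tendsto (f := fun η : ℝ => (Mr f g X (B + η) 1 z).re)
    unfold Mr
    fun_prop
  have h3 := le_of_tendsto_of_tendsto h1 h2
    (by filter_upwards [self_mem_nhdsWithin] with η hη using key2 η hη)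
  simpa using h3

end H429.GP
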