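import Pool.Agent.H429R2.GP.Bot

/-!
Assembly: a one-sided bound at the Gram points implies a two-sided bound on the critical line.
-/

open Complex Filter Topology Set Metric MeasureTheory

namespace H429.GP

open H370.DL

/-- one-sided bound at the (generalised) Gram points -/
def OneSidedAt (q : ℕ) [NeZero q] (χ : DirichletCharacter ℂ q) (ω : ℂ) (κ B0 : ℝ) : Prop :=
  ∀ y : ℝ, XX χ ⟨1 / 2, y⟩ = ω ^ 2 →
    -B0 * (q * (1 + |y|)) ^ κ ≤
      ((starRingEnd ℂ) ω * DirichletCharacter.LFunction χ ⟨1 / 2, y⟩).re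

theorem rpow_shift {q κ t0 y : ℝ} (hq : 1 ≤ q) (hκ : 0 ≤ κ) :
    (q * (1 + |y|)) ^ κ ≤ (q * (1 + |t0|)) ^ κ * Real.exp (κ * |y - t0|) := by
  have h1 : |y| ≤ |t0| + |y - t0| := by
    calc |y| = |t0 + (y - t0)| := by ring_nf
      _ ≤ _ := abs_add_le _ _
  have h2 : q * (1 + |y|) ≤ (q * (1 + |t0|)) * (1 + |y - t0|) := by
    have h3 : 1 + |y| ≤ (1 + |t0|) * (1 + |y - t0|) := by
      nlinarith [abs_nonneg t0, abs_nonneg (y - t0)]
    calc q * (1 + |y|) ≤ q * ((1 + |t0|) * (1 + |y - t0|)) := by gcongr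
      _ = _ := by ring
  have h4 : 1 + |y - t0| ≤ Real.exp |y - t0| := by
    linarith [Real.add_one_le_exp |y - t0|]
  calc (q * (1 + |y|)) ^ κ ≤ ((q * (1 + |t0|)) * Real.exp |y - t0|) ^ κ := by
        apply Real.rpow_le_rpow (by positivity) _ hκ
        exact h2.trans (by gcongr)
    _ = _ := by
        rw [Real.mul_rpow (by positivity) (Real.exp_pos _).le, ← Real.exp_mul]
        congr 2
        ring

/-- bound slightly to the right of the critical line -/
theorem right_bound {η : ℝ} (hη : 0 < η) (hη8 : η ≤ 1 / 8) {ω : ℂ} (hω : ‖ω‖ = 1) {κ : ℝ}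
    (hκ : 0 ≤ κ) : ∃ C : ℝ, 0 < C ∧
    ∀ (q : ℕ) [NeZero q] (χ : DirichletCharacter ℂ q), χ.IsPrimitive → ∀ B0 : ℝ, 0 ≤ B0 →
      OneSidedAt q χ ω κ B0 → ∀ t0 δ : ℝ, 0 < δ → δ < 1 / 4 →
        ‖DirichletCharacter.LFunction χ ⟨1 / 2 + δ, t0⟩‖ ≤
          C / δ * (1 + B0) * (q * (1 + |t0|)) ^ (max κ (4 * η)) := by
  obtain ⟨cX, hcX0, hcX⟩ := XX_decay hη
  obtain ⟨C1, hC1, hconv⟩ := convexity hη (by linarith : η ≤ 1 / 4)
  set Q : ℝ := Real.exp (cX + 1) with hQ
  have hQ0 : 0 < Q := Real.exp_pos _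
  obtain ⟨c0, hc0, hbot⟩ := exists_bot_unif hη hη8 hcX0 hcX hω (Q := Q) le_rfl (⌈Q⌉₊)
  have hE1 : Real.exp (1 / 4) ≤ 2 := by
    have := Real.exp_bound_div_one_sub_of_interval (x := 1 / 4) (by norm_num) (by norm_num)
    norm_num at this ⊢
    linarith
  set b : ℝ := 1 / 2 - η with hb
  have hb0 : 0 < b := by rw [hb]; linarith
  set cs : ℝ := 1 - Real.exp (-b) with hcs
  have hcs0 : 0 < cs := by
    rw [hcs]
    have : Real.exp (-b) < 1 := by rw [Real.exp_lt_one_iff]; linarith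
    linarith
  set c : ℝ := min cs c0 with hc
  have hcpos : 0 < c := lt_min hcs0 hc0
  set C2 : ℝ := 3 * C1 + (9 + 1 / η) * (Q * (2 + Q)) * 2 with hC2
  have hC2pos : 0 < C2 := by positivity
  set CB : ℝ := Real.exp (κ ^ 2 / 2) with hCB
  have hCB1 : 1 ≤ CB := Real.one_le_exp (by positivity)
  set C3 : ℝ := (9 + 1 / η) * (Q * (4 + Q)) with hC3
  have hC3pos : 0 < C3 := by positivity
  refine ⟨52 * ((C2 + 4 * CB) / c) + 2 * CB + C3, by positivity, ?_⟩
  intro q _ χ hχ B0 hB0 hone t0 δ hδ hδ4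
  have hq := one_le_q q
  set P : ℝ := q * (1 + |t0|) with hP
  have hP1 : 1 ≤ P := by rw [hP]; nlinarith [abs_nonneg t0]
  have hP0 : 0 < P := by linarith
  set M : ℝ := P ^ (max κ (4 * η)) with hM
  have hM1 : 1 ≤ M := Real.one_le_rpow hP1 (le_max_of_le_left hκ)
  have hPκ : P ^ κ ≤ M := Real.rpow_le_rpow_of_exponent_le hP1 (le_max_left _ _)
  have hPη : P ^ (4 * η) ≤ M := Real.rpow_le_rpow_of_exponent_le hP1 (le_max_right _ _)
  have hPκ1 : 1 ≤ P ^ κ := Real.one_le_rpow hP1 hκ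
  have hPη1 : 1 ≤ P ^ (4 * η) := Real.one_le_rpow hP1 (by positivity)
  set B : ℝ := B0 * P ^ κ * CB with hB
  have hBpos : 0 ≤ B := by positivity
  have hgram : ∀ y : ℝ, XX χ ⟨1 / 2, y⟩ = ω ^ 2 →
      0 ≤ ((starRingEnd ℂ) ω * DirichletCharacter.LFunction χ ⟨1 / 2, y⟩).re *
        Real.exp (-(y - t0) ^ 2) + B * Real.exp (-(y - t0) ^ 2 / 2) := by
    intro y hy
    have h1 := hone y hy
    have h2 := rpow_shift (t0 := t0) (y := y) hq hκ
    have h3 : -(B0 * (P ^ κ * Real.exp (κ * |y - t0|))) ≤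
        ((starRingEnd ℂ) ω * DirichletCharacter.LFunction χ ⟨1 / 2, y⟩).re := by
      refine le_trans ?_ h1
      rw [neg_mul]
      apply neg_le_neg
      exact mul_le_mul_of_nonneg_left h2 hB0
    have h4 : Real.exp (κ * |y - t0|) * Real.exp (-(y - t0) ^ 2) ≤
        CB * Real.exp (-(y - t0) ^ 2 / 2) := by
      rw [hCB, ← Real.exp_add, ← Real.exp_add]
      apply Real.exp_le_exp.mpr
      rw [← sq_abs (y - t0)]
      nlinarith [sq_nonneg (|y - t0| - κ)]
    have h5 := mul_le_mul_of_nonneg_right h3 (Real.exp_pos (-(y - t0) ^ 2)).le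
    have h6 : B0 * P ^ κ * (Real.exp (κ * |y - t0|) * Real.exp (-(y - t0) ^ 2)) ≤
        B0 * P ^ κ * (CB * Real.exp (-(y - t0) ^ 2 / 2)) :=
      mul_le_mul_of_nonneg_left h4 (by positivity)
    rw [hB]
    linarith
  set F0 : ℝ := C2 * P ^ (4 * η) with hF0
  have hF0pos : 0 < F0 := by positivity
  have hFside : ∀ y : ℝ, ‖DirichletCharacter.LFunction χ ⟨1 - η, y⟩‖ *
      Real.exp (1 / 4 - (y - t0) ^ 2) ≤ F0 := by
    intro y
    have h1 := hconv q χ hχ y
    have h2 := rpow_shift (t0 := t0) (y := y) hq (by positivity : 0 ≤ 4 * η)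
    calc _ ≤ (C1 * (P ^ (4 * η) * Real.exp (4 * η * |y - t0|))) *
          Real.exp (1 / 4 - (y - t0) ^ 2) := by
          gcongr
          exact h1.trans (by gcongr)
      _ = C1 * P ^ (4 * η) * (Real.exp (4 * η * |y - t0|) * Real.exp (1 / 4 - (y - t0) ^ 2)) := by
          ring
      _ ≤ C1 * P ^ (4 * η) * 3 := by
          gcongr
          rw [← Real.exp_add]
          have h3 : 4 * η * |y - t0| + (1 / 4 - (y - t0) ^ 2) ≤ 1 := by
            rw [← sq_abs (y - t0)]
            have h4 : 4 * η * |y - t0| ≤ 1 / 2 * |y - t0| := by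
              apply mul_le_mul_of_nonneg_right _ (abs_nonneg _)
              linarith
            nlinarith [sq_nonneg (|y - t0| - 1 / 4)]
          exact (Real.exp_le_exp.mpr h3).trans (by linarith [Real.exp_one_lt_d9])
      _ ≤ F0 := by
          rw [hF0, hC2]
          have : 0 ≤ (9 + 1 / η) * (Q * (2 + Q)) * 2 * P ^ (4 * η) := by positivity
          linarith
  -- conclude from the local bound
  have hconcl : ∀ s y1 : ℝ, (∀ y : ℝ, y1 ≤ s * y → cX + 1 ≤ Real.log (q * (1 + |y|))) →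
      (∀ x y : ℝ, 0 ≤ x → x ≤ 1 / 2 - η → s * y = y1 →
        ‖DirichletCharacter.LFunction χ ⟨1 / 2 + x, y⟩‖ * Real.exp (1 / 4) ≤ F0) →
      BotOK q χ ω (1 / 2 - η) s y1 c → (∀ y, |y - t0| ≤ 1 → y1 < s * y) →
      ‖DirichletCharacter.LFunction χ ⟨1 / 2 + δ, t0⟩‖ ≤
          (52 * ((C2 + 4 * CB) / c) + 2 * CB + C3) / δ * (1 + B0) * M := by
    intro s y1 hbig hFbot hbotc ht0
    have h := app_local hη hη8 (hcX q χ hχ) hχ hω hbig hBpos hF0pos hcpos hgram hFside hFbot
      (min_le_left _ _) hbotc hδ (by linarith) ht0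
    refine h.trans ?_
    have h1 : F0 + 4 * B ≤ (C2 + 4 * CB) * ((1 + B0) * M) := by
      have e1 : F0 ≤ C2 * M := by rw [hF0]; gcongr
      have e2 : B ≤ B0 * M * CB := by rw [hB]; gcongr
      have e3 : 0 ≤ C2 * (B0 * M) := by positivity
      have e4 : 0 ≤ CB * M := by positivity
      nlinarith
    have h2 : 52 * ((F0 + 4 * B) / c) / δ ≤ 52 * ((C2 + 4 * CB) / c) / δ * ((1 + B0) * M) := by
      have : 52 * ((C2 + 4 * CB) / c) / δ * ((1 + B0) * M) =
          52 * (((C2 + 4 * CB) * ((1 + B0) * M)) / c) / δ := by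
        field_simp
      rw [this]
      gcongr
    have h3 : 2 * B ≤ 2 * CB / δ * ((1 + B0) * M) := by
      have e2 : B ≤ CB * ((1 + B0) * M) := by
        rw [hB]
        have e3 : 0 ≤ CB * M := by positivity
        have e4 : B0 * P ^ κ * CB ≤ B0 * M * CB := by gcongr
        nlinarith
      have e5 : 2 * CB / δ * ((1 + B0) * M) = 2 * (CB * ((1 + B0) * M)) / δ := by
        field_simp
      rw [e5, le_div_iff₀ hδ]
      have e6 : 0 ≤ CB * ((1 + B0) * M) := by positivity
      nlinarith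
    have h4 : 0 ≤ C3 / δ * ((1 + B0) * M) := by positivity
    calc _ ≤ 52 * ((C2 + 4 * CB) / c) / δ * ((1 + B0) * M) + 2 * CB / δ * ((1 + B0) * M) :=
          add_le_add h2 h3
      _ ≤ 52 * ((C2 + 4 * CB) / c) / δ * ((1 + B0) * M) + 2 * CB / δ * ((1 + B0) * M) +
          C3 / δ * ((1 + B0) * M) := by linarith
      _ = _ := by ring
  rcases lt_or_ge (q : ℝ) Q with hsmall | hlarge
  · -- small conductor
    rcases le_or_gt |t0| (Q + 2) with ht | ht
    · have h1 := growth hχ hη (s := ⟨1 / 2 + δ, t0⟩) (by simp only; linarith)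
        (by simp only; linarith)
      have h2 : (9 + 1 / η) * (q * (1 + |t0|)) ≤ C3 := by
        rw [hC3]
        have h3 : 1 + |t0| ≤ 4 + Q := by linarith
        exact mul_le_mul_of_nonneg_left (mul_le_mul hsmall.le h3 (by positivity) hQ0.le)
          (by positivity)
      have h3 : C3 ≤ C3 / δ * (1 + B0) * M := by
        have e1 : C3 ≤ C3 / δ := by
          rw [le_div_iff₀ hδ]
          nlinarith
        have e2 : 0 < C3 / δ := by positivity
        have e3 : C3 / δ ≤ C3 / δ * (1 + B0) := by nlinarith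
        have e4 : C3 / δ * (1 + B0) ≤ C3 / δ * (1 + B0) * M := by
          have : 0 ≤ C3 / δ * (1 + B0) := by positivity
          nlinarith
        linarith
      refine (h1.trans (h2.trans h3)).trans ?_
      have h5 : C3 / δ ≤ (52 * ((C2 + 4 * CB) / c) + 2 * CB + C3) / δ := by
        gcongr
        have : 0 ≤ 52 * ((C2 + 4 * CB) / c) + 2 * CB := by positivity
        linarith
      gcongr
    · obtain ⟨s, hs1, hst⟩ : ∃ s : ℝ, (s = 1 ∨ s = -1) ∧ s * t0 = |t0| := by
        rcases le_or_gt 0 t0 with h | h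
        · exact ⟨1, Or.inl rfl, by rw [one_mul, abs_of_nonneg h]⟩
        · exact ⟨-1, Or.inr rfl, by rw [neg_one_mul, abs_of_neg h]⟩
      obtain ⟨y1, h1, h2, h3⟩ := hbot q (by
        have h4 : (q : ℝ) < (⌈Q⌉₊ : ℝ) := lt_of_lt_of_le hsmall (Nat.le_ceil Q)
        exact_mod_cast h4) χ hχ s hs1
      have habs : ∀ y : ℝ, s * y ≤ |y| := by
        intro y
        rcases hs1 with h | h
        · rw [h, one_mul]; exact le_abs_self y
        · rw [h, neg_one_mul]; exact neg_le_abs y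
      apply hconcl s y1
      · intro y hy
        have h4 : Q ≤ |y| := h1.trans (hy.trans (habs y))
        rw [Real.le_log_iff_exp_le (by positivity)]
        nlinarith [abs_nonneg y]
      · intro x y hx0 hx1 hy
        have h4 : |y| = y1 := by
          have h5 : |s * y| = |y| := by
            rw [abs_mul]
            rcases hs1 with h | h <;> rw [h] <;> simp
          rw [← h5, hy, abs_of_nonneg (by linarith)]
        have h6 := growth hχ hη (s := ⟨1 / 2 + x, y⟩) (by simp only; linarith)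
          (by simp only; linarith)
        simp only at h6
        rw [h4] at h6
        have h7 : (9 + 1 / η) * (q * (1 + y1)) ≤ (9 + 1 / η) * (Q * (2 + Q)) := by
          have h3 : 1 + y1 ≤ 2 + Q := by linarith
          exact mul_le_mul_of_nonneg_left (mul_le_mul hsmall.le h3 (by linarith) hQ0.le)
            (by positivity)
        calc _ ≤ ((9 + 1 / η) * (Q * (2 + Q))) * 2 := by
              gcongr
              exact h6.trans h7
          _ ≤ C2 := by rw [hC2]; linarith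
          _ ≤ F0 := by rw [hF0]; nlinarith
      · exact h3.mono (min_le_right _ _)
      · intro y hy
        have h4 : s * y = s * t0 + s * (y - t0) := by ring
        have h5 : -1 ≤ s * (y - t0) := by
          have h6 := abs_le.mp hy
          rcases hs1 with h | h
          · rw [h, one_mul]; exact h6.1
          · rw [h, neg_one_mul]; linarith [h6.2]
        rw [h4, hst]
        linarith
  · -- large conductor
    apply hconcl 0 (-1)
    · intro y _
      rw [Real.le_log_iff_exp_le (by positivity)]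
      nlinarith [abs_nonneg y]
    · intro x y _ _ h
      norm_num at h
    · intro x y r _ _ h
      norm_num at h
    · intro y _
      norm_num

/-- the transfer theorem -/
theorem transfer {ω : ℂ} (hω : ‖ω‖ = 1) {κ ε : ℝ} (hκ : 0 ≤ κ) (hε : 0 < ε) : ∃ C : ℝ, 0 < C ∧
    ∀ (q : ℕ) [NeZero q] (χ : DirichletCharacter ℂ q), χ.IsPrimitive → ∀ B0 : ℝ, 0 ≤ B0 →
      OneSidedAt q χ ω κ B0 → ∀ t : ℝ,
        ‖DirichletCharacter.LFunction χ ⟨1 / 2, t⟩‖ ≤
          C * (1 + B0) * (q * (1 + |t|)) ^ (κ + ε) := by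
  set η : ℝ := min (1 / 8) (ε / 5) with hη
  have hη0 : 0 < η := by rw [hη]; positivity
  have hη8 : η ≤ 1 / 8 := min_le_left _ _
  have hηε : 5 * η ≤ ε := by
    have : η ≤ ε / 5 := min_le_right _ _
    linarith
  obtain ⟨C, hC, hr⟩ := right_bound hη0 hη8 hω hκ
  set m : ℝ := max κ (4 * η) with hm
  have hm0 : 0 ≤ m := le_max_of_le_left hκ
  refine ⟨3 * (2 * (9 + 1 / η)) + 3 * (16 * C / η * Real.exp (m ^ 2 / 4)), by positivity, ?_⟩
  intro q _ χ hχ B0 hB0 hone t
  have hq := one_le_q q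
  set P : ℝ := q * (1 + |t|) with hP
  have hP1 : 1 ≤ P := by rw [hP]; nlinarith [abs_nonneg t]
  have hP0 : 0 < P := by linarith
  have hlogP : 0 ≤ Real.log P := Real.log_nonneg hP1
  set δ : ℝ := 1 / (8 * (1 + Real.log P)) with hδ
  have hδ0 : 0 < δ := by positivity
  have hδ8 : δ ≤ 1 / 8 := by
    rw [hδ]
    apply one_div_le_one_div_of_le (by norm_num)
    linarith
  set h : ℂ → ℂ := fun z => DirichletCharacter.LFunction χ (1 / 2 + z) with hh
  have hlogη : 1 + Real.log P ≤ P ^ η / η := by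
    have h1 : Real.log (P ^ η) ≤ P ^ η - 1 := Real.log_le_sub_one_of_pos (by positivity)
    rw [Real.log_rpow hP0] at h1
    rw [le_div_iff₀ hη0]
    nlinarith
  have hdc : DiffContOnCl ℂ h {z | (-(1 / 4) : ℝ) < z.re ∧ z.re < δ} := by
    have hcl : closure {z : ℂ | (-(1 / 4) : ℝ) < z.re ∧ z.re < δ} ⊆ {z | z.re < 1 / 2} := by
      have h5 : {z : ℂ | (-(1 / 4) : ℝ) < z.re ∧ z.re < δ} = re ⁻¹' (Ioo (-(1 / 4)) δ) := rfl
      rw [h5, closure_preimage_re, closure_Ioo (by linarith)]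
      intro z hz
      have : z.re ≤ δ := hz.2
      change z.re < 1 / 2
      linarith
    apply DifferentiableOn.diffContOnCl
    intro z hz
    have hz' : z.re < 1 / 2 := hcl hz
    apply DifferentiableAt.differentiableWithinAt
    have h3 : (1 / 2 : ℂ) + z ≠ 1 := by
      rw [half_add]
      intro h
      have := congrArg re h
      simp only [one_re] at this
      linarith
    exact DifferentiableAt.comp (g := DirichletCharacter.LFunction χ) (f := fun z : ℂ => 1 / 2 + z) z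
        (analyticAt_L h3).differentiableAt (by fun_prop)
  have hgr : ∀ z : ℂ, -(1 / 4) ≤ z.re → z.re ≤ δ → ‖h z‖ ≤ ((9 + 1 / η) * q) * (1 + |z.im|) := by
    intro z h1 h2
    simp only [hh]
    rw [half_add]
    have := growth hχ hη0 (s := ⟨1 / 2 + z.re, z.im⟩) (by simp only; linarith)
      (by simp only; linarith)
    refine this.trans (le_of_eq ?_)
    simp only
    ring
  have hleft : ∀ y : ℝ, ‖h ⟨-(1 / 4), y⟩‖ ≤ (2 * (9 + 1 / η) * P) * Real.exp ((y - t) ^ 2) := by
    intro y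
    have h1 := hgr ⟨-(1 / 4), y⟩ (by norm_num) (by simp only; linarith)
    refine h1.trans ?_
    have h2 : 1 + |y| ≤ (1 + |t|) * (1 + |y - t|) := by
      have : |y| ≤ |t| + |y - t| := by
        calc |y| = |t + (y - t)| := by ring_nf
          _ ≤ _ := abs_add_le _ _
      nlinarith [abs_nonneg t, abs_nonneg (y - t)]
    have h3 := one_add_le_gauss |y - t|
    rw [sq_abs] at h3
    calc ((9 + 1 / η) * (q : ℝ)) * (1 + |y|) ≤
          ((9 + 1 / η) * q) * ((1 + |t|) * (2 * Real.exp ((y - t) ^ 2))) := by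
          gcongr
          exact h2.trans (by gcongr)
      _ = _ := by rw [hP]; ring
  have hright : ∀ y : ℝ, ‖h ⟨δ, y⟩‖ ≤
      (C / δ * (1 + B0) * (P ^ m * Real.exp (m ^ 2 / 4))) * Real.exp ((y - t) ^ 2) := by
    intro y
    simp only [hh]
    rw [half_add]
    have h1 := hr q χ hχ B0 hB0 hone y δ hδ0 (by linarith)
    refine h1.trans ?_
    have h2 := rpow_shift (t0 := t) (y := y) hq hm0
    calc _ ≤ C / δ * (1 + B0) * (P ^ m * Real.exp (m * |y - t|)) := by gcongr
      _ ≤ C / δ * (1 + B0) * (P ^ m * (Real.exp (m ^ 2 / 4) * Real.exp ((y - t) ^ 2))) := by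
          gcongr
          rw [← Real.exp_add]
          apply Real.exp_le_exp.mpr
          rw [← sq_abs (y - t)]
          nlinarith [sq_nonneg (|y - t| - m / 2)]
      _ = _ := by ring
  have htl := three_lines (a := -(1 / 4)) (b := δ) (σ0 := 0) (t0 := t)
    (lam := 4 * Real.log P) (by linarith) (by norm_num) hδ0.le hdc hgr hleft hright
  have e1 : Real.exp ((δ - -(1 / 4)) ^ 2) ≤ Real.exp 1 := by
    apply Real.exp_le_exp.mpr
    nlinarith
  have e2 : 2 * (9 + 1 / η) * P * Real.exp (4 * Real.log P * (-(1 / 4) - 0)) =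
      2 * (9 + 1 / η) := by
    have : Real.exp (4 * Real.log P * (-(1 / 4) - 0)) = P⁻¹ := by
      rw [show 4 * Real.log P * (-(1 / 4) - 0) = -Real.log P by ring, Real.exp_neg,
        Real.exp_log hP0]
    rw [this, mul_assoc, mul_inv_cancel₀ hP0.ne', mul_one]
  have e3 : Real.exp (4 * Real.log P * (δ - 0)) ≤ 2 := by
    have h1 : 4 * Real.log P * (δ - 0) ≤ 1 / 2 := by
      rw [hδ, sub_zero, mul_one_div, div_le_iff₀ (by positivity)]
      linarith
    refine (Real.exp_le_exp.mpr h1).trans ?_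
    have := Real.exp_bound_div_one_sub_of_interval (x := 1 / 2) (by norm_num) (by norm_num)
    norm_num at this ⊢
    linarith
  have hPm : P ^ m * P ^ η ≤ P ^ (κ + ε) := by
    rw [← Real.rpow_add hP0]
    apply Real.rpow_le_rpow_of_exponent_le hP1
    have h1 : m ≤ κ + 4 * η := by
      rw [hm]
      apply max_le <;> linarith
    linarith
  have hPκ : 1 ≤ P ^ (κ + ε) := Real.one_le_rpow hP1 (by positivity)
  have e4 : C / δ ≤ 8 * C / η * P ^ η := by
    have h1 : C / δ = 8 * C * (1 + Real.log P) := by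
      rw [hδ]
      field_simp
    rw [h1]
    calc 8 * C * (1 + Real.log P) ≤ 8 * C * (P ^ η / η) := by gcongr
      _ = _ := by ring
  have hmain : ‖DirichletCharacter.LFunction χ ⟨1 / 2, t⟩‖ = ‖h ⟨0, t⟩‖ := by
    simp only [hh]
    rw [half_add]
    simp
  rw [hmain]
  refine htl.trans ?_
  have hmax : max (2 * (9 + 1 / η) * P * Real.exp (4 * Real.log P * (-(1 / 4) - 0)))
      (C / δ * (1 + B0) * (P ^ m * Real.exp (m ^ 2 / 4)) * Real.exp (4 * Real.log P * (δ - 0))) ≤
      (2 * (9 + 1 / η) + 16 * C / η * Real.exp (m ^ 2 / 4)) * (1 + B0) * P ^ (κ + ε) := by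
    have hpos1 : 0 ≤ 16 * C / η * Real.exp (m ^ 2 / 4) * (1 + B0) * P ^ (κ + ε) := by positivity
    have hpos2 : 0 ≤ 2 * (9 + 1 / η) * (1 + B0) * P ^ (κ + ε) := by positivity
    apply max_le
    · rw [e2]
      have h1 : 2 * (9 + 1 / η) ≤ 2 * (9 + 1 / η) * (1 + B0) * P ^ (κ + ε) := by
        have h2 : 1 ≤ (1 + B0) * P ^ (κ + ε) := by nlinarith
        have h3 : 0 ≤ 2 * (9 + 1 / η) := by positivity
        calc 2 * (9 + 1 / η) = 2 * (9 + 1 / η) * 1 := by ring
          _ ≤ 2 * (9 + 1 / η) * ((1 + B0) * P ^ (κ + ε)) := by gcongr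
          _ = _ := by ring
      linarith
    · have h1 : C / δ * (1 + B0) * (P ^ m * Real.exp (m ^ 2 / 4)) *
          Real.exp (4 * Real.log P * (δ - 0)) ≤
          (8 * C / η * P ^ η) * (1 + B0) * (P ^ m * Real.exp (m ^ 2 / 4)) * 2 := by
        gcongr
      have h2 : (8 * C / η * P ^ η) * (1 + B0) * (P ^ m * Real.exp (m ^ 2 / 4)) * 2 =
          16 * C / η * Real.exp (m ^ 2 / 4) * (1 + B0) * (P ^ m * P ^ η) := by ring
      have h3 : 16 * C / η * Real.exp (m ^ 2 / 4) * (1 + B0) * (P ^ m * P ^ η) ≤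
          16 * C / η * Real.exp (m ^ 2 / 4) * (1 + B0) * P ^ (κ + ε) := by gcongr
      linarith
  have hexp3 : Real.exp 1 ≤ 3 := by linarith [Real.exp_one_lt_d9]
  calc _ ≤ 3 * ((2 * (9 + 1 / η) + 16 * C / η * Real.exp (m ^ 2 / 4)) * (1 + B0) *
        P ^ (κ + ε)) := by
        apply mul_le_mul (e1.trans hexp3) hmax _ (by norm_num)
        apply le_max_of_le_left
        positivity
    _ = _ := by ring

end H429.GP
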