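import Pool.Agent.H429R2.GP.RB

/-!
The transfer theorem: the size on the critical line is controlled by one-sided values at the
(generalised) Gram points in a window of length `O(√log)`.
-/

open Complex Filter Topology Set Metric MeasureTheory

namespace H429.GP

open H370.DL

theorem window_aux {P q t y y' : ℝ} (hq : 1 ≤ q) (hP : P = q * (1 + |t|))
    (h1 : |y - t| ≤ √(2 * Real.log P))
    (h2 : |y' - y| ≤ 2 * √(Real.log (q * (1 + |y|)))) :
    |y' - t| ≤ 6 * √(1 + Real.log P) := by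
  have hP1 : 1 ≤ P := by rw [hP]; nlinarith [abs_nonneg t]
  have hlog : 0 ≤ Real.log P := Real.log_nonneg hP1
  set ℓ : ℝ := √(1 + Real.log P) with hℓ
  have hℓ2 : ℓ ^ 2 = 1 + Real.log P := Real.sq_sqrt (by linarith)
  have hℓ0 : 0 ≤ ℓ := Real.sqrt_nonneg _
  have hℓ1 : 1 ≤ ℓ := by
    rw [hℓ]
    exact Real.one_le_sqrt.mpr (by linarith)
  set u : ℝ := |y - t| with hu
  have hu0 : 0 ≤ u := abs_nonneg _
  have hu1 : u ≤ 3 / 2 * ℓ := by
    refine h1.trans ?_
    rw [Real.sqrt_le_left (by positivity)]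
    rw [mul_pow, hℓ2]
    linarith
  have h3 : |y| ≤ |t| + |y - t| := by
    calc |y| = |t + (y - t)| := by ring_nf
      _ ≤ _ := abs_add_le _ _
  have h4 : q * (1 + |y|) ≤ P * (1 + u) := by
    have h5 : 1 + |y| ≤ (1 + |t|) * (1 + u) := by
      nlinarith [abs_nonneg t]
    calc q * (1 + |y|) ≤ q * ((1 + |t|) * (1 + u)) := by gcongr
      _ = _ := by rw [hP]; ring
  have h5 : Real.log (q * (1 + |y|)) ≤ Real.log P + u := by
    have h6 : Real.log (q * (1 + |y|)) ≤ Real.log (P * (1 + u)) :=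
      Real.log_le_log (by positivity) h4
    have hPne : P ≠ 0 := by linarith
    have hune : 1 + u ≠ 0 := by linarith
    rw [Real.log_mul hPne hune] at h6
    have h7 : Real.log (1 + u) ≤ u := by
      have := Real.log_le_sub_one_of_pos (by linarith : 0 < 1 + u)
      linarith
    linarith
  have h6 : √(Real.log (q * (1 + |y|))) ≤ 2 * ℓ := by
    rw [Real.sqrt_le_left (by positivity)]
    rw [mul_pow, hℓ2]
    have : u ≤ 3 / 2 * ℓ ^ 2 := by nlinarith
    rw [hℓ2] at this
    linarith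
  calc |y' - t| = |(y' - y) + (y - t)| := by ring_nf
    _ ≤ |y' - y| + u := abs_add_le _ _
    _ ≤ 2 * (2 * ℓ) + 3 / 2 * ℓ := by linarith
    _ ≤ 6 * ℓ := by linarith

/-- the local transfer theorem -/
theorem local_transfer {ω : ℂ} (hω : ‖ω‖ = 1) {ε : ℝ} (hε : 0 < ε) : ∃ C : ℝ, 0 < C ∧
    ∀ (q : ℕ) [NeZero q] (χ : DirichletCharacter ℂ q), χ.IsPrimitive → ∀ t M : ℝ, 0 ≤ M →
      GramBound q χ ω t (6 * √(1 + Real.log (q * (1 + |t|)))) M →
        ‖DirichletCharacter.LFunction χ ⟨1 / 2, t⟩‖ ≤ C * (1 + M) * (q * (1 + |t|)) ^ ε := by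
  set η : ℝ := min (1 / 8) (ε / 5) with hη
  have hη0 : 0 < η := by rw [hη]; positivity
  have hη8 : η ≤ 1 / 8 := min_le_left _ _
  have hηε : 5 * η ≤ ε := by
    have : η ≤ ε / 5 := min_le_right _ _
    linarith
  obtain ⟨C, hC, hr⟩ := right_boundL hη0 hη8 hω
  set G : ℝ := 9 + 1 / η with hG
  have hG0 : 0 < G := by positivity
  refine ⟨3 * (2 * G) + 3 * (32 * C / η + 4 * G), by positivity, ?_⟩
  intro q _ χ hχ t M hM hone
  have hq := one_le_q q
  set P : ℝ := q * (1 + |t|) with hP
  have hP1 : 1 ≤ P := by rw [hP]; nlinarith [abs_nonneg t]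
  have hP0 : 0 < P := by linarith
  have hlogP : 0 ≤ Real.log P := Real.log_nonneg hP1
  set δ : ℝ := 1 / (8 * (1 + Real.log P)) with hδ
  have hδ0 : 0 < δ := by positivity
  have hδ8 : δ ≤ 1 / 8 := by
    rw [hδ]
    apply one_div_le_one_div_of_le (by norm_num)
    linarith
  set h : ℂ → ℂ := fun z => DirichletCharacter.LFunction χ (1 / 2 + z) with hh
  have hlogη : 1 + Real.log P ≤ P ^ η / η := by
    have h1 : Real.log (P ^ η) ≤ P ^ η - 1 := Real.log_le_sub_one_of_pos (by positivity)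
    rw [Real.log_rpow hP0] at h1
    rw [le_div_iff₀ hη0]
    nlinarith
  have hdc : DiffContOnCl ℂ h {z | (-(1 / 4) : ℝ) < z.re ∧ z.re < δ} := by
    have hcl : closure {z : ℂ | (-(1 / 4) : ℝ) < z.re ∧ z.re < δ} ⊆ {z | z.re < 1 / 2} := by
      have h5 : {z : ℂ | (-(1 / 4) : ℝ) < z.re ∧ z.re < δ} = re ⁻¹' (Ioo (-(1 / 4)) δ) := rfl
      rw [h5, closure_preimage_re, closure_Ioo (by linarith)]
      intro z hz
      have : z.re ≤ δ := hz.2
      change z.re < 1 / 2
      linarith
    apply DifferentiableOn.diffContOnCl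
    intro z hz
    have hz' : z.re < 1 / 2 := hcl hz
    apply DifferentiableAt.differentiableWithinAt
    have h3 : (1 / 2 : ℂ) + z ≠ 1 := by
      rw [half_add]
      intro h
      have := congrArg re h
      simp only [one_re] at this
      linarith
    exact DifferentiableAt.comp (g := DirichletCharacter.LFunction χ) (f := fun z : ℂ => 1 / 2 + z) z
        (analyticAt_L h3).differentiableAt (by fun_prop)
  have hgr : ∀ z : ℂ, -(1 / 4) ≤ z.re → z.re ≤ δ → ‖h z‖ ≤ (G * q) * (1 + |z.im|) := by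
    intro z h1 h2
    simp only [hh]
    rw [half_add]
    have := growth hχ hη0 (s := ⟨1 / 2 + z.re, z.im⟩) (by simp only; linarith)
      (by simp only; linarith)
    refine this.trans (le_of_eq ?_)
    simp only
    rw [hG]
    ring
  have habs : ∀ y : ℝ, (q : ℝ) * (1 + |y|) ≤ P * (1 + |y - t|) := by
    intro y
    have h3 : |y| ≤ |t| + |y - t| := by
      calc |y| = |t + (y - t)| := by ring_nf
        _ ≤ _ := abs_add_le _ _
    have h4 : 1 + |y| ≤ (1 + |t|) * (1 + |y - t|) := by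
      nlinarith [abs_nonneg t, abs_nonneg (y - t)]
    calc (q : ℝ) * (1 + |y|) ≤ q * ((1 + |t|) * (1 + |y - t|)) := by gcongr
      _ = _ := by rw [hP]; ring
  have hleft : ∀ y : ℝ, ‖h ⟨-(1 / 4), y⟩‖ ≤ (2 * G * P) * Real.exp ((y - t) ^ 2) := by
    intro y
    have h1 := hgr ⟨-(1 / 4), y⟩ (by norm_num) (by simp only; linarith)
    refine h1.trans ?_
    have h3 := one_add_le_gauss |y - t|
    rw [sq_abs] at h3
    calc (G * (q : ℝ)) * (1 + |y|) = G * (q * (1 + |y|)) := by ring
      _ ≤ G * (P * (2 * Real.exp ((y - t) ^ 2))) := by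
          apply mul_le_mul_of_nonneg_left _ hG0.le
          exact (habs y).trans (mul_le_mul_of_nonneg_left h3 hP0.le)
      _ = _ := by ring
  set Pη : ℝ := P ^ (4 * η) with hPη
  have hPη1 : 1 ≤ Pη := Real.one_le_rpow hP1 (by positivity)
  have hright : ∀ y : ℝ, ‖h ⟨δ, y⟩‖ ≤
      ((2 * (C / δ) + 2 * G) * (1 + M) * Pη) * Real.exp ((y - t) ^ 2) := by
    intro y
    set u : ℝ := |y - t| with hu
    have hu0 : 0 ≤ u := abs_nonneg _
    have hsq : (y - t) ^ 2 = u ^ 2 := (sq_abs _).symm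
    rw [hsq]
    have hCδ : 0 ≤ C / δ := by positivity
    have hE1 : 1 ≤ Real.exp (u ^ 2) := Real.one_le_exp (by positivity)
    rcases le_or_gt u (√(2 * Real.log P)) with hclose | hfar
    · have hgy : GramBound q χ ω y (2 * √(Real.log (q * (1 + |y|)))) M := by
        intro y' hy' hX
        exact hone y' (window_aux hq hP hclose hy') hX
      have h1 := hr q χ hχ M hM y δ hgy hδ0 (by linarith)
      have h2 := rpow_shiftL (t0 := t) (y := y) hq (by positivity : 0 ≤ 4 * η)
      have h3 : Real.exp (4 * η * u) ≤ 2 * Real.exp (u ^ 2) := by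
        have e1 : 4 * η * u ≤ 1 / 16 + u ^ 2 := by
          have : 4 * η * u ≤ 1 / 2 * u := by nlinarith
          nlinarith [sq_nonneg (u - 1 / 4)]
        have e2 : Real.exp (1 / 16) ≤ 2 := by
          have := Real.exp_bound_div_one_sub_of_interval (x := 1 / 16) (by norm_num) (by norm_num)
          norm_num at this ⊢
          linarith
        calc _ ≤ Real.exp (1 / 16 + u ^ 2) := Real.exp_le_exp.mpr e1
          _ = Real.exp (1 / 16) * Real.exp (u ^ 2) := Real.exp_add _ _
          _ ≤ _ := by gcongr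
      simp only [hh]
      rw [half_add]
      simp only
      calc _ ≤ C / δ * (1 + M) * (q * (1 + |y|)) ^ (4 * η) := h1
        _ ≤ C / δ * (1 + M) * (Pη * (2 * Real.exp (u ^ 2))) := by
            have h4 : ((q : ℝ) * (1 + |y|)) ^ (4 * η) ≤ Pη * (2 * Real.exp (u ^ 2)) :=
              h2.trans (mul_le_mul_of_nonneg_left h3 (by positivity))
            exact mul_le_mul_of_nonneg_left h4 (by positivity)
        _ ≤ C / δ * (1 + M) * (Pη * (2 * Real.exp (u ^ 2))) +
            2 * G * (1 + M) * Pη * Real.exp (u ^ 2) := by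
            have : 0 ≤ 2 * G * (1 + M) * Pη * Real.exp (u ^ 2) := by positivity
            linarith
        _ = _ := by ring
    · have h1 := hgr ⟨δ, y⟩ (by simp only; linarith) le_rfl
      have h2 : P ≤ Real.exp (u ^ 2 / 2) := by
        have e1 : 2 * Real.log P ≤ u ^ 2 := by
          have e2 : (√(2 * Real.log P)) ^ 2 ≤ u ^ 2 :=
            pow_le_pow_left₀ (Real.sqrt_nonneg _) hfar.le 2
          rwa [Real.sq_sqrt (by positivity)] at e2
        rw [← Real.log_le_iff_le_exp hP0]
        linarith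
      have h3 : 1 + u ≤ 2 * Real.exp (u ^ 2 / 2) := by
        have := Real.add_one_le_exp (u ^ 2 / 2)
        nlinarith [sq_nonneg (u - 1)]
      have h4 : P * (1 + u) ≤ 2 * Real.exp (u ^ 2) := by
        have e1 : Real.exp (u ^ 2) = Real.exp (u ^ 2 / 2) * Real.exp (u ^ 2 / 2) := by
          rw [← Real.exp_add]; congr 1; ring
        calc P * (1 + u) ≤ Real.exp (u ^ 2 / 2) * (2 * Real.exp (u ^ 2 / 2)) := by gcongr
          _ = _ := by rw [e1]; ring
      calc _ ≤ (G * q) * (1 + |y|) := h1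
        _ = G * (q * (1 + |y|)) := by ring
        _ ≤ G * (2 * Real.exp (u ^ 2)) := by
            apply mul_le_mul_of_nonneg_left _ hG0.le
            exact (habs y).trans h4
        _ = 2 * G * 1 * 1 * Real.exp (u ^ 2) := by ring
        _ ≤ 2 * G * (1 + M) * Pη * Real.exp (u ^ 2) := by
            gcongr
            linarith
        _ ≤ _ := by
            have : 0 ≤ 2 * (C / δ) * (1 + M) * Pη * Real.exp (u ^ 2) := by positivity
            linarith
  have htl := three_lines (a := -(1 / 4)) (b := δ) (σ0 := 0) (t0 := t)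
    (lam := 4 * Real.log P) (by linarith) (by norm_num) hδ0.le hdc hgr hleft hright
  have e1 : Real.exp ((δ - -(1 / 4)) ^ 2) ≤ Real.exp 1 := by
    apply Real.exp_le_exp.mpr
    nlinarith
  have e2 : 2 * G * P * Real.exp (4 * Real.log P * (-(1 / 4) - 0)) = 2 * G := by
    have : Real.exp (4 * Real.log P * (-(1 / 4) - 0)) = P⁻¹ := by
      rw [show 4 * Real.log P * (-(1 / 4) - 0) = -Real.log P by ring, Real.exp_neg,
        Real.exp_log hP0]
    rw [this, mul_assoc, mul_inv_cancel₀ hP0.ne', mul_one]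
  have e3 : Real.exp (4 * Real.log P * (δ - 0)) ≤ 2 := by
    have h1 : 4 * Real.log P * (δ - 0) ≤ 1 / 2 := by
      rw [hδ, sub_zero, mul_one_div, div_le_iff₀ (by positivity)]
      linarith
    refine (Real.exp_le_exp.mpr h1).trans ?_
    have := Real.exp_bound_div_one_sub_of_interval (x := 1 / 2) (by norm_num) (by norm_num)
    norm_num at this ⊢
    linarith
  have hPε : 1 ≤ P ^ ε := Real.one_le_rpow hP1 hε.le
  have hP5 : Pη * P ^ η ≤ P ^ ε := by
    rw [hPη, ← Real.rpow_add hP0]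
    apply Real.rpow_le_rpow_of_exponent_le hP1
    linarith
  have hP4 : Pη ≤ P ^ ε := by
    rw [hPη]
    apply Real.rpow_le_rpow_of_exponent_le hP1
    linarith
  have e4 : C / δ ≤ 8 * C / η * P ^ η := by
    have h1 : C / δ = 8 * C * (1 + Real.log P) := by
      rw [hδ]
      field_simp
    rw [h1]
    calc 8 * C * (1 + Real.log P) ≤ 8 * C * (P ^ η / η) := by gcongr
      _ = _ := by ring
  have hmain : ‖DirichletCharacter.LFunction χ ⟨1 / 2, t⟩‖ = ‖h ⟨0, t⟩‖ := by
    simp only [hh]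
    rw [half_add]
    simp
  rw [hmain]
  refine htl.trans ?_
  have hmax : max (2 * G * P * Real.exp (4 * Real.log P * (-(1 / 4) - 0)))
      ((2 * (C / δ) + 2 * G) * (1 + M) * Pη * Real.exp (4 * Real.log P * (δ - 0))) ≤
      (2 * G + (32 * C / η + 4 * G)) * (1 + M) * P ^ ε := by
    have hpos1 : 0 ≤ (32 * C / η + 4 * G) * (1 + M) * P ^ ε := by positivity
    have hpos2 : 0 ≤ 2 * G * (1 + M) * P ^ ε := by positivity
    apply max_le
    · rw [e2]
      have h1 : 2 * G ≤ 2 * G * (1 + M) * P ^ ε := by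
        have h2 : 1 ≤ (1 + M) * P ^ ε := by nlinarith
        calc 2 * G = 2 * G * 1 := by ring
          _ ≤ 2 * G * ((1 + M) * P ^ ε) := by gcongr
          _ = _ := by ring
      linarith
    · have h1 : (2 * (C / δ) + 2 * G) * (1 + M) * Pη * Real.exp (4 * Real.log P * (δ - 0)) ≤
          (2 * (8 * C / η * P ^ η) + 2 * G) * (1 + M) * Pη * 2 := by
        gcongr
      have h2 : (2 * (8 * C / η * P ^ η) + 2 * G) * (1 + M) * Pη * 2 =
          32 * C / η * (1 + M) * (Pη * P ^ η) + 4 * G * (1 + M) * Pη := by ring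
      have h3 : 32 * C / η * (1 + M) * (Pη * P ^ η) ≤ 32 * C / η * (1 + M) * P ^ ε := by gcongr
      have h4 : 4 * G * (1 + M) * Pη ≤ 4 * G * (1 + M) * P ^ ε := by gcongr
      linarith
  have hexp3 : Real.exp 1 ≤ 3 := by linarith [Real.exp_one_lt_d9]
  calc _ ≤ 3 * ((2 * G + (32 * C / η + 4 * G)) * (1 + M) * P ^ ε) := by
        apply mul_le_mul (e1.trans hexp3) hmax _ (by norm_num)
        apply le_max_of_le_left
        positivity
    _ = _ := by ring

end H429.GP
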