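import Pool.Agent.H429R2.GP.App2
import Pool.Agent.H429R2.GP.RB
import Pool.Agent.H429R2.GP.Tr

/-!
Versions with logarithmic losses, for a fixed primitive character.
-/

open Complex Filter Topology Set Metric MeasureTheory

namespace H429.GP

open H370.DL

theorem re_logDeriv_Gammaℝ1 : ∃ C : ℝ, 0 ≤ C ∧ ∀ z : ℂ, 0 ≤ z.re → z.re ≤ 2 → 1 ≤ |z.im| →
    1 / 2 * Real.log (1 + |z.im|) - C ≤ (logDeriv Gammaℝ z).re := by
  obtain ⟨C1, hC10, hC1⟩ := logDeriv_Gammaℝ_bound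
  refine ⟨C1 + 1, by positivity, ?_⟩
  intro z hz1 hz2 h
  have hlog2 : Real.log 2 ≤ 1 := by
    have := Real.log_le_sub_one_of_pos (by norm_num : (0 : ℝ) < 2)
    linarith
  have h1 := hC1 z (by linarith) (by linarith) h
  have h2 := (abs_le.mp (abs_re_le_norm (logDeriv Gammaℝ z - 1 / 2 * Real.log |z.im|))).1
  have h3 : (logDeriv Gammaℝ z - 1 / 2 * Real.log |z.im|).re =
      (logDeriv Gammaℝ z).re - 1 / 2 * Real.log |z.im| := by
    rw [sub_re]
    congr 1
    have : (1 / 2 : ℂ) = ((1 / 2 : ℝ) : ℂ) := by push_cast; rfl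
    rw [this, ← ofReal_mul, ofReal_re]
  rw [h3] at h2
  have h4 : Real.log (1 + |z.im|) ≤ Real.log 2 + Real.log |z.im| := by
    rw [← Real.log_mul (by norm_num) (by linarith)]
    apply Real.log_le_log (by linarith)
    linarith
  linarith

/-- decay to the right of the critical line, away from the real axis -/
theorem XX_decay1 : ∃ C : ℝ, 0 ≤ C ∧
    ∀ (q : ℕ) [NeZero q] (χ : DirichletCharacter ℂ q), χ.IsPrimitive → ∀ x y : ℝ, 0 ≤ x →
      x ≤ 1 / 2 → 1 ≤ |y| →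
      ‖XX χ ⟨1 / 2 + x, y⟩‖ ≤ Real.exp (-x * (Real.log (q * (1 + |y|)) - C)) := by
  obtain ⟨C, hC0, hC⟩ := re_logDeriv_Gammaℝ1
  refine ⟨2 * C, by positivity, ?_⟩
  intro q _ χ hχ x y hx0 hx1 hy1
  have hq := one_le_q q
  have hyne : y ≠ 0 := by
    intro h
    rw [h, abs_zero] at hy1
    linarith
  have hoff : y ≠ 0 →
      ‖XX χ ⟨1 / 2 + x, y⟩‖ ≤ Real.exp (-x * (Real.log (q * (1 + |y|)) - 2 * C)) := by
    intro hy
    set μ : ℝ := Real.log (q * (1 + |y|)) - 2 * C with hμ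
    set φ : ℝ → ℂ := fun x => XX χ ⟨1 / 2 + x, y⟩ with hφ
    set N : ℝ → ℝ := fun x => ‖φ x‖ ^ 2 * Real.exp (2 * μ * x) with hN
    have hder : ∀ x : ℝ, 0 ≤ x → x ≤ 1 / 2 →
        HasDerivAt φ (φ x * logDeriv (XX χ) ⟨1 / 2 + x, y⟩) x := by
      intro x h0 h1
      have ha : AnalyticAt ℂ (XX χ) ⟨1 / 2 + x, y⟩ :=
        analyticAt_XX hy
      have h2 : HasDerivAt (fun x : ℝ => (⟨1 / 2 + x, y⟩ : ℂ)) 1 x := by
        have e : (fun x : ℝ => (⟨1 / 2 + x, y⟩ : ℂ)) = fun x : ℝ => (x : ℂ) + (1 / 2 + y * I) := by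
          funext x
          apply Complex.ext <;> simp
          ring
        rw [e]
        exact (ofRealCLM.hasDerivAt (x := x)).add_const _
      have h3 := HasDerivAt.comp x ha.differentiableAt.hasDerivAt h2
      have hne := XX_ne_zero hχ (s := ⟨1 / 2 + x, y⟩) hy
      have h4 : deriv (XX χ) ⟨1 / 2 + x, y⟩ * 1 = φ x * logDeriv (XX χ) ⟨1 / 2 + x, y⟩ := by
        rw [logDeriv_apply, mul_one]
        exact (mul_div_cancel₀ _ hne).symm
      rw [h4] at h3
      exact h3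
    have hre : ∀ x : ℝ, 0 ≤ x → x ≤ 1 / 2 →
        (logDeriv (XX χ) ⟨1 / 2 + x, y⟩).re ≤ -μ := by
      intro x h0 h1
      rw [logDeriv_XX hχ hy]
      have ha0 := aa_re_nonneg (χ := χ)
      have ha1 := aa_re_le (χ := χ)
      have b1 := hC (1 - ⟨1 / 2 + x, y⟩ + aa χ)
        (by rw [add_re, sub_re, one_re]; simp only; linarith)
        (by rw [add_re, sub_re, one_re]; simp only; linarith)
        (by simpa [aa_im] using hy1)
      have b2 := hC (⟨1 / 2 + x, y⟩ + aa χ) (by rw [add_re]; simp only; linarith)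
        (by rw [add_re]; simp only; linarith) (by simpa [aa_im] using hy1)
      have i1 : |((1 : ℂ) - ⟨1 / 2 + x, y⟩ + aa χ).im| = |y| := by
        simp [aa_im]
      have i2 : |((⟨1 / 2 + x, y⟩ : ℂ) + aa χ).im| = |y| := by
        simp [aa_im]
      rw [i1] at b1
      rw [i2] at b2
      rw [sub_re, sub_re, neg_re, ofReal_re, hμ, Real.log_mul (by linarith) (by positivity)]
      linarith
    have hNd : ∀ x : ℝ, 0 ≤ x → x ≤ 1 / 2 → ∃ d : ℝ, d ≤ 0 ∧ HasDerivAt N d x := by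
      intro x h0 h1
      have h2 := (hder x h0 h1).norm_sq
      have h3 : HasDerivAt (fun x : ℝ => Real.exp (2 * μ * x)) (Real.exp (2 * μ * x) * (2 * μ)) x := by
        have := ((hasDerivAt_id x).const_mul (2 * μ)).exp
        simpa using this
      refine ⟨_, ?_, h2.mul h3⟩
      have h4 : @inner ℝ ℂ _ (φ x) (φ x * logDeriv (XX χ) ⟨1 / 2 + x, y⟩) =
          ‖φ x‖ ^ 2 * (logDeriv (XX χ) ⟨1 / 2 + x, y⟩).re := by
        rw [Complex.inner]
        have : (φ x * logDeriv (XX χ) ⟨1 / 2 + x, y⟩) * (starRingEnd ℂ) (φ x) =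
            ((‖φ x‖ ^ 2 : ℝ) : ℂ) * logDeriv (XX χ) ⟨1 / 2 + x, y⟩ := by
          rw [← normSq_eq_norm_sq, ← mul_conj]
          ring
        rw [this, re_ofReal_mul]
      rw [h4]
      have h5 := hre x h0 h1
      have h6 : 0 ≤ ‖φ x‖ ^ 2 := by positivity
      have h7 : 0 < Real.exp (2 * μ * x) := Real.exp_pos _
      have h8 : 2 * (‖φ x‖ ^ 2 * (logDeriv (XX χ) ⟨1 / 2 + x, y⟩).re) * Real.exp (2 * μ * x) +
          ‖φ x‖ ^ 2 * (Real.exp (2 * μ * x) * (2 * μ)) =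
          2 * ‖φ x‖ ^ 2 * Real.exp (2 * μ * x) * ((logDeriv (XX χ) ⟨1 / 2 + x, y⟩).re + μ) := by
        ring
      rw [h8]
      exact mul_nonpos_of_nonneg_of_nonpos (by positivity) (by linarith)
    have hanti : AntitoneOn N (Icc 0 (1 / 2)) := by
      apply antitoneOn_of_deriv_nonpos (convex_Icc _ _)
      · intro x hx
        obtain ⟨d, -, hd⟩ := hNd x hx.1 hx.2
        exact hd.continuousAt.continuousWithinAt
      · intro x hx
        rw [interior_Icc] at hx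
        obtain ⟨d, -, hd⟩ := hNd x hx.1.le hx.2.le
        exact hd.differentiableAt.differentiableWithinAt
      · intro x hx
        rw [interior_Icc] at hx
        obtain ⟨d, hd0, hd⟩ := hNd x hx.1.le hx.2.le
        rw [hd.deriv]
        exact hd0
    have h1 := hanti (left_mem_Icc.mpr (by linarith)) ⟨hx0, hx1⟩ hx0
    simp only [hN, hφ] at h1
    rw [mul_zero, Real.exp_zero, mul_one, add_zero, norm_XX_line hχ, one_pow] at h1
    have h2 : Real.exp (-x * μ) ^ 2 * Real.exp (2 * μ * x) = 1 := by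
      rw [← Real.exp_nat_mul, ← Real.exp_add]
      rw [Real.exp_eq_one_iff]
      push_cast
      ring
    have h3 : 0 < Real.exp (2 * μ * x) := Real.exp_pos _
    have h4 : ‖XX χ ⟨1 / 2 + x, y⟩‖ ^ 2 ≤ Real.exp (-x * μ) ^ 2 := by
      exact le_of_mul_le_mul_right (h1.trans h2.symm.le) h3
    exact (sq_le_sq₀ (norm_nonneg _) (Real.exp_pos _).le).mp h4
  exact hoff hyne

theorem zeta_right : ∃ C : ℝ, 1 ≤ C ∧ ∀ η : ℝ, 0 < η → η ≤ 1 →
    ∑' n : ℕ, 1 / (n : ℝ) ^ (1 + η) ≤ C / η := by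
  have hc : ContinuousOn (fun x : ℝ => DirichletCharacter.LFunctionTrivChar₁ 1 (x:ℂ))
      (Set.Icc 1 2) := by
    have := (DirichletCharacter.differentiable_LFunctionTrivChar₁ 1).continuous
    exact (this.comp Complex.continuous_ofReal).continuousOn
  obtain ⟨C, hC⟩ := isCompact_Icc.exists_bound_of_continuousOn hc
  refine ⟨max 1 C, le_max_left _ _, ?_⟩
  intro η hη hη1
  have h1 := hC (1 + η) ⟨by linarith, by linarith⟩
  have hne : (((1 + η : ℝ)) : ℂ) ≠ 1 := by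
    intro h
    have : 1 + η = 1 := by exact_mod_cast h
    linarith
  rw [DirichletCharacter.LFunctionTrivChar₁, Function.update_of_ne hne, norm_mul] at h1
  rw [DirichletCharacter.LFunctionTrivChar, DirichletCharacter.LFunction_modOne_eq] at h1
  have h2 : ‖((1 + η : ℝ) : ℂ) - 1‖ = η := by
    rw [show ((1 + η : ℝ) : ℂ) - 1 = ((η : ℝ) : ℂ) by push_cast; ring, Complex.norm_real,
      Real.norm_eq_abs, abs_of_pos hη]
  rw [h2] at h1
  have h3 : ‖riemannZeta ((1 + η : ℝ) : ℂ)‖ = ∑' n : ℕ, 1 / (n : ℝ) ^ (1 + η) := by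
    have hre : 1 < (((1 + η : ℝ)) : ℂ).re := by rw [ofReal_re]; linarith
    rw [zeta_eq_tsum_one_div_nat_cpow hre]
    have h4 : (∑' n : ℕ, 1 / (n : ℂ) ^ (((1 + η : ℝ)) : ℂ)) =
        ((∑' n : ℕ, 1 / (n : ℝ) ^ (1 + η) : ℝ) : ℂ) := by
      rw [ofReal_tsum]
      refine tsum_congr fun n => ?_
      rw [ofReal_div, ofReal_one, ofReal_cpow (Nat.cast_nonneg n)]
      simp
    rw [h4, norm_real, Real.norm_eq_abs, abs_of_nonneg]
    exact tsum_nonneg fun n => by positivity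
  rw [h3] at h1
  rw [le_div_iff₀ hη]
  calc _ = η * ∑' n : ℕ, 1 / (n : ℝ) ^ (1 + η) := by ring
    _ ≤ C := h1
    _ ≤ _ := le_max_right _ _

/-- convexity bound close to the line `Re s = 1`, with explicit dependence on `η` -/
theorem convexity_explicit : ∃ C : ℝ, 0 < C ∧ ∀ η : ℝ, 0 < η → η ≤ 1 / 4 →
    ∀ (q : ℕ) [NeZero q] (χ : DirichletCharacter ℂ q), χ.IsPrimitive → ∀ t : ℝ,
      ‖DirichletCharacter.LFunction χ ⟨1 - η, t⟩‖ ≤ C / η * (q * (1 + |t|)) ^ (4 * η) := by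
  obtain ⟨CZ, hCZ1, hCZ⟩ := zeta_right
  refine ⟨3 * (32 + (CZ + 1)) + 1, by positivity, ?_⟩
  intro η hη hη4 q _ χ hχ t
  set Z : ℝ := ∑' n : ℕ, 1 / (n : ℝ) ^ (1 + η) with hZ
  have hZ0 : 0 ≤ Z := tsum_nonneg fun n => by positivity
  have hZle : Z ≤ CZ / η := hCZ η hη (by linarith)
  have hconst : Real.exp 1 * (32 + (Z + 1 / η)) + 1 / η ≤ (3 * (32 + (CZ + 1)) + 1) / η := by
    have e1 : Real.exp 1 ≤ 3 := by linarith [Real.exp_one_lt_d9]
    have e2 : (32 : ℝ) ≤ 32 / η := by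
      rw [le_div_iff₀ hη]; nlinarith
    have e3 : 0 ≤ 32 + (Z + 1 / η) := by positivity
    calc _ ≤ 3 * (32 / η + (CZ / η + 1 / η)) + 1 / η := by gcongr
      _ = _ := by ring
  suffices hsuff : ‖DirichletCharacter.LFunction χ ⟨1 - η, t⟩‖ ≤
      (Real.exp 1 * (32 + (Z + 1 / η)) + 1 / η) * (q * (1 + |t|)) ^ (4 * η) by
    refine hsuff.trans ?_
    gcongr
  obtain ⟨h, e, he, hd, hL, hb⟩ := exists_reg hχ
  have hq := one_le_q q
  set P : ℝ := q * (1 + |t|) with hP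
  have hP1 : 1 ≤ P := by rw [hP]; nlinarith [abs_nonneg t]
  have hP0 : 0 < P := by linarith
  have hgr : ∀ z : ℂ, 1 / 4 ≤ z.re → z.re ≤ 1 + η → ‖h z‖ ≤ (16 * q) * (1 + |z.im|) := by
    intro z h1 h2
    have hz : 0 < z.re := by linarith
    have h3 := hb z hz
    have h4 : ‖z‖ ≤ 5 / 4 + |z.im| := by
      refine (norm_le_abs_re_add_abs_im z).trans ?_
      rw [abs_of_pos hz]
      linarith
    have h5 : ((q : ℝ) + 1) / z.re ≤ 8 * q := by
      rw [div_le_iff₀ hz]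
      nlinarith
    have h6 : ‖z‖ * ((q + 1) / z.re) ≤ (5 / 4 + |z.im|) * (8 * q) :=
      mul_le_mul h4 h5 (by positivity) (by positivity)
    nlinarith [abs_nonneg z.im]
  have hright : ∀ y : ℝ, ‖h ⟨1 + η, y⟩‖ ≤ (Z + 1 / η) * Real.exp ((y - t) ^ 2) := by
    intro y
    have hs0 : (0 : ℝ) < (⟨1 + η, y⟩ : ℂ).re := by simp; linarith
    have hne : (⟨1 + η, y⟩ : ℂ) ≠ 1 := by
      intro h
      have := congrArg re h
      simp at this
      linarith
    have h1 := hL ⟨1 + η, y⟩ hs0 hne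
    have h2 : h ⟨1 + η, y⟩ = DirichletCharacter.LFunction χ ⟨1 + η, y⟩ -
        e * (1 / ((⟨1 + η, y⟩ : ℂ) - 1)) := by rw [h1]; ring
    rw [h2]
    have h3 := norm_L_right (χ := χ) hη (s := ⟨1 + η, y⟩) rfl
    have h7 : ‖e * (1 / ((⟨1 + η, y⟩ : ℂ) - 1))‖ ≤ 1 / η := by
      rcases he with he | he
      · rw [he, zero_mul, norm_zero]; positivity
      · rw [he, one_mul, norm_div, norm_one]
        apply one_div_le_one_div_of_le hη
        have := abs_re_le_norm ((⟨1 + η, y⟩ : ℂ) - 1)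
        simp only [sub_re, one_re, add_sub_cancel_left] at this
        rwa [abs_of_pos hη] at this
    calc _ ≤ Z + 1 / η := (norm_sub_le _ _).trans (add_le_add h3 h7)
      _ = (Z + 1 / η) * 1 := by ring
      _ ≤ _ := by
        apply mul_le_mul_of_nonneg_left _ (by positivity)
        exact Real.one_le_exp (sq_nonneg _)
  have hleft : ∀ y : ℝ, ‖h ⟨1 / 4, y⟩‖ ≤ (32 * P) * Real.exp ((y - t) ^ 2) := by
    intro y
    have h1 := hgr ⟨1 / 4, y⟩ (by norm_num) (by simp; linarith)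
    refine h1.trans ?_
    have h2 : 1 + |y| ≤ (1 + |t|) * (1 + |y - t|) := by
      have : |y| ≤ |t| + |y - t| := by
        calc |y| = |t + (y - t)| := by ring_nf
          _ ≤ _ := abs_add_le _ _
      nlinarith [abs_nonneg t, abs_nonneg (y - t)]
    have h3 := one_add_le_gauss |y - t|
    rw [sq_abs] at h3
    calc (16 * (q : ℝ)) * (1 + |y|) ≤ (16 * q) * ((1 + |t|) * (2 * Real.exp ((y - t) ^ 2))) := by
          gcongr
          exact h2.trans (by gcongr)
      _ = _ := by rw [hP]; ring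
  have hdc : DiffContOnCl ℂ h {z | (1 / 4 : ℝ) < z.re ∧ z.re < 1 + η} := by
    have hcl : closure {z : ℂ | (1 / 4 : ℝ) < z.re ∧ z.re < 1 + η} ⊆ {z | 0 < z.re} := by
      have h5 : {z : ℂ | (1 / 4 : ℝ) < z.re ∧ z.re < 1 + η} = re ⁻¹' (Ioo (1 / 4) (1 + η)) := rfl
      rw [h5, closure_preimage_re, closure_Ioo (by linarith)]
      intro z hz
      have : (1 / 4 : ℝ) ≤ z.re := hz.1
      change 0 < z.re
      linarith
    exact (hd.mono hcl).diffContOnCl
  have htl := three_lines (a := 1 / 4) (b := 1 + η) (σ0 := 1 - η) (t0 := t)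
    (lam := 2 * Real.log P) (by linarith) (by linarith) (by linarith) hdc hgr hleft hright
  have he1 : Real.exp ((1 + η - 1 / 4) ^ 2) ≤ Real.exp 1 := by
    apply Real.exp_le_exp.mpr
    nlinarith
  have hm1 : 32 * P * Real.exp (2 * Real.log P * (1 / 4 - (1 - η))) ≤
      32 * P ^ (4 * η) := by
    have h1 : Real.exp (2 * Real.log P * (1 / 4 - (1 - η))) =
        P ^ (2 * (1 / 4 - (1 - η))) := by
      rw [Real.rpow_def_of_pos hP0]; congr 1; ring
    rw [h1]
    have h2 : P * P ^ (2 * (1 / 4 - (1 - η))) = P ^ (1 + 2 * (1 / 4 - (1 - η))) := by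
      rw [Real.rpow_add hP0, Real.rpow_one]
    rw [mul_assoc, h2]
    apply mul_le_mul_of_nonneg_left _ (by norm_num)
    exact Real.rpow_le_rpow_of_exponent_le hP1 (by linarith)
  have hm2 : (Z + 1 / η) * Real.exp (2 * Real.log P * (1 + η - (1 - η))) =
      (Z + 1 / η) * P ^ (4 * η) := by
    rw [Real.rpow_def_of_pos hP0]; congr 2; ring
  have hPη : 1 ≤ P ^ (4 * η) := Real.one_le_rpow hP1 (by positivity)
  have hmain : ‖h ⟨1 - η, t⟩‖ ≤ Real.exp 1 * (32 + (Z + 1 / η)) * P ^ (4 * η) := by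
    refine htl.trans ?_
    rw [mul_assoc (Real.exp 1)]
    apply mul_le_mul he1 _ (by positivity) (by positivity)
    apply max_le
    · refine hm1.trans ?_
      have : 0 ≤ (Z + 1 / η) * P ^ (4 * η) := by positivity
      linarith
    · rw [hm2]
      have : 0 ≤ 32 * P ^ (4 * η) := by positivity
      linarith
  have hs0 : (0 : ℝ) < (⟨1 - η, t⟩ : ℂ).re := by simp; linarith
  have hne : (⟨1 - η, t⟩ : ℂ) ≠ 1 := by
    intro h
    have := congrArg re h
    simp at this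
    linarith
  rw [hL ⟨1 - η, t⟩ hs0 hne]
  have h7 : ‖e * (1 / ((⟨1 - η, t⟩ : ℂ) - 1))‖ ≤ 1 / η := by
    rcases he with he | he
    · rw [he, zero_mul, norm_zero]; positivity
    · rw [he, one_mul, norm_div, norm_one]
      apply one_div_le_one_div_of_le hη
      have := abs_re_le_norm ((⟨1 - η, t⟩ : ℂ) - 1)
      simp only [sub_re, one_re] at this
      rw [abs_sub_comm, abs_of_nonneg (by linarith)] at this
      linarith
  calc _ ≤ ‖h ⟨1 - η, t⟩‖ + ‖e * (1 / ((⟨1 - η, t⟩ : ℂ) - 1))‖ := norm_add_le _ _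
    _ ≤ Real.exp 1 * (32 + (Z + 1 / η)) * P ^ (4 * η) + 1 / η * P ^ (4 * η) := by
      apply add_le_add hmain
      refine h7.trans ?_
      have : 0 ≤ 1 / η := by positivity
      nlinarith
    _ = _ := by ring


end H429.GP
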