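import Pool.Agent.H429R2.GP.LogB

/-!
Versions with logarithmic losses, for a fixed primitive character.
-/

open Complex Filter Topology Set Metric MeasureTheory

namespace H429.GP

open H370.DL

theorem gram_far {η u P B0 L : ℝ} {y t0 q : ℝ} (hη : 0 < η) (hu0 : 0 ≤ u) (hP0 : 0 < P)
    (hfar : 4 * Real.log P ≤ u ^ 2) (hP1 : 1 ≤ P)
    (hL : -((9 + 1 / η) * (P * (1 + u))) ≤ L) :
    -(2 * (9 + 1 / η) * Real.exp (-u ^ 2 / 2)) ≤ L * Real.exp (-u ^ 2) := by
  have h4 : P * Real.exp (-u ^ 2 / 4) ≤ 1 := by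
    have e1 : Real.exp (-u ^ 2 / 4) ≤ Real.exp (-Real.log P) :=
      Real.exp_le_exp.mpr (by linarith)
    rw [Real.exp_neg, Real.exp_log hP0] at e1
    calc P * Real.exp (-u ^ 2 / 4) ≤ P * P⁻¹ := by gcongr
      _ = 1 := mul_inv_cancel₀ hP0.ne'
  have h5 := gauss_aux hu0
  have h6 : P * (1 + u) * Real.exp (-u ^ 2) ≤ 2 * Real.exp (-u ^ 2 / 2) := by
    have e1 : Real.exp (-u ^ 2) = Real.exp (-u ^ 2 / 4) * Real.exp (-u ^ 2 / 4) *
        Real.exp (-u ^ 2 / 2) := by
      rw [← Real.exp_add, ← Real.exp_add]; congr 1; ring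
    calc P * (1 + u) * Real.exp (-u ^ 2) = (P * Real.exp (-u ^ 2 / 4)) *
          ((1 + u) * Real.exp (-u ^ 2 / 4)) * Real.exp (-u ^ 2 / 2) := by rw [e1]; ring
      _ ≤ 1 * 2 * Real.exp (-u ^ 2 / 2) := by gcongr
      _ = _ := by ring
  have h7 := mul_le_mul_of_nonneg_right hL (Real.exp_pos (-u ^ 2)).le
  have h8 : (9 + 1 / η) * (P * (1 + u) * Real.exp (-u ^ 2)) ≤
      (9 + 1 / η) * (2 * Real.exp (-u ^ 2 / 2)) := by gcongr
  linarith

/-- bound slightly to the right of the critical line, logarithmic losses -/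
theorem right_bound_log {q : ℕ} [NeZero q] {χ : DirichletCharacter ℂ q} (hχ : χ.IsPrimitive)
    {ω : ℂ} (hω : ‖ω‖ = 1) :
    ∃ C : ℝ, 0 < C ∧ ∀ M : ℝ, 0 ≤ M →
      ∀ t0 δ : ℝ, GramBound q χ ω t0 (2 * √(Real.log (q * (1 + |t0|)))) M → 0 < δ → δ < 1 / 4 →
        ‖DirichletCharacter.LFunction χ ⟨1 / 2 + δ, t0⟩‖ ≤
          C / δ * (1 + Real.log (q * (1 + |t0|)) + M) := by
  obtain ⟨cX, hcX0, hcX⟩ := XX_decay1
  obtain ⟨C1, hC1, hconv⟩ := convexity_explicit
  set Q : ℝ := Real.exp (cX + 1) with hQ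
  have hQ1 : 1 ≤ Q := Real.one_le_exp (by linarith)
  obtain ⟨ya, ha1, ha2, ca, hca, hba⟩ := exists_bot1 hχ (hcX q χ hχ) hω (s := 1) (Or.inl rfl)
    (Q := Q) le_rfl hQ1
  obtain ⟨yb, hb1, hb2, cb, hcb, hbb⟩ := exists_bot1 hχ (hcX q χ hχ) hω (s := -1) (Or.inr rfl)
    (Q := Q) le_rfl hQ1
  have hbot : ∀ s : ℝ, (s = 1 ∨ s = -1) → ∃ y1 : ℝ, Q ≤ y1 ∧ y1 ≤ Q + 1 ∧
      BotOK q χ ω (1 / 2) s y1 (min ca cb) := by
    intro s hs
    rcases hs with h | h
    · rw [h]; exact ⟨ya, ha1, ha2, hba.mono (min_le_left _ _)⟩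
    · rw [h]; exact ⟨yb, hb1, hb2, hbb.mono (min_le_right _ _)⟩
  have hE1 : Real.exp (1 / 4) ≤ 2 := by
    have := Real.exp_bound_div_one_sub_of_interval (x := 1 / 4) (by norm_num) (by norm_num)
    norm_num at this ⊢
    linarith
  have hE2 : Real.exp (1 / 2) ≤ 2 := by
    have := Real.exp_bound_div_one_sub_of_interval (x := 1 / 2) (by norm_num) (by norm_num)
    norm_num at this ⊢
    linarith
  have hq := one_le_q q
  set cs : ℝ := 1 - Real.exp (-(3 / 8)) with hcs
  have hcs0 : 0 < cs := by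
    rw [hcs]
    have : Real.exp (-(3 / 8)) < 1 := by rw [Real.exp_lt_one_iff]; norm_num
    linarith
  set c : ℝ := min cs (min ca cb) with hc
  have hcpos : 0 < c := lt_min hcs0 (lt_min hca hcb)
  set C2 : ℝ := 48 * C1 + 34 * (q * (2 + Q)) with hC2
  have hC2pos : 0 < C2 := by positivity
  set C3 : ℝ := 17 * (q * (3 + Q)) with hC3
  have hC3pos : 0 < C3 := by positivity
  refine ⟨52 * ((C2 + 136) / c) + 68 + C3, by positivity, ?_⟩
  intro M hM t0 δ hone hδ hδ4
  set P : ℝ := q * (1 + |t0|) with hP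
  have hP1 : 1 ≤ P := by rw [hP]; nlinarith [abs_nonneg t0]
  have hP0 : 0 < P := by linarith
  have hlogP : 0 ≤ Real.log P := Real.log_nonneg hP1
  set ℓ : ℝ := 1 + Real.log P with hℓ
  have hℓ1 : 1 ≤ ℓ := by linarith
  set η : ℝ := 1 / (8 * ℓ) with hηdef
  have hη : 0 < η := by positivity
  have hη8 : η ≤ 1 / 8 := by
    rw [hηdef]
    apply one_div_le_one_div_of_le (by norm_num)
    linarith
  have hηinv : 1 / η = 8 * ℓ := by rw [hηdef, one_div_one_div]
  have hPη : P ^ (4 * η) ≤ 2 := by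
    rw [Real.rpow_def_of_pos hP0]
    refine (Real.exp_le_exp.mpr ?_).trans hE2
    rw [hηdef]
    rw [show Real.log P * (4 * (1 / (8 * ℓ))) = Real.log P / (2 * ℓ) by field_simp; ring]
    rw [div_le_iff₀ (by positivity)]
    linarith
  set B : ℝ := M + 34 * ℓ with hB
  have hBpos : 0 ≤ B := by positivity
  have hgram : ∀ y : ℝ, XX χ ⟨1 / 2, y⟩ = ω ^ 2 →
      0 ≤ ((starRingEnd ℂ) ω * DirichletCharacter.LFunction χ ⟨1 / 2, y⟩).re *
        Real.exp (-(y - t0) ^ 2) + B * Real.exp (-(y - t0) ^ 2 / 2) := by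
    intro y hy
    set u : ℝ := |y - t0| with hu
    have hu0 : 0 ≤ u := abs_nonneg _
    have hsq : (y - t0) ^ 2 = u ^ 2 := (sq_abs _).symm
    rw [hsq]
    rcases le_or_gt u (2 * √(Real.log P)) with hclose | hfar
    · have h1 := hone y hclose hy
      have h2 : Real.exp (-u ^ 2) ≤ Real.exp (-u ^ 2 / 2) := by
        apply Real.exp_le_exp.mpr
        nlinarith [sq_nonneg u]
      have h3 := mul_le_mul_of_nonneg_right h1 (Real.exp_pos (-u ^ 2)).le
      have h4 : M * Real.exp (-u ^ 2) ≤ M * Real.exp (-u ^ 2 / 2) :=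
        mul_le_mul_of_nonneg_left h2 hM
      have h5 : 0 ≤ 34 * ℓ * Real.exp (-u ^ 2 / 2) := by positivity
      rw [hB]
      linarith
    · have h1 : 4 * Real.log P ≤ u ^ 2 := by
        have h2 : (2 * √(Real.log P)) ^ 2 ≤ u ^ 2 := by
          apply pow_le_pow_left₀ (by positivity) hfar.le
        rw [mul_pow, Real.sq_sqrt hlogP] at h2
        linarith
      have hgr := growth hχ hη (s := ⟨1 / 2, y⟩) (by norm_num) (by simp only; linarith)
      simp only at hgr
      have h2 : (q : ℝ) * (1 + |y|) ≤ P * (1 + u) := by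
        have h3 : |y| ≤ |t0| + |y - t0| := by
          calc |y| = |t0 + (y - t0)| := by ring_nf
            _ ≤ _ := abs_add_le _ _
        have h4 : 1 + |y| ≤ (1 + |t0|) * (1 + u) := by
          nlinarith [abs_nonneg t0]
        calc (q : ℝ) * (1 + |y|) ≤ q * ((1 + |t0|) * (1 + u)) := by gcongr
          _ = _ := by rw [hP]; ring
      have h3 : -((9 + 1 / η) * (P * (1 + u))) ≤
          ((starRingEnd ℂ) ω * DirichletCharacter.LFunction χ ⟨1 / 2, y⟩).re := by
        have e1 := (abs_le.mp (abs_re_le_norm ((starRingEnd ℂ) ω *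
          DirichletCharacter.LFunction χ ⟨1 / 2, y⟩))).1
        rw [norm_mul, RCLike.norm_conj, hω, one_mul] at e1
        have e2 : (9 + 1 / η) * (q * (1 + |y|)) ≤ (9 + 1 / η) * (P * (1 + u)) := by gcongr
        linarith
      have h4 := gram_far (y := y) (t0 := t0) (q := q) (B0 := 0) hη hu0 hP0 h1 hP1 h3
      rw [hηinv] at h4
      have h5 : 2 * (9 + 8 * ℓ) * Real.exp (-u ^ 2 / 2) ≤ 34 * ℓ * Real.exp (-u ^ 2 / 2) := by
        apply mul_le_mul_of_nonneg_right _ (Real.exp_pos _).le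
        linarith
      have h6 : 0 ≤ M * Real.exp (-u ^ 2 / 2) := by positivity
      rw [hB]
      linarith
  set F0 : ℝ := C2 * ℓ with hF0
  have hF0pos : 0 < F0 := by positivity
  have hFside : ∀ y : ℝ, ‖DirichletCharacter.LFunction χ ⟨1 - η, y⟩‖ *
      Real.exp (1 / 4 - (y - t0) ^ 2) ≤ F0 := by
    intro y
    have h1 := hconv η hη (by linarith) q χ hχ y
    have h2 := rpow_shiftL (t0 := t0) (y := y) hq (by positivity : 0 ≤ 4 * η)
    rw [div_eq_mul_one_div, hηinv] at h1
    have h3 : ((q : ℝ) * (1 + |y|)) ^ (4 * η) ≤ 2 * Real.exp (4 * η * |y - t0|) :=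
      h2.trans (mul_le_mul_of_nonneg_right hPη (Real.exp_pos _).le)
    calc _ ≤ (C1 * (8 * ℓ) * (2 * Real.exp (4 * η * |y - t0|))) *
          Real.exp (1 / 4 - (y - t0) ^ 2) := by
          apply mul_le_mul_of_nonneg_right _ (Real.exp_pos _).le
          exact h1.trans (mul_le_mul_of_nonneg_left h3 (by positivity))
      _ = 16 * C1 * ℓ * (Real.exp (4 * η * |y - t0|) * Real.exp (1 / 4 - (y - t0) ^ 2)) := by
          ring
      _ ≤ 16 * C1 * ℓ * 3 := by
          apply mul_le_mul_of_nonneg_left _ (by positivity)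
          rw [← Real.exp_add]
          have h3 : 4 * η * |y - t0| + (1 / 4 - (y - t0) ^ 2) ≤ 1 := by
            rw [← sq_abs (y - t0)]
            have h4 : 4 * η * |y - t0| ≤ 1 / 2 * |y - t0| := by
              apply mul_le_mul_of_nonneg_right _ (abs_nonneg _)
              linarith
            nlinarith [sq_nonneg (|y - t0| - 1 / 4)]
          exact (Real.exp_le_exp.mpr h3).trans (by linarith [Real.exp_one_lt_d9])
      _ ≤ F0 := by
          rw [hF0, hC2]
          have : 0 ≤ 34 * (q * (2 + Q)) * ℓ := by positivity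
          linarith
  rcases le_or_gt |t0| (Q + 2) with ht | ht
  · have h1 := growth hχ (η := 1 / 8) (by norm_num) (s := ⟨1 / 2 + δ, t0⟩)
      (by simp only; linarith) (by simp only; linarith)
    have h2 : (9 + 1 / (1 / 8)) * (q * (1 + |t0|)) ≤ C3 := by
      rw [hC3]
      have h3 : 1 + |t0| ≤ 3 + Q := by linarith
      have h4 : (q : ℝ) * (1 + |t0|) ≤ q * (3 + Q) := mul_le_mul_of_nonneg_left h3 (by linarith)
      norm_num
      linarith
    have h3 : C3 ≤ C3 / δ * (ℓ + M) := by
      have e1 : C3 ≤ C3 / δ := by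
        rw [le_div_iff₀ hδ]
        nlinarith
      have e2 : 0 < C3 / δ := by positivity
      nlinarith
    refine (h1.trans (h2.trans h3)).trans ?_
    have h5 : C3 / δ ≤ (52 * ((C2 + 136) / c) + 68 + C3) / δ := by
      gcongr
      have : 0 ≤ 52 * ((C2 + 136) / c) + 68 := by positivity
      linarith
    exact mul_le_mul_of_nonneg_right h5 (by positivity)
  · obtain ⟨s, hs1, hst⟩ : ∃ s : ℝ, (s = 1 ∨ s = -1) ∧ s * t0 = |t0| := by
      rcases le_or_gt 0 t0 with h | h
      · exact ⟨1, Or.inl rfl, by rw [one_mul, abs_of_nonneg h]⟩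
      · exact ⟨-1, Or.inr rfl, by rw [neg_one_mul, abs_of_neg h]⟩
    obtain ⟨y1, h1, h2, h3⟩ := hbot s hs1
    have habs : ∀ y : ℝ, s * y ≤ |y| := by
      intro y
      rcases hs1 with h | h
      · rw [h, one_mul]; exact le_abs_self y
      · rw [h, neg_one_mul]; exact neg_le_abs y
    have hmain := app_local' hη hη8 (cX := cX) (s := s) (y1 := y1)
      (fun x y hx0 hx1 hy => hcX q χ hχ x y hx0 (by linarith)
        (hQ1.trans (h1.trans (hy.trans (habs y))))) hχ hω
      (by
        intro y hy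
        have h4 : Q ≤ |y| := h1.trans (hy.trans (habs y))
        rw [Real.le_log_iff_exp_le (by positivity)]
        nlinarith [abs_nonneg y])
      hBpos hF0pos hcpos hgram hFside
      (by
        intro x y hx0 hx1 hy
        have h4 : |y| = y1 := by
          have h5 : |s * y| = |y| := by
            rw [abs_mul]
            rcases hs1 with h | h <;> rw [h] <;> simp
          rw [← h5, hy, abs_of_nonneg (by linarith)]
        have h6 := growth hχ hη (s := ⟨1 / 2 + x, y⟩) (by simp only; linarith)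
          (by simp only; linarith)
        simp only at h6
        rw [h4, hηinv] at h6
        have h7 : (9 + 8 * ℓ) * (q * (1 + y1)) ≤ 17 * ℓ * (q * (2 + Q)) := by
          have e1 : 9 + 8 * ℓ ≤ 17 * ℓ := by linarith
          have e2 : (q : ℝ) * (1 + y1) ≤ q * (2 + Q) :=
            mul_le_mul_of_nonneg_left (by linarith) (by linarith)
          have e3 : 0 ≤ (q : ℝ) * (1 + y1) := mul_nonneg (by linarith) (by linarith)
          exact mul_le_mul e1 e2 e3 (by positivity)
        calc _ ≤ (17 * ℓ * (q * (2 + Q))) * 2 :=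
              mul_le_mul (h6.trans h7) hE1 (Real.exp_pos _).le (by positivity)
          _ ≤ F0 := by
            rw [hF0, hC2]
            have : 0 ≤ 48 * C1 * ℓ := by positivity
            linarith)
      (by
        have h4 : cs ≤ 1 - Real.exp (-(1 / 2 - η)) := by
          rw [hcs]
          have : Real.exp (-(1 / 2 - η)) ≤ Real.exp (-(3 / 8)) :=
            Real.exp_le_exp.mpr (by linarith)
          linarith
        exact (min_le_left _ _).trans h4)
      (by
        intro x y r hx0 hx1 hy hr0 hr1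
        exact (min_le_right _ _).trans (h3 x y r hx0 (by linarith) hy hr0 hr1))
      hδ (by linarith)
      (by
        intro y hy
        have h4 : s * y = s * t0 + s * (y - t0) := by ring
        have h5 : -1 ≤ s * (y - t0) := by
          have h6 := abs_le.mp hy
          rcases hs1 with h | h
          · rw [h, one_mul]; exact h6.1
          · rw [h, neg_one_mul]; linarith [h6.2]
        rw [h4, hst]
        linarith)
    refine hmain.trans ?_
    have e1 : F0 + 4 * B ≤ (C2 + 136) * (ℓ + M) := by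
      rw [hF0, hB]
      nlinarith
    have e2 : 52 * ((F0 + 4 * B) / c) / δ ≤ 52 * ((C2 + 136) / c) / δ * (ℓ + M) := by
      have : 52 * ((C2 + 136) / c) / δ * (ℓ + M) = 52 * (((C2 + 136) * (ℓ + M)) / c) / δ := by
        field_simp
      rw [this]
      gcongr
    have e3 : 2 * B ≤ 68 / δ * (ℓ + M) := by
      have e4 : 68 / δ * (ℓ + M) = (68 * (ℓ + M)) / δ := by ring
      rw [e4, le_div_iff₀ hδ, hB]
      nlinarith
    have e5 : 0 ≤ C3 / δ * (ℓ + M) := by positivity
    calc _ ≤ 52 * ((C2 + 136) / c) / δ * (ℓ + M) + 68 / δ * (ℓ + M) := add_le_add e2 e3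
      _ ≤ 52 * ((C2 + 136) / c) / δ * (ℓ + M) + 68 / δ * (ℓ + M) + C3 / δ * (ℓ + M) := by
        linarith
      _ = _ := by ring

/-- the local transfer theorem with logarithmic losses, for a fixed primitive character -/
theorem local_transfer_log {q : ℕ} [NeZero q] {χ : DirichletCharacter ℂ q} (hχ : χ.IsPrimitive)
    {ω : ℂ} (hω : ‖ω‖ = 1) :
    ∃ C : ℝ, 0 < C ∧ ∀ t M : ℝ, 0 ≤ M →
      GramBound q χ ω t (6 * √(1 + Real.log (q * (1 + |t|)))) M →
        ‖DirichletCharacter.LFunction χ ⟨1 / 2, t⟩‖ ≤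
          C * (1 + Real.log (q * (1 + |t|))) * (1 + Real.log (q * (1 + |t|)) + M) := by
  obtain ⟨C, hC, hr⟩ := right_bound_log hχ hω
  refine ⟨3 * (34 + 2 * (16 * C + 34)), by positivity, ?_⟩
  intro t M hM hone
  have hq := one_le_q q
  set P : ℝ := q * (1 + |t|) with hP
  have hP1 : 1 ≤ P := by rw [hP]; nlinarith [abs_nonneg t]
  have hP0 : 0 < P := by linarith
  have hlogP : 0 ≤ Real.log P := Real.log_nonneg hP1
  set ℓ : ℝ := 1 + Real.log P with hℓ
  have hℓ1 : 1 ≤ ℓ := by linarith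
  set δ : ℝ := 1 / (8 * ℓ) with hδ
  have hδ0 : 0 < δ := by positivity
  have hδ8 : δ ≤ 1 / 8 := by
    rw [hδ]
    apply one_div_le_one_div_of_le (by norm_num)
    linarith
  set h : ℂ → ℂ := fun z => DirichletCharacter.LFunction χ (1 / 2 + z) with hh
  have hdc : DiffContOnCl ℂ h {z | (-(1 / 4) : ℝ) < z.re ∧ z.re < δ} := by
    have hcl : closure {z : ℂ | (-(1 / 4) : ℝ) < z.re ∧ z.re < δ} ⊆ {z | z.re < 1 / 2} := by
      have h5 : {z : ℂ | (-(1 / 4) : ℝ) < z.re ∧ z.re < δ} = re ⁻¹' (Ioo (-(1 / 4)) δ) := rfl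
      rw [h5, closure_preimage_re, closure_Ioo (by linarith)]
      intro z hz
      have : z.re ≤ δ := hz.2
      change z.re < 1 / 2
      linarith
    apply DifferentiableOn.diffContOnCl
    intro z hz
    have hz' : z.re < 1 / 2 := hcl hz
    apply DifferentiableAt.differentiableWithinAt
    have h3 : (1 / 2 : ℂ) + z ≠ 1 := by
      rw [half_add]
      intro h
      have := congrArg re h
      simp only [one_re] at this
      linarith
    exact DifferentiableAt.comp (g := DirichletCharacter.LFunction χ) (f := fun z : ℂ => 1 / 2 + z) z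
        (analyticAt_L h3).differentiableAt (by fun_prop)
  have hgr : ∀ z : ℂ, -(1 / 4) ≤ z.re → z.re ≤ δ → ‖h z‖ ≤ (17 * q) * (1 + |z.im|) := by
    intro z h1 h2
    simp only [hh]
    rw [half_add]
    have := growth hχ (η := 1 / 8) (by norm_num) (s := ⟨1 / 2 + z.re, z.im⟩)
      (by simp only; linarith) (by simp only; linarith)
    refine this.trans (le_of_eq ?_)
    simp only
    norm_num
    ring
  have habs : ∀ y : ℝ, (q : ℝ) * (1 + |y|) ≤ P * (1 + |y - t|) := by
    intro y
    have h3 : |y| ≤ |t| + |y - t| := by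
      calc |y| = |t + (y - t)| := by ring_nf
        _ ≤ _ := abs_add_le _ _
    have h4 : 1 + |y| ≤ (1 + |t|) * (1 + |y - t|) := by
      nlinarith [abs_nonneg t, abs_nonneg (y - t)]
    calc (q : ℝ) * (1 + |y|) ≤ q * ((1 + |t|) * (1 + |y - t|)) := by gcongr
      _ = _ := by rw [hP]; ring
  have hleft : ∀ y : ℝ, ‖h ⟨-(1 / 4), y⟩‖ ≤ (34 * P) * Real.exp ((y - t) ^ 2) := by
    intro y
    have h1 := hgr ⟨-(1 / 4), y⟩ (by norm_num) (by simp only; linarith)
    refine h1.trans ?_
    have h3 := one_add_le_gauss |y - t|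
    rw [sq_abs] at h3
    calc (17 * (q : ℝ)) * (1 + |y|) = 17 * (q * (1 + |y|)) := by ring
      _ ≤ 17 * (P * (2 * Real.exp ((y - t) ^ 2))) := by
          apply mul_le_mul_of_nonneg_left _ (by norm_num)
          exact (habs y).trans (mul_le_mul_of_nonneg_left h3 hP0.le)
      _ = _ := by ring
  have hright : ∀ y : ℝ, ‖h ⟨δ, y⟩‖ ≤
      ((16 * C + 34) * ℓ * (ℓ + M)) * Real.exp ((y - t) ^ 2) := by
    intro y
    set u : ℝ := |y - t| with hu
    have hu0 : 0 ≤ u := abs_nonneg _
    have hsq : (y - t) ^ 2 = u ^ 2 := (sq_abs _).symm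
    rw [hsq]
    have hCδ : C / δ = 8 * C * ℓ := by
      rw [hδ]; field_simp
    have hE1 : 1 ≤ Real.exp (u ^ 2) := Real.one_le_exp (by positivity)
    rcases le_or_gt u (√(2 * Real.log P)) with hclose | hfar
    · have hgy : GramBound q χ ω y (2 * √(Real.log (q * (1 + |y|)))) M := by
        intro y' hy' hX
        exact hone y' (window_aux hq hP hclose hy') hX
      have h1 := hr M hM y δ hgy hδ0 (by linarith)
      rw [hCδ] at h1
      have h2 : 1 + Real.log (q * (1 + |y|)) ≤ ℓ + u := by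
        have h6 : Real.log (q * (1 + |y|)) ≤ Real.log (P * (1 + u)) :=
          Real.log_le_log (by positivity) (habs y)
        have hPne : P ≠ 0 := by linarith
        have hune : 1 + u ≠ 0 := by linarith
        rw [Real.log_mul hPne hune] at h6
        have h7 : Real.log (1 + u) ≤ u := by
          have := Real.log_le_sub_one_of_pos (by linarith : 0 < 1 + u)
          linarith
        rw [hℓ]
        linarith
      have h3 : 1 + Real.log (q * (1 + |y|)) + M ≤ (ℓ + M) * (2 * Real.exp (u ^ 2)) := by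
        have h4 := one_add_le_gauss u
        have h5 : ℓ + u + M ≤ (ℓ + M) * (1 + u) := by nlinarith
        have h6 : (ℓ + M) * (1 + u) ≤ (ℓ + M) * (2 * Real.exp (u ^ 2)) :=
          mul_le_mul_of_nonneg_left h4 (by positivity)
        linarith
      simp only [hh]
      rw [half_add]
      simp only
      calc _ ≤ 8 * C * ℓ * (1 + Real.log (q * (1 + |y|)) + M) := h1
        _ ≤ 8 * C * ℓ * ((ℓ + M) * (2 * Real.exp (u ^ 2))) :=
            mul_le_mul_of_nonneg_left h3 (by positivity)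
        _ ≤ 8 * C * ℓ * ((ℓ + M) * (2 * Real.exp (u ^ 2))) +
            34 * ℓ * (ℓ + M) * Real.exp (u ^ 2) := by
            have : 0 ≤ 34 * ℓ * (ℓ + M) * Real.exp (u ^ 2) := by positivity
            linarith
        _ = _ := by ring
    · have h1 := hgr ⟨δ, y⟩ (by simp only; linarith) le_rfl
      have h2 : P ≤ Real.exp (u ^ 2 / 2) := by
        have e1 : 2 * Real.log P ≤ u ^ 2 := by
          have e2 : (√(2 * Real.log P)) ^ 2 ≤ u ^ 2 :=
            pow_le_pow_left₀ (Real.sqrt_nonneg _) hfar.le 2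
          rwa [Real.sq_sqrt (by positivity)] at e2
        rw [← Real.log_le_iff_le_exp hP0]
        linarith
      have h3 : 1 + u ≤ 2 * Real.exp (u ^ 2 / 2) := by
        have := Real.add_one_le_exp (u ^ 2 / 2)
        nlinarith [sq_nonneg (u - 1)]
      have h4 : P * (1 + u) ≤ 2 * Real.exp (u ^ 2) := by
        have e1 : Real.exp (u ^ 2) = Real.exp (u ^ 2 / 2) * Real.exp (u ^ 2 / 2) := by
          rw [← Real.exp_add]; congr 1; ring
        calc P * (1 + u) ≤ Real.exp (u ^ 2 / 2) * (2 * Real.exp (u ^ 2 / 2)) := by gcongr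
          _ = _ := by rw [e1]; ring
      have h5 : (1 : ℝ) ≤ ℓ * (ℓ + M) := by nlinarith
      calc _ ≤ (17 * q) * (1 + |y|) := h1
        _ = 17 * (q * (1 + |y|)) := by ring
        _ ≤ 17 * (2 * Real.exp (u ^ 2)) := by
            apply mul_le_mul_of_nonneg_left _ (by norm_num)
            exact (habs y).trans h4
        _ = 34 * 1 * Real.exp (u ^ 2) := by ring
        _ ≤ 34 * (ℓ * (ℓ + M)) * Real.exp (u ^ 2) := by gcongr
        _ ≤ _ := by
            have : 0 ≤ 16 * C * ℓ * (ℓ + M) * Real.exp (u ^ 2) := by positivity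
            linarith
  have htl := three_lines (a := -(1 / 4)) (b := δ) (σ0 := 0) (t0 := t)
    (lam := 4 * Real.log P) (by linarith) (by norm_num) hδ0.le hdc hgr hleft hright
  have e1 : Real.exp ((δ - -(1 / 4)) ^ 2) ≤ Real.exp 1 := by
    apply Real.exp_le_exp.mpr
    nlinarith
  have e2 : 34 * P * Real.exp (4 * Real.log P * (-(1 / 4) - 0)) = 34 := by
    have : Real.exp (4 * Real.log P * (-(1 / 4) - 0)) = P⁻¹ := by
      rw [show 4 * Real.log P * (-(1 / 4) - 0) = -Real.log P by ring, Real.exp_neg,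
        Real.exp_log hP0]
    rw [this, mul_assoc, mul_inv_cancel₀ hP0.ne', mul_one]
  have e3 : Real.exp (4 * Real.log P * (δ - 0)) ≤ 2 := by
    have h1 : 4 * Real.log P * (δ - 0) ≤ 1 / 2 := by
      rw [hδ, sub_zero, mul_one_div, div_le_iff₀ (by positivity)]
      linarith
    refine (Real.exp_le_exp.mpr h1).trans ?_
    have := Real.exp_bound_div_one_sub_of_interval (x := 1 / 2) (by norm_num) (by norm_num)
    norm_num at this ⊢
    linarith
  have hmain : ‖DirichletCharacter.LFunction χ ⟨1 / 2, t⟩‖ = ‖h ⟨0, t⟩‖ := by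
    simp only [hh]
    rw [half_add]
    simp
  rw [hmain]
  refine htl.trans ?_
  have hmax : max (34 * P * Real.exp (4 * Real.log P * (-(1 / 4) - 0)))
      ((16 * C + 34) * ℓ * (ℓ + M) * Real.exp (4 * Real.log P * (δ - 0))) ≤
      (34 + 2 * (16 * C + 34)) * ℓ * (ℓ + M) := by
    have h5 : (1 : ℝ) ≤ ℓ * (ℓ + M) := by nlinarith
    apply max_le
    · rw [e2]
      have : 0 ≤ 2 * (16 * C + 34) * (ℓ * (ℓ + M)) := by positivity
      nlinarith
    · have h1 : (16 * C + 34) * ℓ * (ℓ + M) * Real.exp (4 * Real.log P * (δ - 0)) ≤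
          (16 * C + 34) * ℓ * (ℓ + M) * 2 := mul_le_mul_of_nonneg_left e3 (by positivity)
      have h2 : 0 ≤ 34 * (ℓ * (ℓ + M)) := by positivity
      nlinarith
  have hexp3 : Real.exp 1 ≤ 3 := by linarith [Real.exp_one_lt_d9]
  calc _ ≤ 3 * ((34 + 2 * (16 * C + 34)) * ℓ * (ℓ + M)) := by
        apply mul_le_mul (e1.trans hexp3) hmax _ (by norm_num)
        apply le_max_of_le_left
        positivity
    _ = _ := by ring

end H429.GP
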