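import Mathlib

/-!
Complex analysis for the Gram point theorem: a maximum principle on unbounded sets for functions
with decay, and positivity of the real part.
-/

open Complex Filter Topology Set Metric

namespace H429.GP

/-- maximum principle on an arbitrary open set for a function which is small near infinity -/
theorem max_decay {U : Set ℂ} (hU : IsOpen U) {f : ℂ → ℂ} (hf : DiffContOnCl ℂ f U) {C R0 : ℝ}
    (hfr : ∀ z ∈ frontier U, ‖f z‖ ≤ C)
    (hinf : ∀ z ∈ closure U, R0 ≤ ‖z‖ → ‖f z‖ ≤ C) {z : ℂ} (hz : z ∈ closure U) : ‖f z‖ ≤ C := by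
  obtain ⟨R, hR⟩ : ∃ R : ℝ, max R0 ‖z‖ < R := exists_gt _
  have hR0 : R0 < R := lt_of_le_of_lt (le_max_left _ _) hR
  have hRz : ‖z‖ < R := lt_of_le_of_lt (le_max_right _ _) hR
  set V : Set ℂ := U ∩ ball 0 R with hV
  have hVU : V ⊆ U := inter_subset_left
  have hbd : Bornology.IsBounded V := isBounded_ball.subset inter_subset_right
  have hd : DiffContOnCl ℂ f V := hf.mono hVU
  have hzV : z ∈ closure V := by
    rw [hV]
    have h1 : z ∈ ball (0 : ℂ) R := by simpa using hRz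
    have h2 := isOpen_ball.inter_closure (s := ball (0 : ℂ) R) (t := U)
    have h3 : z ∈ closure (ball (0 : ℂ) R ∩ U) := h2 ⟨h1, hz⟩
    rwa [inter_comm] at h3
  refine norm_le_of_forall_mem_frontier_norm_le hbd hd ?_ hzV
  intro w hw
  have hwc : w ∈ closure V := frontier_subset_closure hw
  have hwU : w ∈ closure U := closure_mono hVU hwc
  rcases lt_or_ge ‖w‖ R with h | h
  · have hwnV : w ∉ V := by
      have hVo : IsOpen V := hU.inter isOpen_ball
      rw [hVo.frontier_eq] at hw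
      exact hw.2
    have hwnU : w ∉ U := fun h2 => hwnV ⟨h2, by simpa using h⟩
    apply hfr
    rw [hU.frontier_eq]
    exact ⟨hwU, hwnU⟩
  · exact hinf w hwU (hR0.le.trans h)

/-- real part on the reflecting boundary -/
theorem re_div_of_refl {f X : ℂ} {r : ℝ} (hX : ‖X‖ = 1) (hf : f = X * (starRingEnd ℂ) f) :
    (f / (1 - r * X)).re = (1 - r) * f.re / ‖1 - r * X‖ ^ 2 := by
  have hXX : X * (starRingEnd ℂ) X = 1 := by
    rw [mul_conj, normSq_eq_norm_sq, hX]; simp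
  have h1 : f * (starRingEnd ℂ) X = (starRingEnd ℂ) f := by
    calc f * (starRingEnd ℂ) X = (X * (starRingEnd ℂ) f) * (starRingEnd ℂ) X := by rw [← hf]
      _ = (X * (starRingEnd ℂ) X) * (starRingEnd ℂ) f := by ring
      _ = _ := by rw [hXX, one_mul]
  rw [div_eq_mul_inv, inv_def, ← mul_assoc, normSq_eq_norm_sq]
  have h2 : f * (starRingEnd ℂ) (1 - r * X) = f - r * (starRingEnd ℂ) f := by
    rw [map_sub, map_mul, map_one, conj_ofReal, ← h1]; ring
  rw [h2, re_mul_ofReal]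
  simp only [sub_re, mul_re, ofReal_re, ofReal_im, conj_re, conj_im]
  rw [div_eq_mul_inv]
  ring

theorem re_herglotz {X : ℂ} {r : ℝ} (hX : ‖X‖ = 1) {g : ℝ} :
    ((g : ℂ) * (1 + r * X) / (1 - r * X)).re = g * (1 - r ^ 2) / ‖1 - r * X‖ ^ 2 := by
  have hXX : X * (starRingEnd ℂ) X = 1 := by
    rw [mul_conj, normSq_eq_norm_sq, hX]; simp
  rw [div_eq_mul_inv, inv_def, ← mul_assoc, normSq_eq_norm_sq, re_mul_ofReal]
  have h2 : (g : ℂ) * (1 + r * X) * (starRingEnd ℂ) (1 - r * X) =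
      g * (1 - r ^ 2 * (X * (starRingEnd ℂ) X) + r * (X - (starRingEnd ℂ) X)) := by
    rw [map_sub, map_mul, map_one, conj_ofReal]; ring
  rw [h2, hXX]
  simp only [mul_re, ofReal_re, ofReal_im, add_re, sub_re, one_re, conj_re, mul_one, sub_self,
    mul_zero, zero_mul, sub_zero, add_zero, add_im, sub_im, conj_im, mul_im, one_im]
  rw [div_eq_mul_inv]
  have h3 : ((r : ℂ) ^ 2).re = r ^ 2 := by rw [← ofReal_pow, ofReal_re]
  rw [h3]

theorem norm_one_sub_ge {X : ℂ} {r : ℝ} (hX : ‖X‖ ≤ 1) (h0 : 0 ≤ r) (h1 : r ≤ 1) :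
    ‖1 - X‖ ≤ 2 * ‖1 - r * X‖ := by
  have h2 : 1 - r ≤ ‖1 - r * X‖ := by
    have h3 : ‖(1 : ℂ)‖ - ‖(r : ℂ) * X‖ ≤ ‖1 - r * X‖ := norm_sub_norm_le _ _
    rw [norm_one, norm_mul, norm_real, Real.norm_eq_abs, abs_of_nonneg h0] at h3
    nlinarith
  have h4 : ‖(1 : ℂ) - X‖ ≤ ‖1 - r * X‖ + ‖(r - 1 : ℂ) * X‖ := by
    have : (1 : ℂ) - X = (1 - r * X) + (r - 1) * X := by ring
    rw [this]
    exact norm_add_le _ _
  have h5 : ‖(r - 1 : ℂ) * X‖ ≤ 1 - r := by
    rw [norm_mul]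
    have : ‖(r - 1 : ℂ)‖ = 1 - r := by
      rw [← ofReal_one, ← ofReal_sub, norm_real, Real.norm_eq_abs, abs_sub_comm,
        abs_of_nonneg (by linarith)]
    rw [this]
    nlinarith [norm_nonneg X]
  linarith

end H429.GP
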