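import Pool.Agent.H429R2.GP.Max

/-!
Three lines with a Gaussian localisation.
-/

open Complex Filter Topology Set Metric

namespace H429.GP

theorem poly_gauss_small (t0 C ε : ℝ) (hε : 0 < ε) :
    ∃ R : ℝ, ∀ y : ℝ, R ≤ |y| → C * (1 + |y|) * Real.exp (-(y - t0) ^ 2 / 2) ≤ ε := by
  refine ⟨|t0| + 4 * |C| * (1 + |t0|) / ε, fun y hy => ?_⟩
  set u := |y - t0| with hu
  have hu0 : 0 ≤ u := abs_nonneg _
  have h1 : |y| ≤ |t0| + u := by
    have : y = t0 + (y - t0) := by ring
    calc |y| = |t0 + (y - t0)| := by rw [← this]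
      _ ≤ _ := abs_add_le _ _
  have hu1 : 4 * |C| * (1 + |t0|) / ε ≤ u := by linarith
  have h2 : 1 + |y| ≤ (1 + |t0|) * (1 + u) := by nlinarith [abs_nonneg t0]
  have h3 : (y - t0) ^ 2 = u ^ 2 := (sq_abs _).symm
  have h4 : Real.exp (-(y - t0) ^ 2 / 2) ≤ 1 / (1 + u ^ 2 / 2) := by
    rw [h3, show -u ^ 2 / 2 = -(u ^ 2 / 2) by ring, Real.exp_neg, ← one_div]
    apply one_div_le_one_div_of_le (by positivity)
    linarith [Real.add_one_le_exp (u ^ 2 / 2)]
  have h5 : (1 + u) * (1 / (1 + u ^ 2 / 2)) ≤ 4 / (1 + u) := by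
    rw [mul_one_div, div_le_div_iff₀ (by positivity) (by positivity)]
    nlinarith [sq_nonneg (u - 1)]
  calc C * (1 + |y|) * Real.exp (-(y - t0) ^ 2 / 2)
      ≤ |C| * ((1 + |t0|) * (1 + u)) * (1 / (1 + u ^ 2 / 2)) := by
        gcongr
        exact le_abs_self C
    _ = |C| * (1 + |t0|) * ((1 + u) * (1 / (1 + u ^ 2 / 2))) := by ring
    _ ≤ |C| * (1 + |t0|) * (4 / (1 + u)) := by gcongr
    _ ≤ ε := by
        rw [mul_div_assoc', div_le_iff₀ (by positivity)]
        rw [div_le_iff₀ hε] at hu1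
        nlinarith

theorem one_add_le_gauss (u : ℝ) : 1 + u ≤ 2 * Real.exp (u ^ 2) := by
  have := Real.add_one_le_exp (u ^ 2)
  nlinarith [sq_nonneg (u - 1 / 4)]

/-- norm of the Gaussian weight -/
theorem norm_gauss (z p : ℂ) :
    ‖cexp ((z - p) ^ 2)‖ = Real.exp ((z.re - p.re) ^ 2 - (z.im - p.im) ^ 2) := by
  rw [norm_exp, sq, mul_re, sub_re, sub_im]
  congr 1
  ring

theorem three_lines {a b σ0 t0 lam Ma Mb M : ℝ} (hab : a < b)
    (h1 : a ≤ σ0) (h2 : σ0 ≤ b) {h : ℂ → ℂ} (hd : DiffContOnCl ℂ h {z | a < z.re ∧ z.re < b})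
    (hM : ∀ z : ℂ, a ≤ z.re → z.re ≤ b → ‖h z‖ ≤ M * (1 + |z.im|))
    (hMa : ∀ y : ℝ, ‖h ⟨a, y⟩‖ ≤ Ma * Real.exp ((y - t0) ^ 2))
    (hMb : ∀ y : ℝ, ‖h ⟨b, y⟩‖ ≤ Mb * Real.exp ((y - t0) ^ 2)) :
    ‖h ⟨σ0, t0⟩‖ ≤ Real.exp ((b - a) ^ 2) *
      max (Ma * Real.exp (lam * (a - σ0))) (Mb * Real.exp (lam * (b - σ0))) := by
  set U : Set ℂ := {z | a < z.re ∧ z.re < b} with hU
  have hUo : IsOpen U := by
    rw [hU]
    exact (isOpen_lt continuous_const continuous_re).inter
      (isOpen_lt continuous_re continuous_const)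
  have hcl : closure U ⊆ {z | a ≤ z.re ∧ z.re ≤ b} := by
    apply closure_minimal
    · intro z hz
      exact ⟨hz.1.le, hz.2.le⟩
    · exact (isClosed_le continuous_const continuous_re).inter
        (isClosed_le continuous_re continuous_const)
  set p : ℂ := ⟨σ0, t0⟩ with hp
  set F : ℂ → ℂ := fun z => h z * (cexp ((z - p) ^ 2) * cexp (lam * (z - p))) with hF
  have hFd : DiffContOnCl ℂ F U := by
    have h3 : Differentiable ℂ (fun z => cexp ((z - p) ^ 2) * cexp (lam * (z - p))) := by fun_prop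
    exact hd.smul h3.diffContOnCl
  have hFn : ∀ z : ℂ, ‖F z‖ = ‖h z‖ * (Real.exp ((z.re - σ0) ^ 2 - (z.im - t0) ^ 2) *
      Real.exp (lam * (z.re - σ0))) := by
    intro z
    simp only [hF]
    rw [norm_mul, norm_mul, norm_gauss, norm_exp, re_ofReal_mul]
    simp [hp]
  set C : ℝ := Real.exp ((b - a) ^ 2) *
      max (Ma * Real.exp (lam * (a - σ0))) (Mb * Real.exp (lam * (b - σ0))) with hC
  have hMa0 : 0 ≤ Ma := by
    have := (norm_nonneg _).trans (hMa t0)
    simpa using this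
  have hMb0 : 0 ≤ Mb := by
    have := (norm_nonneg _).trans (hMb t0)
    simpa using this
  have hfr : ∀ z ∈ frontier U, ‖F z‖ ≤ C := by
    intro z hz
    rw [hUo.frontier_eq] at hz
    obtain ⟨hz1, hz2⟩ := hcl hz.1
    have hz3 : z.re = a ∨ z.re = b := by
      by_contra hcon
      push Not at hcon
      exact hz.2 ⟨lt_of_le_of_ne hz1 (Ne.symm hcon.1), lt_of_le_of_ne hz2 hcon.2⟩
    have hsq : (z.re - σ0) ^ 2 ≤ (b - a) ^ 2 := by
      apply sq_le_sq'
      · linarith
      · linarith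
    have he : Real.exp ((z.re - σ0) ^ 2 - (z.im - t0) ^ 2) ≤
        Real.exp ((b - a) ^ 2) * Real.exp (-(z.im - t0) ^ 2) := by
      rw [← Real.exp_add]
      exact Real.exp_le_exp.mpr (by linarith)
    have hcanc : Real.exp ((z.im - t0) ^ 2) * Real.exp (-(z.im - t0) ^ 2) = 1 := by
      rw [← Real.exp_add]; simp
    rw [hFn]
    rcases hz3 with h3 | h3
    · have hze : z = ⟨a, z.im⟩ := by apply Complex.ext <;> simp [h3]
      have h4 : ‖h z‖ ≤ Ma * Real.exp ((z.im - t0) ^ 2) := by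
        have := hMa z.im
        rwa [← hze] at this
      calc _ ≤ (Ma * Real.exp ((z.im - t0) ^ 2)) *
            ((Real.exp ((b - a) ^ 2) * Real.exp (-(z.im - t0) ^ 2)) *
              Real.exp (lam * (z.re - σ0))) := by gcongr
        _ = Real.exp ((b - a) ^ 2) * (Ma * Real.exp (lam * (z.re - σ0))) *
            (Real.exp ((z.im - t0) ^ 2) * Real.exp (-(z.im - t0) ^ 2)) := by ring
        _ = Real.exp ((b - a) ^ 2) * (Ma * Real.exp (lam * (a - σ0))) := by
            rw [hcanc, mul_one, h3]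
        _ ≤ C := by
            rw [hC]
            gcongr
            exact le_max_left _ _
    · have hze : z = ⟨b, z.im⟩ := by apply Complex.ext <;> simp [h3]
      have h4 : ‖h z‖ ≤ Mb * Real.exp ((z.im - t0) ^ 2) := by
        have := hMb z.im
        rwa [← hze] at this
      calc _ ≤ (Mb * Real.exp ((z.im - t0) ^ 2)) *
            ((Real.exp ((b - a) ^ 2) * Real.exp (-(z.im - t0) ^ 2)) *
              Real.exp (lam * (z.re - σ0))) := by gcongr
        _ = Real.exp ((b - a) ^ 2) * (Mb * Real.exp (lam * (z.re - σ0))) *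
            (Real.exp ((z.im - t0) ^ 2) * Real.exp (-(z.im - t0) ^ 2)) := by ring
        _ = Real.exp ((b - a) ^ 2) * (Mb * Real.exp (lam * (b - σ0))) := by
            rw [hcanc, mul_one, h3]
        _ ≤ C := by
            rw [hC]
            gcongr
            exact le_max_right _ _
  -- decay
  have hC0 : 0 ≤ C := by rw [hC]; positivity
  have hclU : closure U = {z | a ≤ z.re ∧ z.re ≤ b} := by
    have h5 : U = re ⁻¹' (Ioo a b) := rfl
    rw [h5, closure_preimage_re, closure_Ioo hab.ne]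
    rfl
  have hpc : p ∈ closure U := by
    rw [hclU]
    exact ⟨h1, h2⟩
  have key : ∀ ε : ℝ, 0 < ε → ‖F p‖ ≤ C + ε := by
    intro ε hε
    obtain ⟨R, hR⟩ := poly_gauss_small t0
      (|M| * (Real.exp ((b - a) ^ 2) * Real.exp (|lam| * (b - a)))) ε hε
    refine max_decay hUo hFd (C := C + ε) (R0 := |R| + |a| + |b|)
      (fun z hz => (hfr z hz).trans (by linarith)) ?_
      (z := p) hpc
    intro z hz hRz
    obtain ⟨hz1, hz2⟩ := hcl hz
    have hre : |z.re| ≤ |a| + |b| := by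
      rw [abs_le]
      constructor
      · linarith [neg_abs_le a, abs_nonneg b]
      · linarith [le_abs_self b, abs_nonneg a]
    have him : R ≤ |z.im| := by
      have := norm_le_abs_re_add_abs_im z
      linarith [le_abs_self R]
    refine le_trans ?_ ((hR z.im him).trans (by linarith))
    rw [hFn]
    have hsq : (z.re - σ0) ^ 2 ≤ (b - a) ^ 2 := by
      apply sq_le_sq' <;> linarith
    have h5 : lam * (z.re - σ0) ≤ |lam| * (b - a) := by
      calc lam * (z.re - σ0) ≤ |lam * (z.re - σ0)| := le_abs_self _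
        _ = |lam| * |z.re - σ0| := abs_mul _ _
        _ ≤ _ := by
          gcongr
          rw [abs_le]; constructor <;> linarith
    have h6 : ‖h z‖ ≤ |M| * (1 + |z.im|) :=
      (hM z hz1 hz2).trans (by gcongr; exact le_abs_self M)
    calc _ ≤ (|M| * (1 + |z.im|)) * ((Real.exp ((b - a) ^ 2) *
          Real.exp (-(z.im - t0) ^ 2 / 2)) * Real.exp (|lam| * (b - a))) := by
          gcongr
          rw [← Real.exp_add]
          apply Real.exp_le_exp.mpr
          nlinarith [sq_nonneg (z.im - t0)]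
      _ = _ := by ring
  have hFp : ‖F p‖ = ‖h p‖ := by
    rw [hFn]
    simp [hp]
  rw [hFp] at key
  exact le_of_forall_pos_le_add key

end H429.GP
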