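import Pool.Agent.H429R2.GP.XF

/-!
Decay of the factor of the functional equation to the right of the critical line.
-/

open Complex Filter Topology Set Metric MeasureTheory

namespace H429.GP

open H370.DL

theorem re_logDeriv_Gammaℝ {η : ℝ} (hη : 0 < η) : ∃ C : ℝ, 0 ≤ C ∧ ∀ z : ℂ, η ≤ z.re → z.re ≤ 2 →
    1 / 2 * Real.log (1 + |z.im|) - C ≤ (logDeriv Gammaℝ z).re := by
  obtain ⟨C1, hC10, hC1⟩ := logDeriv_Gammaℝ_bound
  -- compact part
  set S : Set ℂ := Icc η 2 ×ℂ Icc (-1) 1 with hS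
  have hScpt : IsCompact S := by
    rw [hS]
    exact isCompact_Icc.reProdIm isCompact_Icc
  have hcont : ContinuousOn (fun z => (logDeriv Gammaℝ z).re) S := by
    intro z hz
    have hz0 : 0 < z.re := lt_of_lt_of_le hη hz.1.1
    have h1 := analyticAt_Gammaℝ_of_pos hz0
    have h2 : ContinuousAt (logDeriv Gammaℝ) z :=
      ContinuousAt.div h1.deriv.continuousAt h1.continuousAt (Gammaℝ_ne_zero_of_re_pos hz0)
    exact (continuous_re.continuousAt.comp h2).continuousWithinAt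
  obtain ⟨m, hm⟩ := (hScpt.image_of_continuousOn hcont).bddBelow
  refine ⟨C1 + |m| + 1, by positivity, ?_⟩
  intro z hz1 hz2
  have hlog2 : Real.log 2 ≤ 1 := by
    have := Real.log_le_sub_one_of_pos (by norm_num : (0 : ℝ) < 2)
    linarith
  rcases le_or_gt 1 |z.im| with h | h
  · have h1 := hC1 z (by linarith) (by linarith) h
    have h2 := (abs_le.mp (abs_re_le_norm (logDeriv Gammaℝ z - 1 / 2 * Real.log |z.im|))).1
    have h3 : (logDeriv Gammaℝ z - 1 / 2 * Real.log |z.im|).re =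
        (logDeriv Gammaℝ z).re - 1 / 2 * Real.log |z.im| := by
      rw [sub_re]
      congr 1
      have : (1 / 2 : ℂ) = ((1 / 2 : ℝ) : ℂ) := by push_cast; rfl
      rw [this, ← ofReal_mul, ofReal_re]
    rw [h3] at h2
    have h4 : Real.log (1 + |z.im|) ≤ Real.log 2 + Real.log |z.im| := by
      rw [← Real.log_mul (by norm_num) (by linarith)]
      apply Real.log_le_log (by linarith)
      linarith
    have := abs_nonneg m
    linarith
  · have h1 : z ∈ S := ⟨⟨hz1, hz2⟩, by rw [abs_lt] at h; exact ⟨h.1.le, h.2.le⟩⟩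
    have h2 := hm ⟨z, h1, rfl⟩
    simp only at h2
    have h3 : Real.log (1 + |z.im|) ≤ Real.log 2 := by
      apply Real.log_le_log (by positivity)
      linarith
    have := neg_abs_le m
    linarith

/-- decay to the right of the critical line -/
theorem XX_decay {η : ℝ} (hη : 0 < η) : ∃ C : ℝ, 0 ≤ C ∧
    ∀ (q : ℕ) [NeZero q] (χ : DirichletCharacter ℂ q), χ.IsPrimitive → ∀ x y : ℝ, 0 ≤ x →
      x ≤ 1 / 2 - η → ‖XX χ ⟨1 / 2 + x, y⟩‖ ≤ Real.exp (-x * (Real.log (q * (1 + |y|)) - C)) := by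
  obtain ⟨C, hC0, hC⟩ := re_logDeriv_Gammaℝ hη
  refine ⟨2 * C, by positivity, ?_⟩
  intro q _ χ hχ x y hx0 hx1
  have hq := one_le_q q
  -- first off the real axis
  have hoff : ∀ y : ℝ, y ≠ 0 →
      ‖XX χ ⟨1 / 2 + x, y⟩‖ ≤ Real.exp (-x * (Real.log (q * (1 + |y|)) - 2 * C)) := by
    intro y hy
    set μ : ℝ := Real.log (q * (1 + |y|)) - 2 * C with hμ
    set φ : ℝ → ℂ := fun x => XX χ ⟨1 / 2 + x, y⟩ with hφ
    set N : ℝ → ℝ := fun x => ‖φ x‖ ^ 2 * Real.exp (2 * μ * x) with hN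
    have hder : ∀ x : ℝ, 0 ≤ x → x ≤ 1 / 2 - η →
        HasDerivAt φ (φ x * logDeriv (XX χ) ⟨1 / 2 + x, y⟩) x := by
      intro x h0 h1
      have ha : AnalyticAt ℂ (XX χ) ⟨1 / 2 + x, y⟩ :=
        analyticAt_XX' (by simp; linarith) (by simp; linarith)
      have h2 : HasDerivAt (fun x : ℝ => (⟨1 / 2 + x, y⟩ : ℂ)) 1 x := by
        have e : (fun x : ℝ => (⟨1 / 2 + x, y⟩ : ℂ)) = fun x : ℝ => (x : ℂ) + (1 / 2 + y * I) := by
          funext x
          apply Complex.ext <;> simp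
          ring
        rw [e]
        exact (ofRealCLM.hasDerivAt (x := x)).add_const _
      have h3 := HasDerivAt.comp x ha.differentiableAt.hasDerivAt h2
      have hne := XX_ne_zero hχ (s := ⟨1 / 2 + x, y⟩) hy
      have h4 : deriv (XX χ) ⟨1 / 2 + x, y⟩ * 1 = φ x * logDeriv (XX χ) ⟨1 / 2 + x, y⟩ := by
        rw [logDeriv_apply, mul_one]
        exact (mul_div_cancel₀ _ hne).symm
      rw [h4] at h3
      exact h3
    have hre : ∀ x : ℝ, 0 ≤ x → x ≤ 1 / 2 - η →
        (logDeriv (XX χ) ⟨1 / 2 + x, y⟩).re ≤ -μ := by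
      intro x h0 h1
      rw [logDeriv_XX hχ hy]
      have ha0 := aa_re_nonneg (χ := χ)
      have ha1 := aa_re_le (χ := χ)
      have b1 := hC (1 - ⟨1 / 2 + x, y⟩ + aa χ)
        (by rw [add_re, sub_re, one_re]; simp only; linarith)
        (by rw [add_re, sub_re, one_re]; simp only; linarith)
      have b2 := hC (⟨1 / 2 + x, y⟩ + aa χ) (by rw [add_re]; simp only; linarith)
        (by rw [add_re]; simp only; linarith)
      have i1 : |((1 : ℂ) - ⟨1 / 2 + x, y⟩ + aa χ).im| = |y| := by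
        simp [aa_im]
      have i2 : |((⟨1 / 2 + x, y⟩ : ℂ) + aa χ).im| = |y| := by
        simp [aa_im]
      rw [i1] at b1
      rw [i2] at b2
      rw [sub_re, sub_re, neg_re, ofReal_re, hμ, Real.log_mul (by linarith) (by positivity)]
      linarith
    have hNd : ∀ x : ℝ, 0 ≤ x → x ≤ 1 / 2 - η → ∃ d : ℝ, d ≤ 0 ∧ HasDerivAt N d x := by
      intro x h0 h1
      have h2 := (hder x h0 h1).norm_sq
      have h3 : HasDerivAt (fun x : ℝ => Real.exp (2 * μ * x)) (Real.exp (2 * μ * x) * (2 * μ)) x := by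
        have := ((hasDerivAt_id x).const_mul (2 * μ)).exp
        simpa using this
      refine ⟨_, ?_, h2.mul h3⟩
      have h4 : @inner ℝ ℂ _ (φ x) (φ x * logDeriv (XX χ) ⟨1 / 2 + x, y⟩) =
          ‖φ x‖ ^ 2 * (logDeriv (XX χ) ⟨1 / 2 + x, y⟩).re := by
        rw [Complex.inner]
        have : (φ x * logDeriv (XX χ) ⟨1 / 2 + x, y⟩) * (starRingEnd ℂ) (φ x) =
            ((‖φ x‖ ^ 2 : ℝ) : ℂ) * logDeriv (XX χ) ⟨1 / 2 + x, y⟩ := by
          rw [← normSq_eq_norm_sq, ← mul_conj]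
          ring
        rw [this, re_ofReal_mul]
      rw [h4]
      have h5 := hre x h0 h1
      have h6 : 0 ≤ ‖φ x‖ ^ 2 := by positivity
      have h7 : 0 < Real.exp (2 * μ * x) := Real.exp_pos _
      have h8 : 2 * (‖φ x‖ ^ 2 * (logDeriv (XX χ) ⟨1 / 2 + x, y⟩).re) * Real.exp (2 * μ * x) +
          ‖φ x‖ ^ 2 * (Real.exp (2 * μ * x) * (2 * μ)) =
          2 * ‖φ x‖ ^ 2 * Real.exp (2 * μ * x) * ((logDeriv (XX χ) ⟨1 / 2 + x, y⟩).re + μ) := by
        ring
      rw [h8]
      exact mul_nonpos_of_nonneg_of_nonpos (by positivity) (by linarith)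
    have hanti : AntitoneOn N (Icc 0 (1 / 2 - η)) := by
      apply antitoneOn_of_deriv_nonpos (convex_Icc _ _)
      · intro x hx
        obtain ⟨d, -, hd⟩ := hNd x hx.1 hx.2
        exact hd.continuousAt.continuousWithinAt
      · intro x hx
        rw [interior_Icc] at hx
        obtain ⟨d, -, hd⟩ := hNd x hx.1.le hx.2.le
        exact hd.differentiableAt.differentiableWithinAt
      · intro x hx
        rw [interior_Icc] at hx
        obtain ⟨d, hd0, hd⟩ := hNd x hx.1.le hx.2.le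
        rw [hd.deriv]
        exact hd0
    have h1 := hanti (left_mem_Icc.mpr (by linarith)) ⟨hx0, hx1⟩ hx0
    simp only [hN, hφ] at h1
    rw [mul_zero, Real.exp_zero, mul_one, add_zero, norm_XX_line hχ, one_pow] at h1
    have h2 : Real.exp (-x * μ) ^ 2 * Real.exp (2 * μ * x) = 1 := by
      rw [← Real.exp_nat_mul, ← Real.exp_add]
      rw [Real.exp_eq_one_iff]
      push_cast
      ring
    have h3 : 0 < Real.exp (2 * μ * x) := Real.exp_pos _
    have h4 : ‖XX χ ⟨1 / 2 + x, y⟩‖ ^ 2 ≤ Real.exp (-x * μ) ^ 2 := by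
      exact le_of_mul_le_mul_right (h1.trans h2.symm.le) h3
    exact (sq_le_sq₀ (norm_nonneg _) (Real.exp_pos _).le).mp h4
  rcases eq_or_ne y 0 with hy | hy
  · have hc : Continuous (fun y : ℝ => (⟨1 / 2 + x, y⟩ : ℂ)) := by
      have : (fun y : ℝ => (⟨1 / 2 + x, y⟩ : ℂ)) = fun y : ℝ => ((1 / 2 + x : ℝ) : ℂ) + y * I := by
        funext y
        apply Complex.ext <;> simp
      rw [this]
      fun_prop
    have hcX : Continuous (fun y : ℝ => ‖XX χ ⟨1 / 2 + x, y⟩‖) := by
      rw [continuous_iff_continuousAt]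
      intro y
      exact (ContinuousAt.comp (g := XX χ)
        (f := fun y : ℝ => (⟨1 / 2 + x, y⟩ : ℂ))
        (analyticAt_XX' (by simp; linarith) (by simp; linarith)).continuousAt
        hc.continuousAt).norm
    have hcR : Continuous (fun y : ℝ => Real.exp (-x * (Real.log (q * (1 + |y|)) - 2 * C))) := by
      have : ∀ y : ℝ, (q : ℝ) * (1 + |y|) ≠ 0 := by
        intro y
        have : 0 < (q : ℝ) * (1 + |y|) := by positivity
        exact this.ne'
      have h1 : Continuous (fun y : ℝ => Real.log (q * (1 + |y|))) :=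
        Continuous.log (by fun_prop) this
      fun_prop
    have hcl : IsClosed {y : ℝ | ‖XX χ ⟨1 / 2 + x, y⟩‖ ≤
      Real.exp (-x * (Real.log (q * (1 + |y|)) - 2 * C))} := isClosed_le hcX hcR
    have hd : Dense ({0}ᶜ : Set ℝ) := dense_compl_singleton 0
    have := closure_minimal (fun y hy => hoff y hy : ({0}ᶜ : Set ℝ) ⊆ _) hcl
    rw [hd.closure_eq] at this
    exact this (mem_univ y)
  · exact hoff y hy

end H429.GP
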